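import Pool.Agent.Run7.h262.EC.Inf
import Pool.Agent.Run7.h262.TB.Vs

/-!
Subgroups of finite index, and infinite virtually solvable normal subgroups.
-/

set_option autoImplicit false
set_option linter.unusedSectionVars false

open Filter Topology

namespace Run7.h262.EC

open Run7.h262.SV Run7.h262.TB

variable {Γ E : Type} [Group Γ] [NormedAddCommGroup E] [NormedSpace ℝ E] [FiniteDimensional ℝ E]
  {hol : Γ →* (E ≃ᵃ[ℝ] E)} {A : Subgroup Γ} {Ω D : Set E}

theorem hol_cont' (g : E ≃ᵃ[ℝ] E) : Continuous g := by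
  have h1 : (fun x => g x) = fun x => g.linear x + g 0 := funext fun x => aff_apply g x
  change Continuous fun x => g x
  rw [h1]
  exact (LinearMap.continuous_of_finiteDimensional (g.linear : E →ₗ[ℝ] E)).add continuous_const

theorem AffAct.subH (h : AffAct Γ E hol Ω) (H : Subgroup Γ) (hH : H.FiniteIndex) :
    AffAct H E (hol.comp H.subtype) Ω := by
  classical
  refine ⟨h.isOpen, h.nonempty, fun γ x hx => h.inv γ x hx, ?_, ?_⟩
  · intro K hK hKΩ
    have h1 := (h.pd K hK hKΩ).preimage (f := ((↑) : H → Γ)) Subtype.coe_injective.injOn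
    exact h1
  · obtain ⟨K, hK, hKΩ, hc⟩ := h.cc
    have hf : Finite (Γ ⧸ H) := Subgroup.finite_quotient_of_finiteIndex
    refine ⟨⋃ q : Γ ⧸ H, hol (q.out)⁻¹ '' K, isCompact_iUnion fun q => hK.image (hol_cont' _), ?_,
      ?_⟩
    · refine Set.iUnion_subset fun q => ?_
      rintro _ ⟨x, hx, rfl⟩
      exact h.inv _ _ (hKΩ hx)
    · intro x hx
      obtain ⟨γ, hγ⟩ := hc x hx
      obtain ⟨η, hη⟩ := QuotientGroup.mk_out_eq_mul H γ
      refine ⟨η⁻¹, Set.mem_iUnion.2 ⟨(γ : Γ ⧸ H), hol γ x, hγ, ?_⟩⟩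
      change hol _ (hol γ x) = hol ((η⁻¹ : H) : Γ) x
      rw [hη, mul_inv_rev]
      change (hol ((η : Γ)⁻¹ * γ⁻¹) * hol γ) x = _
      rw [← map_mul, inv_mul_cancel_right]
      rfl

theorem Fund.subH (hD : Fund hol Ω D) (hinv : ∀ γ : Γ, ∀ x ∈ Ω, hol γ x ∈ Ω) (H : Subgroup Γ)
    (hH : H.FiniteIndex) :
    ∃ D' : Set E, Fund (hol.comp H.subtype) Ω D' ∧ ∃ m : ℕ, m ≠ 0 ∧ chi D' = m * chi D := by
  classical
  have hf : Finite (Γ ⧸ H) := Subgroup.finite_quotient_of_finiteIndex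
  have := Fintype.ofFinite (Γ ⧸ H)
  have hDΩ : D ⊆ Ω := subset_closure.trans hD.sub
  have hmem : ∀ (g : Γ) (x : E), x ∈ hol g⁻¹ '' D ↔ hol g x ∈ D := by
    intro g x
    constructor
    · rintro ⟨y, hy, rfl⟩
      change (hol g * hol g⁻¹) y ∈ D
      rw [← map_mul, mul_inv_cancel, map_one]
      exact hy
    · intro hx
      refine ⟨hol g x, hx, ?_⟩
      change (hol g⁻¹ * hol g) x = x
      rw [← map_mul, inv_mul_cancel, map_one]
      rfl
  set D' : Set E := ⋃ q : Γ ⧸ H, hol (q.out)⁻¹ '' D with hD'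
  have hcon : ∀ q : Γ ⧸ H, Con fun x => x ∈ hol (q.out)⁻¹ '' D := fun q => con_image hD.con _
  have hK : IsCompact (⋃ q : Γ ⧸ H, hol (q.out)⁻¹ '' closure D) :=
    isCompact_iUnion fun q => hD.cpt.image (hol_cont' _)
  have hKΩ : (⋃ q : Γ ⧸ H, hol (q.out)⁻¹ '' closure D) ⊆ Ω := by
    refine Set.iUnion_subset fun q => ?_
    rintro _ ⟨x, hx, rfl⟩
    exact hinv _ _ (hD.sub hx)
  have hcl : closure D' ⊆ ⋃ q : Γ ⧸ H, hol (q.out)⁻¹ '' closure D := by
    refine closure_minimal ?_ hK.isClosed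
    exact Set.iUnion_mono fun q => Set.image_mono subset_closure
  refine ⟨D', ⟨?_, hK.of_isClosed_subset isClosed_closure hcl, hcl.trans hKΩ, ?_⟩,
    Fintype.card (Γ ⧸ H), Fintype.card_ne_zero, ?_⟩
  · have h1 := Con.ex hcon
    have e : (fun x => ∃ q : Γ ⧸ H, x ∈ hol (q.out)⁻¹ '' D) = fun x => x ∈ D' := by
      funext x
      exact propext Set.mem_iUnion.symm
    rwa [e] at h1
  · intro x hx
    obtain ⟨γ, hγ, huniq⟩ := hD.one x hx
    have hiff : ∀ η : H, (hol.comp H.subtype) η x ∈ D' ↔ ∃ q : Γ ⧸ H, q.out * (η : Γ) = γ := by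
      intro η
      rw [hD', Set.mem_iUnion]
      refine exists_congr fun q => ?_
      rw [hmem]
      change (hol q.out * hol (η : Γ)) x ∈ D ↔ _
      rw [← map_mul]
      constructor
      · intro h1
        exact huniq _ h1
      · intro h1
        rw [h1]
        exact hγ
    obtain ⟨η, hη⟩ := QuotientGroup.mk_out_eq_mul H γ
    refine ⟨η⁻¹, (hiff _).2 ⟨(γ : Γ ⧸ H), ?_⟩, ?_⟩
    · rw [hη]
      simp
    · intro η' h1
      obtain ⟨q, hq⟩ := (hiff η').1 h1
      have h2 : (γ : Γ ⧸ H) = q := by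
        rw [← hq]
        have h3 : ((q.out * (η' : Γ) : Γ) : Γ ⧸ H) = (q.out : Γ ⧸ H) := by
          rw [QuotientGroup.eq]
          simp
        rw [h3, QuotientGroup.out_eq']
      refine Subtype.ext ?_
      have h4 : (η' : Γ) = q.out⁻¹ * γ := by
        rw [← hq, inv_mul_cancel_left]
      rw [h4, ← h2, hη]
      simp
  · rw [chi_union Finset.univ (fun q : Γ ⧸ H => hol (q.out)⁻¹ '' D) D' (fun q _ => hcon q)
      (fun x => by rw [hD', Set.mem_iUnion]; simp) ?_]
    · rw [Finset.sum_congr rfl fun q _ => chi_image hD.con (hol (q : Γ ⧸ H).out⁻¹),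
        Finset.sum_const, Finset.card_univ, nsmul_eq_mul]
    · intro q _ q' _ x hx hx'
      rw [hmem] at hx hx'
      have hxΩ : x ∈ Ω := by
        have := hinv (q.out)⁻¹ _ (hDΩ hx)
        change (hol (q.out)⁻¹ * hol q.out) x ∈ Ω at this
        rw [← map_mul, inv_mul_cancel, map_one] at this
        exact this
      have h1 := (hD.one x hxΩ).unique hx hx'
      rw [← QuotientGroup.out_eq' q, ← QuotientGroup.out_eq' q', h1]

theorem infinite_subgroupOf (hAi : Infinite A) (H : Subgroup Γ) (hH : H.FiniteIndex) :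
    Infinite (A.subgroupOf H) := by
  classical
  have hf : Finite (Γ ⧸ H) := Subgroup.finite_quotient_of_finiteIndex
  obtain ⟨y, hy⟩ := Finite.exists_infinite_fiber fun a : A => ((a : Γ) : Γ ⧸ H)
  obtain ⟨⟨a₀, ha₀⟩⟩ := (inferInstance : Nonempty ((fun a : A => ((a : Γ) : Γ ⧸ H)) ⁻¹' {y}))
  let g : ((fun a : A => ((a : Γ) : Γ ⧸ H)) ⁻¹' {y}) → A.subgroupOf H := fun b =>
    ⟨⟨(a₀ : Γ)⁻¹ * ((b : A) : Γ), by
      have h1 : ((a₀ : Γ) : Γ ⧸ H) = (((b : A) : Γ) : Γ ⧸ H) := by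
        have h2 : ((a₀ : Γ) : Γ ⧸ H) = y := ha₀
        have h3 : (((b : A) : Γ) : Γ ⧸ H) = y := b.2
        rw [h2, h3]
      exact QuotientGroup.eq.1 h1⟩,
      Subgroup.mem_subgroupOf.2 (A.mul_mem (A.inv_mem a₀.2) (b : A).2)⟩
  refine Infinite.of_injective g ?_
  intro b c hbc
  have h1 : (a₀ : Γ)⁻¹ * ((b : A) : Γ) = (a₀ : Γ)⁻¹ * ((c : A) : Γ) :=
    congrArg (fun z : A.subgroupOf H => ((z : H) : Γ)) hbc
  exact Subtype.ext (Subtype.ext (mul_left_cancel h1))

/-- the Euler characteristic vanishes if there is an infinite commutative normal subgroup -/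
theorem chi_abelian (h : AffAct Γ E hol Ω) (hfree : ∀ γ : Γ, ∀ x ∈ Ω, hol γ x = x → γ = 1)
    (hA : ∀ a ∈ A, ∀ b ∈ A, a * b = b * a) (hN : A.Normal) (hAi : Infinite A)
    (hD : Fund hol Ω D) : chi D = 0 := by
  obtain ⟨H, hH, hW⟩ := exists_W hol hA hN
  have h' := AffAct.subH h H hH
  obtain ⟨D', hD', m, hm, hchi⟩ := hD.subH h.inv H hH
  have hfree' : ∀ γ : H, ∀ x ∈ Ω, (hol.comp H.subtype) γ x = x → γ = 1 := fun γ x hx h1 =>
    Subtype.ext (hfree γ x hx h1)
  have hA' : ∀ a ∈ A.subgroupOf H, ∀ b ∈ A.subgroupOf H, a * b = b * a := fun a ha b hb =>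
    Subtype.ext (hA _ (Subgroup.mem_subgroupOf.1 ha) _ (Subgroup.mem_subgroupOf.1 hb))
  have hN' : (A.subgroupOf H).Normal := inferInstance
  have hSS : SS (hol.comp H.subtype) (A.subgroupOf H) ≤ SS hol A := by
    refine Submodule.span_mono ?_
    rintro _ ⟨a, ha, rfl⟩
    exact ⟨a, Subgroup.mem_subgroupOf.1 ha, rfl⟩
  obtain ⟨Λ, hΛ, hne⟩ := exists_lat h' (AffAct.inj h' hfree') hA' hN'
    (infinite_subgroupOf hAi H hH) fun γ X hX => hW γ γ.2 X (hSS hX)
  have h1 := chi_zero h' hfree' hA' hN' hΛ hne hD'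
  rw [hchi] at h1
  exact (mul_eq_zero.1 h1).resolve_left (Nat.cast_ne_zero.2 hm)

/-- infinite virtually solvable normal subgroups contain infinite commutative normal subgroups -/
theorem exists_inf_abelian (hinj : Function.Injective hol) (N : Subgroup Γ) (hN : N.Normal)
    (hNi : Infinite N) (S : Subgroup N) (hS : S.FiniteIndex) (hs : Group.IsSolvable S) :
    ∃ A : Subgroup Γ, A.Normal ∧ Infinite A ∧ ∀ a ∈ A, ∀ b ∈ A, a * b = b * a := by
  classical
  obtain ⟨K, hKf, hKs, hKn⟩ := exists_char N hN S hS hs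
  set P := K.map N.subtype with hP
  have hPs : Group.IsSolvable P := Group.isSolvable_of_surjective (N.subtype.subgroupMap_surjective K)
  have hPi : Infinite P := by
    have h1 : Infinite K := by
      have h2 := Subgroup.card_mul_index K
      rw [Nat.card_eq_zero_of_infinite (α := N)] at h2
      have h3 : Nat.card K = 0 := (mul_eq_zero.1 h2).resolve_right hKf.index_ne_zero
      rcases Nat.card_eq_zero.1 h3 with h4 | h4
      · exact absurd (inferInstance : Nonempty K) (not_nonempty_iff.2 h4)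
      · exact h4
    exact Infinite.of_injective (fun k : K => (⟨(k : N), ⟨k, k.2, rfl⟩⟩ : P)) fun a b hab =>
      Subtype.ext (Subtype.ext (congrArg (fun z : P => (z : Γ)) hab))
  obtain ⟨n, hn⟩ := hPs
  have hex : ∃ n, Finite (dser P n) := ⟨n, by
    rw [dser_eq, hn, Subgroup.map_bot]
    infer_instance⟩
  have hm := Nat.find_spec hex
  have hmin := fun j => @Nat.find_min _ _ hex j
  cases hc : Nat.find hex with
  | zero =>
    rw [hc] at hm
    exact absurd hm (not_finite_iff_infinite.2 hPi)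
  | succ m =>
    rw [hc] at hm
    have hBn := dser_normal P hKn m
    have hBi : Infinite (dser P m) := not_finite_iff_infinite.1 (hmin m (by omega))
    set B := dser P m with hB
    have hF : Finite (⁅B, B⁆ : Subgroup Γ) := hm
    refine ⟨B ⊓ Subgroup.centralizer (B : Set Γ), inferInstance, ?_, ?_⟩
    · obtain ⟨s, hs, hspan⟩ := (Submodule.fg_span_iff_fg_span_finset_subset
        ((fun a => hat (hol a)) '' (B : Set Γ))).1 (IsNoetherian.noetherian (SS hol B))
      choose b hb hbs using fun Y : s => hs Y.2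
      let f : B → (s → (⁅B, B⁆ : Subgroup Γ)) := fun a Y =>
        ⟨(a : Γ) * b Y * (a : Γ)⁻¹ * (b Y)⁻¹, Subgroup.commutator_mem_commutator a.2 (hb Y)⟩
      obtain ⟨y, hy⟩ := Finite.exists_infinite_fiber f
      obtain ⟨⟨a₀, ha₀⟩⟩ := (inferInstance : Nonempty (f ⁻¹' {y}))
      have hcent : ∀ a : f ⁻¹' {y}, (a₀ : Γ)⁻¹ * ((a : B) : Γ) ∈ Subgroup.centralizer (B : Set Γ) := by
        intro a
        have h1 : ∀ Y : s, Commute ((a₀ : Γ)⁻¹ * ((a : B) : Γ)) (b Y) := by
          intro Y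
          have h2 : f (a : B) Y = f a₀ Y := by
            have e1 : f (a : B) = y := a.2
            have e2 : f a₀ = y := ha₀
            rw [e1, e2]
          have h3 : ((a : B) : Γ) * b Y * ((a : B) : Γ)⁻¹ * (b Y)⁻¹ =
            (a₀ : Γ) * b Y * (a₀ : Γ)⁻¹ * (b Y)⁻¹ := congrArg Subtype.val h2
          have h4 := mul_right_cancel h3
          change (a₀ : Γ)⁻¹ * ((a : B) : Γ) * b Y = b Y * ((a₀ : Γ)⁻¹ * ((a : B) : Γ))
          calc (a₀ : Γ)⁻¹ * ((a : B) : Γ) * b Y
              = (a₀ : Γ)⁻¹ * (((a : B) : Γ) * b Y * ((a : B) : Γ)⁻¹) * ((a : B) : Γ) := by group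
            _ = b Y * ((a₀ : Γ)⁻¹ * ((a : B) : Γ)) := by rw [h4]; group
        have h5 : ∀ Z ∈ SS hol B, hat (hol ((a₀ : Γ)⁻¹ * ((a : B) : Γ))) * Z =
            Z * hat (hol ((a₀ : Γ)⁻¹ * ((a : B) : Γ))) := by
          intro Z hZ
          have hZ' : Z ∈ Submodule.span ℝ (s : Set (AA E)) := by
            rw [← hspan]
            exact hZ
          refine Submodule.span_induction (p := fun Z _ =>
            hat (hol ((a₀ : Γ)⁻¹ * ((a : B) : Γ))) * Z =
            Z * hat (hol ((a₀ : Γ)⁻¹ * ((a : B) : Γ)))) ?_ ?_ ?_ ?_ hZ'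
          · intro Y hY
            have h6 : hat (hol (b ⟨Y, hY⟩)) = Y := hbs ⟨Y, hY⟩
            rw [← h6, ← map_mul, ← map_mul, ← map_mul, ← map_mul, (h1 ⟨Y, hY⟩).eq]
          · rw [mul_zero, zero_mul]
          · intro Y Z _ _ h6 h7
            rw [mul_add, add_mul, h6, h7]
          · intro r Y _ h6
            rw [mul_smul_comm, smul_mul_assoc, h6]
        rw [Subgroup.mem_centralizer_iff]
        intro c hc
        have h6 := h5 _ (SS_hat hol B hc)
        apply hinj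
        apply hat_inj
        rw [map_mul, map_mul, map_mul hol ((a₀ : Γ)⁻¹ * ((a : B) : Γ)) c,
          map_mul hat (hol ((a₀ : Γ)⁻¹ * ((a : B) : Γ))) (hol c)]
        exact h6.symm
      refine Infinite.of_injective (fun a : f ⁻¹' {y} =>
        (⟨(a₀ : Γ)⁻¹ * ((a : B) : Γ), B.mul_mem (B.inv_mem a₀.2) (a : B).2, hcent a⟩ :
          (B ⊓ Subgroup.centralizer (B : Set Γ) : Subgroup Γ))) ?_
      intro a c hac
      have h1 : (a₀ : Γ)⁻¹ * ((a : B) : Γ) = (a₀ : Γ)⁻¹ * ((c : B) : Γ) := congrArg Subtype.val hac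
      exact Subtype.ext (Subtype.ext (mul_left_cancel h1))
    · intro a ha b hb
      exact (Subgroup.mem_centralizer_iff.1 hb.2 a ha.1)

end Run7.h262.EC
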