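import Pool.Agent.Run7.h262.EC.Ray
import Pool.Agent.Run7.h262.EC.Slv

/-!
The Euler characteristic vanishes if there is an equivariant atlas of flow boxes.
-/

set_option autoImplicit false
set_option linter.unusedSectionVars false

open Filter Topology Module

namespace Run7.h262.EC

open Run7.h262.SV Run7.h262.TB

variable {Γ E : Type} [Group Γ] [NormedAddCommGroup E] [NormedSpace ℝ E] [FiniteDimensional ℝ E]
  {hol : Γ →* (E ≃ᵃ[ℝ] E)} {Ω D : Set E}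

/-- flow boxes: compact polyhedra with constant vector fields which are compatible on overlaps -/
structure Atlas (hol : Γ →* (E ≃ᵃ[ℝ] E)) (Ω : Set E) {r : ℕ} (B : Fin r → Set E) (v : Fin r → E) :
    Prop where
  con : ∀ c, Con fun x => x ∈ B c
  cpt : ∀ c, IsCompact (B c)
  sub : ∀ c, B c ⊆ Ω
  ne : ∀ c, v c ≠ 0
  cover : ∀ x ∈ Ω, ∃ (γ : Γ) (c : Fin r), hol γ x ∈ B c
  disj : ∀ γ c x, x ∈ B c → hol γ x ∈ B c → γ = 1
  indep : ∀ x ∈ Ω, ∀ γ c δ k η j, hol γ x ∈ B c → hol δ x ∈ B k → hol η x ∈ B j →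
    Ry ((hol γ⁻¹).linear (v c)) (fun y => hol η y ∈ B j) x →
    Ry ((hol δ⁻¹).linear (v k)) (fun y => hol η y ∈ B j) x

theorem hol_ray (γ : Γ) (x w : E) (t : ℝ) :
    hol γ (x + t • w) = hol γ x + t • (hol γ).linear w := by
  rw [aff_apply (hol γ) (x + t • w), aff_apply (hol γ) x, map_add, map_smul]
  abel

theorem ray_tendsto (x w : E) : Tendsto (fun t : ℝ => x + t • w) (𝓝[>] 0) (𝓝 x) := by
  have h1 : Continuous fun t : ℝ => x + t • w := by fun_prop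
  have h2 := h1.tendsto 0
  simp only [zero_smul, add_zero] at h2
  exact h2.mono_left nhdsWithin_le_nhds

theorem ray_closed {S : Set E} (hS : IsClosed S) {w x : E} (h : Ry w (fun y => y ∈ S) x) :
    x ∈ S := hS.mem_of_tendsto (ray_tendsto x w) h

/-- the vanishing theorem for atlases of flow boxes -/
theorem chi_atlas (h : AffAct Γ E hol Ω) {r : ℕ} {B : Fin r → Set E} {v : Fin r → E}
    (hB : Atlas hol Ω B v) (hD : Fund hol Ω D) : chi D = 0 := by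
  classical
  set K' : Set E := ⋃ c, B c with hK'
  have hK'c : IsCompact K' := isCompact_iUnion hB.cpt
  have hK'Ω : K' ⊆ Ω := Set.iUnion_subset hB.sub
  have hF := h.pd K' hK'c hK'Ω
  set F := {γ : Γ | ∃ x ∈ K', hol γ x ∈ K'} with hFdef
  have hFf : Finite F := hF.to_subtype
  have hBK : ∀ c, B c ⊆ K' := fun c => Set.subset_iUnion B c
  have hinF : ∀ (γ : Γ) (x : E) (c k : Fin r), x ∈ B c → hol γ x ∈ B k → γ ∈ F := fun γ x c k h1 h2 =>
    ⟨x, hBK c h1, hBK k h2⟩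
  have hcl : ∀ (γ : Γ) (c : Fin r), IsClosed {y | hol γ y ∈ B c} := fun γ c =>
    (hB.cpt c).isClosed.preimage (SV.hol_cont γ)
  have hconB : ∀ (γ : Γ) (c : Fin r), Con fun y => hol γ y ∈ B c := fun γ c =>
    (hB.con c).comp ((hol γ : E ≃ᵃ[ℝ] E) : E →ᵃ[ℝ] E)
  let Q : Fin r → E → Prop := fun c x => x ∈ B c ∧ ∀ k : {k // k < c}, ∀ η : F, hol (η : Γ) x ∉ B k
  have hQ : ∀ c, Con (Q c) := fun c => (hB.con c).and (Con.all fun k => Con.all fun η =>
    (hconB η k).map Not)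
  let R : Fin r → Set E := fun c => {x | Ry (v c) (Q c) x}
  have hR : ∀ c, Con fun x => x ∈ R c := fun c => ray_con (hQ c) (v c)
  have hR0 : ∀ c, chi (R c) = 0 := by
    intro c
    refine chi_ray (hQ c) ?_ (hB.ne c)
    exact (hB.cpt c).isBounded.subset fun x hx => hx.1
  have hRB : ∀ c, R c ⊆ B c := by
    intro c x hx
    refine ray_closed (hB.cpt c).isClosed (w := v c) ?_
    have hx' : ∀ᶠ t : ℝ in 𝓝[>] 0, Q c (x + t • v c) := hx
    change ∀ᶠ t : ℝ in 𝓝[>] 0, x + t • v c ∈ B c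
    filter_upwards [hx'] with t ht
    exact ht.1
  -- membership in terms of rays at the point itself
  have hRiff : ∀ (γ : Γ) (c : Fin r) (x : E), hol γ x ∈ R c ↔
      ∀ᶠ t : ℝ in 𝓝[>] 0, Q c (hol γ (x + t • (hol γ⁻¹).linear (v c))) := by
    intro γ c x
    change (∀ᶠ t : ℝ in 𝓝[>] 0, Q c (hol γ x + t • v c)) ↔ _
    refine eventually_congr (Filter.Eventually.of_forall fun t => ?_)
    rw [hol_ray, SV.lin_inv']
  -- the unique chart
  have huni : ∀ x ∈ Ω, ∀ γ c δ k, hol γ x ∈ R c → hol δ x ∈ R k → c = k ∧ γ = δ := by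
    have hlt : ∀ x ∈ Ω, ∀ γ c δ k, hol γ x ∈ R c → hol δ x ∈ R k → ¬k < c := by
      intro x hx γ c δ k h1 h2 hkc
      have e1 := (hRiff γ c x).1 h1
      have e2 := (hRiff δ k x).1 h2
      have h3 : Ry ((hol δ⁻¹).linear (v k)) (fun y => hol δ y ∈ B k) x := by
        change ∀ᶠ t : ℝ in 𝓝[>] 0, _
        filter_upwards [e2] with t ht
        exact ht.1
      have h4 := hB.indep x hx δ k γ c δ k (hRB k h2) (hRB c h1) (hRB k h2) h3
      have h4' : ∀ᶠ t : ℝ in 𝓝[>] 0, hol δ (x + t • (hol γ⁻¹).linear (v c)) ∈ B k := h4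
      obtain ⟨t, h5, h6⟩ := (e1.and h4').exists
      set y := x + t • (hol γ⁻¹).linear (v c)
      have e3 : hol (δ * γ⁻¹) (hol γ y) = hol δ y := by
        rw [← hol_mul, inv_mul_cancel_right]
      refine h5.2 ⟨k, hkc⟩ ⟨δ * γ⁻¹, hinF _ (hol γ y) c k h5.1 (by rw [e3]; exact h6)⟩ ?_
      change hol (δ * γ⁻¹) (hol γ y) ∈ B k
      rw [e3]
      exact h6
    intro x hx γ c δ k h1 h2
    have hck : c = k := le_antisymm (not_lt.1 (hlt x hx γ c δ k h1 h2))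
      (not_lt.1 (hlt x hx δ k γ c h2 h1))
    subst hck
    refine ⟨rfl, ?_⟩
    have h3 := hB.disj (δ * γ⁻¹) c (hol γ x) (hRB c h1) (by
      rw [← hol_mul, inv_mul_cancel_right]
      exact hRB c h2)
    exact (mul_inv_eq_one.1 h3).symm
  have hex : ∀ x ∈ Ω, ∃ γ c, hol γ x ∈ R c := by
    intro x hx
    obtain ⟨δ, k, hδ⟩ := hB.cover x hx
    set w := (hol δ⁻¹).linear (v k) with hw
    obtain ⟨N, hN, hxN, hNΩ⟩ := exists_compact_subset h.isOpen hx
    have hG := h.pd (N ∪ K') (hN.union hK'c) (Set.union_subset hNΩ hK'Ω)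
    set G := {γ : Γ | ∃ x ∈ N ∪ K', hol γ x ∈ N ∪ K'} with hGdef
    have h1 : ∀ᶠ t : ℝ in 𝓝[>] 0, x + t • w ∈ N :=
      (ray_tendsto x w).eventually (mem_interior_iff_mem_nhds.1 hxN)
    have h2 : ∃ c, ∃ γ, Ry w (fun y => hol γ y ∈ B c) x := by
      by_contra hcon
      push Not at hcon
      have h3 : ∀ c γ, Ry w (fun y => ¬hol γ y ∈ B c) x := fun c γ =>
        (ray_em (hconB γ c) w x).resolve_left (hcon c γ)
      have h4 : ∀ᶠ t : ℝ in 𝓝[>] 0, ∀ γ ∈ hG.toFinset, ∀ c, hol γ (x + t • w) ∉ B c :=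
        (Filter.eventually_all_finset _).2 fun γ _ => Filter.eventually_all.2 fun c => h3 c γ
      obtain ⟨t, h5, h6⟩ := (h1.and h4).exists
      obtain ⟨γ, c, h7⟩ := hB.cover _ (hNΩ h5)
      exact h6 γ (hG.mem_toFinset.2 ⟨_, Or.inl h5, Or.inr (hBK c h7)⟩) c h7
    obtain ⟨c, hc, hmin⟩ : ∃ c, (∃ γ, Ry w (fun y => hol γ y ∈ B c) x) ∧
        ∀ c' < c, ¬∃ γ, Ry w (fun y => hol γ y ∈ B c') x := by
      obtain ⟨c, hc⟩ := h2
      obtain ⟨c', hc', hm⟩ := WellFounded.has_min (wellFounded_lt (α := Fin r))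
        {c | ∃ γ, Ry w (fun y => hol γ y ∈ B c) x} ⟨c, hc⟩
      exact ⟨c', hc', fun c'' hlt h => hm c'' h hlt⟩
    obtain ⟨γ, hγ⟩ := hc
    have hγx : hol γ x ∈ B c := ray_closed (hcl γ c) hγ
    refine ⟨γ, c, (hRiff γ c x).2 ?_⟩
    have h3 : Ry ((hol γ⁻¹).linear (v c)) (fun y => hol γ y ∈ B c) x :=
      hB.indep x hx δ k γ c γ c hδ hγx hγx hγ
    have h4 : ∀ k' : {k' // k' < c}, ∀ η : F,
        Ry ((hol γ⁻¹).linear (v c)) (fun y => ¬hol (η * γ) y ∈ B k') x := by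
      intro k' η
      refine (ray_em (hconB (η * γ) k') _ x).resolve_left fun h5 => ?_
      have h6 : hol (η * γ) x ∈ B k' := ray_closed (hcl _ _) h5
      exact hmin k' k'.2 ⟨η * γ, hB.indep x hx γ c δ k (η * γ) k' hγx hδ h6 h5⟩
    have h5 : ∀ᶠ t : ℝ in 𝓝[>] 0, ∀ k' : {k' // k' < c}, ∀ η : F,
        ¬hol (η * γ) (x + t • (hol γ⁻¹).linear (v c)) ∈ B k' :=
      Filter.eventually_all.2 fun k' => Filter.eventually_all.2 fun η => h4 k' η
    have h3' : ∀ᶠ t : ℝ in 𝓝[>] 0, hol γ (x + t • (hol γ⁻¹).linear (v c)) ∈ B c := h3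
    filter_upwards [h3', h5] with t ht1 ht2
    refine ⟨ht1, fun k' η => ?_⟩
    rw [← hol_mul]
    exact ht2 k' η
  -- the count
  have hDΩ : D ⊆ Ω := subset_closure.trans hD.sub
  have hG := h.pd (closure D ∪ K') (hD.cpt.union hK'c) (Set.union_subset hD.sub hK'Ω)
  set G := {γ : Γ | ∃ x ∈ closure D ∪ K', hol γ x ∈ closure D ∪ K'} with hGdef
  have e1 : chi D = ∑ p ∈ hG.toFinset ×ˢ (Finset.univ : Finset (Fin r)),
      chi {x | x ∈ D ∧ hol p.1 x ∈ R p.2} := by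
    refine chi_union (hG.toFinset ×ˢ (Finset.univ : Finset (Fin r)))
      (fun p : Γ × Fin r => {x | x ∈ D ∧ hol p.1 x ∈ R p.2}) D (fun p _ => ?_) (fun x => ?_) ?_
    · exact hD.con.and ((hR p.2).comp ((hol p.1 : E ≃ᵃ[ℝ] E) : E →ᵃ[ℝ] E))
    · constructor
      · intro hx
        obtain ⟨γ, c, h1⟩ := hex x (hDΩ hx)
        refine ⟨(γ, c), ?_, hx, h1⟩
        rw [Finset.mem_product, Set.Finite.mem_toFinset]
        exact ⟨⟨x, Or.inl (subset_closure hx), Or.inr (hBK c (hRB c h1))⟩, Finset.mem_univ _⟩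
      · rintro ⟨p, -, hx⟩
        exact hx.1
    · rintro ⟨γ, c⟩ - ⟨δ, k⟩ - x h1 h2
      obtain ⟨h3, h4⟩ := huni x (hDΩ h1.1) γ c δ k h1.2 h2.2
      rw [h3, h4]
  have e2 : ∀ γ c, chi {x | x ∈ D ∧ hol γ x ∈ R c} = chi {y | y ∈ R c ∧ hol γ⁻¹ y ∈ D} := by
    intro γ c
    have h1 := chi_image (S := {x | x ∈ D ∧ hol γ x ∈ R c})
      (hD.con.and ((hR c).comp ((hol γ : E ≃ᵃ[ℝ] E) : E →ᵃ[ℝ] E))) (hol γ)
    rw [← h1]
    congr 1
    ext y
    constructor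
    · rintro ⟨x, hx, rfl⟩
      refine ⟨hx.2, ?_⟩
      rw [hol_inv]
      exact hx.1
    · rintro ⟨h2, h3⟩
      refine ⟨hol γ⁻¹ y, ⟨h3, ?_⟩, hol_inv' γ y⟩
      rw [hol_inv']
      exact h2
  have e3 : ∀ c, chi (R c) = ∑ γ ∈ hG.toFinset, chi {y | y ∈ R c ∧ hol γ⁻¹ y ∈ D} := by
    intro c
    refine chi_union hG.toFinset (fun γ : Γ => {y | y ∈ R c ∧ hol γ⁻¹ y ∈ D}) (R c) (fun γ _ => ?_)
      (fun y => ?_) ?_
    · exact (hR c).and (hD.con.comp ((hol γ⁻¹ : E ≃ᵃ[ℝ] E) : E →ᵃ[ℝ] E))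
    · constructor
      · intro hy
        obtain ⟨δ, hδ, -⟩ := hD.one y (hB.sub c (hRB c hy))
        refine ⟨δ⁻¹, ?_, hy, ?_⟩
        · rw [Set.Finite.mem_toFinset]
          refine ⟨hol δ y, Or.inl (subset_closure hδ), Or.inr ?_⟩
          rw [hol_inv]
          exact hBK c (hRB c hy)
        · rw [inv_inv]
          exact hδ
      · rintro ⟨γ, -, hy⟩
        exact hy.1
    · intro γ _ δ _ y h1 h2
      have h3 := (hD.one y (hB.sub c (hRB c h1.1))).unique h1.2 h2.2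
      exact inv_injective h3
  rw [e1, Finset.sum_product_right]
  refine Finset.sum_eq_zero fun c _ => ?_
  rw [Finset.sum_congr rfl fun γ _ => e2 γ c, ← e3 c]
  exact hR0 c

end Run7.h262.EC
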