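import Mathlib

/-!
Euler characteristic of polyhedral sets: alternating sums over the cells of an arrangement of
affine functions.
-/

set_option autoImplicit false
set_option linter.unusedSectionVars false

open Filter Topology Module

namespace Run7.h262.EC

variable {E : Type} [NormedAddCommGroup E] [NormedSpace ℝ E] [FiniteDimensional ℝ E]

/-- the signs of the functions of an arrangement -/
noncomputable def sv {ι : Type} (A : ι → (E →ᵃ[ℝ] ℝ)) (x : E) : ι → SignType := fun i => SignType.sign (A i x)

/-- the direction of a cell -/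
def dr {ι : Type} (A : ι → (E →ᵃ[ℝ] ℝ)) (s : ι → SignType) : Submodule ℝ E where
  carrier := {v | ∀ i, s i = 0 → (A i).linear v = 0}
  add_mem' := fun {v w} hv hw i hi => by rw [map_add, hv i hi, hw i hi, add_zero]
  zero_mem' := fun i _ => map_zero _
  smul_mem' := fun c v hv i hi => by rw [map_smul, hv i hi, smul_zero]

theorem mem_dr {ι : Type} {A : ι → (E →ᵃ[ℝ] ℝ)} {s : ι → SignType} {v : E} :
    v ∈ dr A s ↔ ∀ i, s i = 0 → (A i).linear v = 0 := Iff.rfl

/-- the function depends only on the signs -/
def Ad {ι α : Type} (A : ι → (E →ᵃ[ℝ] ℝ)) (f : E → α) : Prop := ∀ x y, sv A x = sv A y → f x = f y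

open Classical in
/-- the contribution of a cell -/
noncomputable def tm {ι : Type} (A : ι → (E →ᵃ[ℝ] ℝ)) (f : E → ℤ) (s : ι → SignType) : ℤ :=
  if h : ∃ x, sv A x = s then (-1) ^ finrank ℝ (dr A s) * f h.choose else 0

/-- the alternating sum over the cells -/
noncomputable def In {ι : Type} (A : ι → (E →ᵃ[ℝ] ℝ)) (f : E → ℤ) : ℤ := ∑ᶠ s, tm A f s

section
variable {ι κ : Type} {A : ι → (E →ᵃ[ℝ] ℝ)} {B : κ → (E →ᵃ[ℝ] ℝ)} {f : E → ℤ} {s : ι → SignType}

theorem tm_eq (hf : Ad A f) {x : E} (hx : sv A x = s) :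
    tm A f s = (-1) ^ finrank ℝ (dr A s) * f x := by
  have h : ∃ x, sv A x = s := ⟨x, hx⟩
  rw [tm, dif_pos h, hf _ x (h.choose_spec.trans hx.symm)]

theorem tm_zero (h : ¬∃ x, sv A x = s) : tm A f s = 0 := by
  rw [tm, dif_neg h]

theorem aff_add (φ : E →ᵃ[ℝ] ℝ) (x v : E) : φ (x + v) = φ x + φ.linear v := by
  have := φ.map_vadd x v
  simp only [vadd_eq_add] at this
  rw [add_comm, this, add_comm]

theorem aff_smul (φ : E →ᵃ[ℝ] ℝ) (x v : E) (t : ℝ) : φ (x + t • v) = φ x + t * φ.linear v := by
  rw [aff_add, map_smul, smul_eq_mul]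

/-- small moves in the direction of the cell stay in the cell -/
theorem sv_move [Finite ι] (x : E) {v : E} (hv : v ∈ dr A (sv A x)) :
    ∀ᶠ t : ℝ in 𝓝 0, sv A (x + t • v) = sv A x := by
  have h1 : ∀ i, ∀ᶠ t : ℝ in 𝓝 0, SignType.sign (A i (x + t • v)) = SignType.sign (A i x) := by
    intro i
    by_cases h0 : A i x = 0
    · refine Filter.Eventually.of_forall fun t => ?_
      rw [aff_smul, hv i (by change SignType.sign (A i x) = 0; rw [h0, sign_zero]), mul_zero,
        add_zero]
    · have hc : Continuous fun t : ℝ => A i (x + t • v) := by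
        have : (fun t : ℝ => A i (x + t • v)) = fun t => A i x + t * (A i).linear v :=
          funext fun t => aff_smul _ _ _ _
        rw [this]
        fun_prop
      have hc0 : Tendsto (fun t : ℝ => A i (x + t • v)) (𝓝 0) (𝓝 (A i x)) := by
        have := hc.tendsto 0
        simpa using this
      rcases lt_or_gt_of_ne h0 with h | h
      · filter_upwards [hc0.eventually (eventually_lt_nhds h)] with t ht
        rw [sign_neg ht, sign_neg h]
      · filter_upwards [hc0.eventually (eventually_gt_nhds h)] with t ht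
        rw [sign_pos ht, sign_pos h]
  filter_upwards [eventually_all.2 h1] with t ht
  exact funext ht

theorem sub_mem_dr {x y : E} (h : sv A x = sv A y) : y - x ∈ dr A (sv A x) := by
  intro i hi
  have h1 : A i x = 0 := sign_eq_zero_iff.1 hi
  have h2 : A i y = 0 := by
    have h3 : SignType.sign (A i y) = 0 := by
      have := congrFun h i
      exact this.symm.trans hi
    exact sign_eq_zero_iff.1 h3
  have h3 := aff_add (A i) x (y - x)
  rw [add_sub_cancel, h1, h2, zero_add] at h3
  exact h3.symm

/-- between points of different signs there is a zero in the cell -/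
theorem sv_between {x y : E} (h : sv A x = sv A y) (φ : E →ᵃ[ℝ] ℝ) (hx : 0 < φ x) (hy : φ y < 0) :
    ∃ z, sv A z = sv A x ∧ φ z = 0 := by
  set t : ℝ := φ x / (φ x - φ y) with ht
  have hd : 0 < φ x - φ y := by linarith
  have ht0 : 0 < t := div_pos hx hd
  have ht1 : t < 1 := by
    rw [ht, div_lt_one hd]
    linarith
  have key : ∀ ψ : E →ᵃ[ℝ] ℝ, ψ (x + t • (y - x)) = (1 - t) * ψ x + t * ψ y := by
    intro ψ
    have h3 := aff_add ψ x (y - x)
    rw [add_sub_cancel] at h3
    rw [aff_smul, h3]
    ring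
  refine ⟨x + t • (y - x), funext fun i => ?_, ?_⟩
  · have hi : SignType.sign (A i x) = SignType.sign (A i y) := congrFun h i
    change SignType.sign (A i (x + t • (y - x))) = SignType.sign (A i x)
    rw [key]
    rcases lt_trichotomy (A i x) 0 with h1 | h1 | h1
    · have h2 : A i y < 0 := by
        rw [sign_neg h1] at hi
        exact sign_eq_neg_one_iff.1 hi.symm
      rw [sign_neg h1]
      refine sign_neg ?_
      nlinarith
    · have h2 : A i y = 0 := by
        rw [h1, sign_zero] at hi
        exact sign_eq_zero_iff.1 hi.symm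
      rw [h1, h2]
      simp
    · have h2 : 0 < A i y := by
        rw [sign_pos h1] at hi
        exact sign_eq_one_iff.1 hi.symm
      rw [sign_pos h1]
      refine sign_pos ?_
      nlinarith
  · rw [key, ht]
    field_simp
    ring

/-- the arrangement with one more function -/
def ext (φ : E →ᵃ[ℝ] ℝ) (A : ι → (E →ᵃ[ℝ] ℝ)) : Option ι → (E →ᵃ[ℝ] ℝ) := fun o => o.elim φ A

/-- the sign vector with one more sign -/
def exs (t : SignType) (s : ι → SignType) : Option ι → SignType := fun o => o.elim t s

theorem sv_ext (φ : E →ᵃ[ℝ] ℝ) (x : E) : sv (ext φ A) x = exs (SignType.sign (φ x)) (sv A x) := by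
  funext o
  cases o <;> rfl

theorem exs_inj {t t' : SignType} {s s' : ι → SignType} (h : exs t s = exs t' s') :
    t = t' ∧ s = s' :=
  ⟨congrFun h none, funext fun i => congrFun h (some i)⟩

theorem Ad.ext (hf : Ad A f) (φ : E →ᵃ[ℝ] ℝ) : Ad (ext φ A) f := by
  intro x y h
  rw [sv_ext, sv_ext] at h
  exact hf x y (exs_inj h).2

theorem step [Finite ι] (φ : E →ᵃ[ℝ] ℝ) (hf : Ad A f) (s : ι → SignType) :
    ∑ t : SignType, tm (ext φ A) f (exs t s) = tm A f s := by
  by_cases hs : ∃ x, sv A x = s
  swap
  · rw [tm_zero hs]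
    refine Finset.sum_eq_zero fun t _ => tm_zero ?_
    rintro ⟨x, hx⟩
    rw [sv_ext] at hx
    exact hs ⟨x, (exs_inj hx).2⟩
  obtain ⟨x₀, hx₀⟩ := hs
  have hf' := hf.ext φ
  have hdr : ∀ t : SignType, t ≠ 0 → dr (ext φ A) (exs t s) = dr A s := by
    intro t ht
    ext v
    rw [mem_dr, mem_dr]
    constructor
    · intro h i hi
      exact h (some i) hi
    · rintro h (_ | i) hi
      · exact absurd hi ht
      · exact h i hi
  have hdr0 : ∀ v, v ∈ dr (ext φ A) (exs 0 s) ↔ v ∈ dr A s ∧ φ.linear v = 0 := by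
    intro v
    rw [mem_dr, mem_dr]
    constructor
    · intro h
      exact ⟨fun i hi => h (some i) hi, h none rfl⟩
    · rintro ⟨h1, h2⟩ (_ | i) hi
      · exact h2
      · exact h1 i hi
  by_cases H : ∃ x, sv A x = s ∧ φ x = 0 ∧ ∃ v ∈ dr A s, φ.linear v ≠ 0
  · obtain ⟨x₁, hx₁, hφ, v, hv, hv0⟩ := H
    obtain ⟨w, hw, hw0⟩ : ∃ w ∈ dr A s, 0 < φ.linear w := by
      rcases lt_or_gt_of_ne hv0 with h | h
      · exact ⟨-v, Submodule.neg_mem _ hv, by rw [map_neg]; linarith⟩
      · exact ⟨v, hv, h⟩
    have hmv := sv_move (A := A) x₁ (v := w) (by rwa [hx₁])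
    rw [hx₁] at hmv
    obtain ⟨ε, hε, hball⟩ := Metric.eventually_nhds_iff.1 hmv
    have hp : sv (ext φ A) (x₁ + (ε / 2) • w) = exs 1 s := by
      rw [sv_ext, hball (by rw [dist_zero_right, Real.norm_of_nonneg (by positivity)]; linarith),
        aff_smul, hφ, zero_add, sign_pos (by positivity)]
    have hn : sv (ext φ A) (x₁ + (-(ε / 2)) • w) = exs (-1) s := by
      rw [sv_ext, hball (by
          rw [dist_zero_right, norm_neg, Real.norm_of_nonneg (by positivity)]; linarith),
        aff_smul, hφ, zero_add, sign_neg (by nlinarith)]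
    have h0 : sv (ext φ A) x₁ = exs 0 s := by
      rw [sv_ext, hφ, sign_zero, hx₁]
    have hdim : finrank ℝ (dr (ext φ A) (exs 0 s)) + 1 = finrank ℝ (dr A s) := by
      let ψ : dr A s →ₗ[ℝ] ℝ := φ.linear.comp (dr A s).subtype
      have h1 := ψ.finrank_range_add_finrank_ker
      have h2 : LinearMap.range ψ = ⊤ := by
        rw [LinearMap.range_eq_top]
        intro c
        refine ⟨(c / φ.linear w) • ⟨w, hw⟩, ?_⟩
        rw [map_smul]
        change (c / φ.linear w) * φ.linear w = c
        field_simp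
      have h3 : finrank ℝ (LinearMap.ker ψ) = finrank ℝ (dr (ext φ A) (exs 0 s)) := by
        have h4 : (LinearMap.ker ψ).map (dr A s).subtype = dr (ext φ A) (exs 0 s) := by
          ext u
          rw [hdr0]
          constructor
          · rintro ⟨u, hu, rfl⟩
            exact ⟨u.2, hu⟩
          · rintro ⟨h5, h6⟩
            exact ⟨⟨u, h5⟩, h6, rfl⟩
        rw [← h4]
        exact (LinearEquiv.finrank_eq (Submodule.equivMapOfInjective _
          (dr A s).injective_subtype _))
      rw [h2, finrank_top, finrank_self, h3] at h1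
      omega
    have hfp : f (x₁ + (ε / 2) • w) = f x₁ := hf _ _ (by
      rw [hx₁]
      rw [sv_ext] at hp
      exact (exs_inj hp).2)
    have hfn : f (x₁ + (-(ε / 2)) • w) = f x₁ := hf _ _ (by
      rw [hx₁]
      rw [sv_ext] at hn
      exact (exs_inj hn).2)
    rw [SignType.univ_eq, Finset.sum_insert (by decide), Finset.sum_insert (by decide),
      Finset.sum_singleton, tm_eq hf' h0, tm_eq hf' hn, tm_eq hf' hp, tm_eq hf hx₁, hfp, hfn,
      hdr 1 (by decide), hdr (-1) (by decide), ← hdim]
    ring
  · push Not at H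
    set t₀ := SignType.sign (φ x₀) with ht₀
    have hall : ∀ x, sv A x = s → SignType.sign (φ x) = t₀ := by
      intro x hx
      have hzero : ∀ z, sv A z = s → φ z = 0 → ∀ y, sv A y = s → φ y = 0 := by
        intro z hz hz0 y hy
        have h1 := H z hz hz0 (y - z) (by
          rw [← hz]
          exact sub_mem_dr (hz.trans hy.symm))
        have h2 := aff_add φ z (y - z)
        rw [add_sub_cancel, hz0, h1, add_zero] at h2
        exact h2
      rcases lt_trichotomy (φ x) 0 with h1 | h1 | h1
      · rcases lt_trichotomy (φ x₀) 0 with h2 | h2 | h2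
        · rw [ht₀, sign_neg h1, sign_neg h2]
        · rw [hzero x₀ hx₀ h2 x hx] at h1
          exact absurd h1 (lt_irrefl _)
        · obtain ⟨z, hz, hz0⟩ := sv_between (A := A) (hx₀.trans hx.symm) φ h2 h1
          rw [hzero z (hz.trans hx₀) hz0 x hx] at h1
          exact absurd h1 (lt_irrefl _)
      · rw [ht₀, h1, hzero x hx h1 x₀ hx₀]
      · rcases lt_trichotomy (φ x₀) 0 with h2 | h2 | h2
        · obtain ⟨z, hz, hz0⟩ := sv_between (A := A) (hx.trans hx₀.symm) φ h1 h2
          rw [hzero z (hz.trans hx) hz0 x hx] at h1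
          exact absurd h1 (lt_irrefl _)
        · rw [hzero x₀ hx₀ h2 x hx] at h1
          exact absurd h1 (lt_irrefl _)
        · rw [ht₀, sign_pos h1, sign_pos h2]
    have hd : dr (ext φ A) (exs t₀ s) = dr A s := by
      by_cases h0 : t₀ = 0
      · rw [h0]
        ext v
        rw [hdr0]
        refine ⟨fun h => h.1, fun h => ⟨h, H x₀ hx₀ (sign_eq_zero_iff.1 (ht₀ ▸ h0)) v h⟩⟩
      · exact hdr t₀ h0
    rw [Finset.sum_eq_single t₀, tm_eq hf' (show sv (ext φ A) x₀ = exs t₀ s by
      rw [sv_ext, hx₀]), tm_eq hf hx₀, hd]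
    · intro t _ ht
      refine tm_zero ?_
      rintro ⟨x, hx⟩
      rw [sv_ext] at hx
      obtain ⟨h1, h2⟩ := exs_inj hx
      exact ht (h1.symm.trans (hall x h2))
    · intro h
      exact absurd (Finset.mem_univ _) h

theorem In_ext [Finite ι] (φ : E →ᵃ[ℝ] ℝ) (hf : Ad A f) : In (ext φ A) f = In A f := by
  classical
  have := Fintype.ofFinite ι
  let e : (SignType × (ι → SignType)) ≃ (Option ι → SignType) :=
    { toFun := fun p => exs p.1 p.2
      invFun := fun s => (s none, fun i => s (some i))
      left_inv := fun p => rfl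
      right_inv := fun s => by
        funext o
        cases o <;> rfl }
  have h1 : In (ext φ A) f = ∑ p : SignType × (ι → SignType), tm (ext φ A) f (exs p.1 p.2) := by
    rw [In, ← finsum_comp_equiv e, finsum_eq_sum_of_fintype]
    rfl
  rw [h1, Fintype.sum_prod_type_right, In, finsum_eq_sum_of_fintype]
  exact Finset.sum_congr rfl fun s _ => step φ hf s

theorem In_equiv {ι' : Type} (hf : Ad A f) (e : ι' ≃ ι) : In (fun i => A (e i)) f = In A f := by
  have h1 : ∀ s : ι → SignType, tm (fun i => A (e i)) f (fun i => s (e i)) = tm A f s := by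
    intro s
    have hsv : ∀ x, sv (fun i => A (e i)) x = (fun i => s (e i)) ↔ sv A x = s := by
      intro x
      constructor
      · intro h
        funext i
        have := congrFun h (e.symm i)
        simp only [sv, Equiv.apply_symm_apply] at this
        exact this
      · intro h
        funext i
        exact congrFun h (e i)
    have hdr : dr (fun i => A (e i)) (fun i => s (e i)) = dr A s := by
      ext v
      rw [mem_dr, mem_dr]
      constructor
      · intro h i hi
        have := h (e.symm i)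
        simp only [Equiv.apply_symm_apply] at this
        exact this hi
      · intro h i hi
        exact h (e i) hi
    by_cases h : ∃ x, sv A x = s
    · obtain ⟨x, hx⟩ := h
      have hf' : Ad (fun i => A (e i)) f := by
        intro x y hxy
        refine hf x y (funext fun i => ?_)
        have := congrFun hxy (e.symm i)
        simp only [sv, Equiv.apply_symm_apply] at this
        exact this
      rw [tm_eq hf hx, tm_eq hf' ((hsv x).2 hx), hdr]
    · rw [tm_zero h, tm_zero]
      rintro ⟨x, hx⟩
      exact h ⟨x, (hsv x).1 hx⟩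
  let E' : (ι → SignType) ≃ (ι' → SignType) := e.symm.arrowCongr (Equiv.refl _)
  rw [In, ← finsum_comp_equiv E', In]
  refine finsum_congr fun s => ?_
  rw [← h1 s]
  rfl

/-- the joint arrangement -/
def jn (A : ι → (E →ᵃ[ℝ] ℝ)) (B : κ → (E →ᵃ[ℝ] ℝ)) : ι ⊕ κ → (E →ᵃ[ℝ] ℝ) := Sum.elim A B

theorem sv_jn_left {x y : E} (h : sv (jn A B) x = sv (jn A B) y) : sv A x = sv A y :=
  funext fun i => congrFun h (Sum.inl i)

theorem sv_jn_right {x y : E} (h : sv (jn A B) x = sv (jn A B) y) : sv B x = sv B y :=
  funext fun i => congrFun h (Sum.inr i)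

end

theorem In_jn {ι κ : Type} [Finite ι] [Finite κ] {A : ι → (E →ᵃ[ℝ] ℝ)} {f : E → ℤ} (hf : Ad A f)
    (B : κ → (E →ᵃ[ℝ] ℝ)) : In (jn A B) f = In A f := by
  have hj : ∀ {κ : Type} (B : κ → (E →ᵃ[ℝ] ℝ)), Ad (jn A B) f := fun B x y h =>
    hf x y (sv_jn_left h)
  have key : ∀ (κ : Type) [Finite κ], ∀ B : κ → (E →ᵃ[ℝ] ℝ), In (jn A B) f = In A f := by
    intro κ _
    induction κ using Finite.induction_empty_option with
    | of_equiv e ih =>
      intro B
      rw [← ih fun k => B (e k), ← In_equiv (A := jn A B) (hj B) (Equiv.sumCongr (Equiv.refl ι) e)]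
      congr 1
      funext i
      rcases i with i | i <;> rfl
    | h_empty =>
      intro B
      rw [← In_equiv (A := jn A B) (hj B) (Equiv.sumEmpty ι PEmpty).symm]
      congr 1
    | h_option ih =>
      intro B
      rename_i κ' _
      rw [← ih fun k => B (some k)]
      rw [← In_ext (A := jn A fun k => B (some k)) (B none) fun x y h => hf x y (sv_jn_left h)]
      let e : Option (ι ⊕ κ') ≃ ι ⊕ Option κ' :=
        { toFun := fun o => o.elim (Sum.inr none) (Sum.elim Sum.inl fun k => Sum.inr (some k))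
          invFun := Sum.elim (fun i => some (Sum.inl i)) fun o => o.elim none fun k => some (Sum.inr k)
          left_inv := by rintro (_ | _ | _) <;> rfl
          right_inv := by rintro (_ | _ | _) <;> rfl }
      rw [← In_equiv (A := jn A B) (hj B) e]
      congr 1
      funext o
      rcases o with _ | _ | _ <;> rfl
  exact key κ B

theorem In_eq {ι κ : Type} [Finite ι] [Finite κ] {A : ι → (E →ᵃ[ℝ] ℝ)} {B : κ → (E →ᵃ[ℝ] ℝ)}
    {f : E → ℤ} (hA : Ad A f) (hB : Ad B f) : In A f = In B f := by
  rw [← In_jn hA B, ← In_jn hB A, ← In_equiv (A := jn B A) (fun x y h => hB x y (sv_jn_left h))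
    (Equiv.sumComm ι κ)]
  congr 1
  funext i
  rcases i with i | i <;> rfl

end Run7.h262.EC
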