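import Pool.Agent.Run7.h262.EC.Cells

/-!
Constructible functions and their integral with respect to the Euler characteristic.
-/

set_option autoImplicit false
set_option linter.unusedSectionVars false

open Filter Topology Module

namespace Run7.h262.EC

variable {E : Type} [NormedAddCommGroup E] [NormedSpace ℝ E] [FiniteDimensional ℝ E]

/-- constructible functions: they depend only on the signs of finitely many affine functions -/
def Con {α : Type} (f : E → α) : Prop := ∃ (m : ℕ) (A : Fin m → (E →ᵃ[ℝ] ℝ)), Ad A f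

section
variable {ι α β : Type}

theorem Con.of [Finite ι] {A : ι → (E →ᵃ[ℝ] ℝ)} {f : E → α} (h : Ad A f) : Con f := by
  obtain ⟨m, ⟨e⟩⟩ := Finite.exists_equiv_fin ι
  refine ⟨m, fun i => A (e.symm i), fun x y hxy => h x y (funext fun i => ?_)⟩
  have := congrFun hxy (e i)
  simp only [sv, Equiv.symm_apply_apply] at this
  exact this

theorem Con.map {f : E → α} (hf : Con f) (g : α → β) : Con fun x => g (f x) := by
  obtain ⟨m, A, h⟩ := hf
  exact ⟨m, A, fun x y hxy => congrArg g (h x y hxy)⟩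

theorem Con.pi [Finite ι] {f : ι → E → α} (hf : ∀ i, Con (f i)) : Con fun x i => f i x := by
  choose m A h using hf
  refine Con.of (ι := Σ i, Fin (m i)) (A := fun p => A p.1 p.2) fun x y hxy => funext fun i => ?_
  exact h i x y (funext fun j => congrFun hxy ⟨i, j⟩)

theorem Con.prod {f : E → α} {g : E → β} (hf : Con f) (hg : Con g) : Con fun x => (f x, g x) := by
  obtain ⟨m, A, h⟩ := hf
  obtain ⟨n, B, k⟩ := hg
  refine Con.of (A := jn A B) fun x y hxy => ?_
  rw [h x y (sv_jn_left hxy), k x y (sv_jn_right hxy)]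

theorem Con.comp {f : E → α} (hf : Con f) (g : E →ᵃ[ℝ] E) : Con fun x => f (g x) := by
  obtain ⟨m, A, h⟩ := hf
  exact ⟨m, fun i => (A i).comp g, fun x y hxy => h _ _ hxy⟩

theorem Con.sgn (φ : E →ᵃ[ℝ] ℝ) : Con fun x => SignType.sign (φ x) :=
  Con.of (ι := Unit) (A := fun _ => φ) fun _ _ hxy => congrFun hxy ()

theorem Con.const (c : α) : Con fun _ : E => c := ⟨0, Fin.elim0, fun _ _ _ => rfl⟩

theorem Con.and {p q : E → Prop} (hp : Con p) (hq : Con q) : Con fun x => p x ∧ q x :=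
  (hp.prod hq).map fun z => z.1 ∧ z.2

theorem Con.imp {p q : E → Prop} (hp : Con p) (hq : Con q) : Con fun x => p x → q x :=
  (hp.prod hq).map fun z => z.1 → z.2

theorem Con.all [Finite ι] {p : ι → E → Prop} (hp : ∀ i, Con (p i)) : Con fun x => ∀ i, p i x :=
  (Con.pi hp).map fun z => ∀ i, z i

theorem Con.ex [Finite ι] {p : ι → E → Prop} (hp : ∀ i, Con (p i)) : Con fun x => ∃ i, p i x :=
  (Con.pi hp).map fun z => ∃ i, z i

theorem Con.zero (φ : E →ᵃ[ℝ] ℝ) : Con fun x => φ x = 0 := by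
  have h := (Con.sgn φ).map fun s => s = 0
  have e : (fun x => SignType.sign (φ x) = 0) = fun x => φ x = 0 :=
    funext fun x => propext sign_eq_zero_iff
  rwa [e] at h

theorem Con.neg (φ : E →ᵃ[ℝ] ℝ) : Con fun x => φ x < 0 := by
  have h := (Con.sgn φ).map fun s => s = -1
  have e : (fun x => SignType.sign (φ x) = -1) = fun x => φ x < 0 :=
    funext fun x => propext sign_eq_neg_one_iff
  rwa [e] at h

theorem Con.pos (φ : E →ᵃ[ℝ] ℝ) : Con fun x => 0 < φ x := by
  have h := (Con.sgn φ).map fun s => s = 1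
  have e : (fun x => SignType.sign (φ x) = 1) = fun x => 0 < φ x :=
    funext fun x => propext sign_eq_one_iff
  rwa [e] at h

end

open Classical in
/-- the integral with respect to the Euler characteristic -/
noncomputable def EI (f : E → ℤ) : ℤ := if h : Con f then In h.choose_spec.choose f else 0

theorem EI_eq {ι : Type} [Finite ι] {A : ι → (E →ᵃ[ℝ] ℝ)} {f : E → ℤ} (h : Ad A f) :
    EI f = In A f := by
  have h' : Con f := Con.of h
  rw [EI, dif_pos h']
  exact In_eq h'.choose_spec.choose_spec h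

theorem EI_add {f g : E → ℤ} (hf : Con f) (hg : Con g) : EI (fun x => f x + g x) = EI f + EI g := by
  obtain ⟨m, A, h⟩ := hf
  obtain ⟨n, B, k⟩ := hg
  have h1 : Ad (jn A B) f := fun x y hxy => h x y (sv_jn_left hxy)
  have h2 : Ad (jn A B) g := fun x y hxy => k x y (sv_jn_right hxy)
  have h3 : Ad (jn A B) fun x => f x + g x := fun x y hxy => by
    simp only [h1 x y hxy, h2 x y hxy]
  rw [EI_eq h1, EI_eq h2, EI_eq h3, In, In, In, ← finsum_add_distrib (Set.toFinite _)
    (Set.toFinite _)]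
  refine finsum_congr fun s => ?_
  by_cases hs : ∃ x, sv (jn A B) x = s
  · obtain ⟨x, hx⟩ := hs
    rw [tm_eq h1 hx, tm_eq h2 hx, tm_eq h3 hx, mul_add]
  · rw [tm_zero hs, tm_zero hs, tm_zero hs, add_zero]

theorem EI_zero : EI (fun _ : E => 0) = 0 := by
  have h := EI_add (E := E) (f := fun _ => 0) (g := fun _ => 0) (Con.const 0) (Con.const 0)
  simp only [add_zero] at h
  linarith

theorem EI_smul {f : E → ℤ} (hf : Con f) (c : ℤ) : EI (fun x => c * f x) = c * EI f := by
  obtain ⟨m, A, h⟩ := hf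
  have h3 : Ad A fun x => c * f x := fun x y hxy => by simp only [h x y hxy]
  rw [EI_eq h, EI_eq h3, In, In, ← smul_eq_mul, smul_finsum c fun s => tm A f s]
  refine finsum_congr fun s => ?_
  by_cases hs : ∃ x, sv A x = s
  · obtain ⟨x, hx⟩ := hs
    rw [tm_eq h hx, tm_eq h3 hx, smul_eq_mul]
    ring
  · rw [tm_zero hs, tm_zero hs, smul_zero]

theorem Con.sum {ι : Type} (F : Finset ι) {f : ι → E → ℤ} (hf : ∀ i ∈ F, Con (f i)) :
    Con fun x => ∑ i ∈ F, f i x := by
  classical
  have h := (Con.pi (ι := F) (f := fun i => f i) fun i => hf i i.2).map fun z => ∑ i, z i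
  have e : (fun x => ∑ i : F, f i x) = fun x => ∑ i ∈ F, f i x := by
    funext x
    exact Finset.sum_coe_sort F fun i => f i x
  rwa [e] at h

theorem EI_sum {ι : Type} (F : Finset ι) {f : ι → E → ℤ} (hf : ∀ i ∈ F, Con (f i)) :
    EI (fun x => ∑ i ∈ F, f i x) = ∑ i ∈ F, EI (f i) := by
  classical
  induction F using Finset.induction_on with
  | empty =>
    simp only [Finset.sum_empty]
    exact EI_zero
  | insert a F ha ih =>
    simp only [Finset.sum_insert ha]
    rw [EI_add (hf a (Finset.mem_insert_self a F))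
      (Con.sum F fun i hi => hf i (Finset.mem_insert_of_mem hi)),
      ih fun i hi => hf i (Finset.mem_insert_of_mem hi)]

/-- affine invariance -/
theorem EI_comp {f : E → ℤ} (hf : Con f) (g : E ≃ᵃ[ℝ] E) : EI (fun x => f (g x)) = EI f := by
  obtain ⟨m, A, h⟩ := hf
  have h1 : Ad (fun i => (A i).comp (g : E →ᵃ[ℝ] E)) fun x => f (g x) := fun x y hxy => h _ _ hxy
  rw [EI_eq h, EI_eq h1, In, In]
  refine finsum_congr fun s => ?_
  have hd : (dr (fun i => (A i).comp (g : E →ᵃ[ℝ] E)) s).map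
      (g.linear : E →ₗ[ℝ] E) = dr A s := by
    ext v
    constructor
    · rintro ⟨w, hw, rfl⟩ i hi
      exact hw i hi
    · intro hv
      refine ⟨g.linear.symm v, fun i hi => ?_, by simp⟩
      have : ((A i).comp (g : E →ᵃ[ℝ] E)).linear (g.linear.symm v) = (A i).linear v := by
        change (A i).linear (g.linear (g.linear.symm v)) = (A i).linear v
        rw [LinearEquiv.apply_symm_apply]
      rw [this]
      exact hv i hi
  have hdim : finrank ℝ (dr (fun i => (A i).comp (g : E →ᵃ[ℝ] E)) s) = finrank ℝ (dr A s) := by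
    rw [← hd]
    exact (LinearEquiv.finrank_map_eq g.linear _).symm
  by_cases hs : ∃ x, sv A x = s
  · obtain ⟨x, hx⟩ := hs
    have hx' : sv (fun i => (A i).comp (g : E →ᵃ[ℝ] E)) (g.symm x) = s := by
      rw [← hx]
      funext i
      change SignType.sign (A i (g (g.symm x))) = SignType.sign (A i x)
      rw [AffineEquiv.apply_symm_apply]
    rw [tm_eq h hx, tm_eq h1 hx', hdim, AffineEquiv.apply_symm_apply]
  · rw [tm_zero hs, tm_zero]
    rintro ⟨x, hx⟩
    exact hs ⟨g x, hx⟩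

open Classical in
/-- indicator functions -/
noncomputable def ind (p : E → Prop) (x : E) : ℤ := if p x then 1 else 0

theorem ind_pos {p : E → Prop} {x : E} (h : p x) : ind p x = 1 := if_pos h

theorem ind_neg {p : E → Prop} {x : E} (h : ¬p x) : ind p x = 0 := if_neg h

theorem Con.ind {p : E → Prop} (hp : Con p) : Con (ind p) := by
  classical
  exact hp.map fun q => if q then 1 else 0

/-- Euler characteristic -/
noncomputable def chi (S : Set E) : ℤ := EI (ind fun x => x ∈ S)

/-- sets cut out by affine equations and strict inequalities -/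
def cut (I J : Finset (E →ᵃ[ℝ] ℝ)) : Set E := {x | (∀ φ ∈ I, φ x = 0) ∧ ∀ ψ ∈ J, 0 < ψ x}

theorem cut_con (I J : Finset (E →ᵃ[ℝ] ℝ)) : Con fun x : E => x ∈ cut I J := by
  have h1 := (Con.all (ι := I) (p := fun φ x => φ.1 x = 0) fun φ => Con.zero φ.1).and
    (Con.all (ι := J) (p := fun φ x => 0 < φ.1 x) fun φ => Con.pos φ.1)
  have e : (fun x : E => (∀ φ : I, φ.1 x = 0) ∧ ∀ φ : J, 0 < φ.1 x) = fun x => x ∈ cut I J := by
    funext x
    refine propext ⟨fun h => ⟨fun φ hφ => h.1 ⟨φ, hφ⟩, fun φ hφ => h.2 ⟨φ, hφ⟩⟩,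
      fun h => ⟨fun φ => h.1 φ φ.2, fun φ => h.2 φ φ.2⟩⟩
  rwa [e] at h1

/-- the Euler characteristic of a cell -/
theorem chi_cut (I J : Finset (E →ᵃ[ℝ] ℝ)) (hne : (cut I J).Nonempty) :
    chi (cut I J) = (-1) ^ finrank ℝ (vectorSpan ℝ (cut I J)) := by
  obtain ⟨x₀, hx₀⟩ := hne
  let A : I ⊕ J → (E →ᵃ[ℝ] ℝ) := jn (fun φ : I => φ.1) fun φ : J => φ.1
  let s₀ : I ⊕ J → SignType := Sum.elim (fun _ => 0) fun _ => 1
  have hs : ∀ x, sv A x = s₀ ↔ x ∈ cut I J := by
    intro x
    constructor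
    · intro h
      exact ⟨fun φ hφ => sign_eq_zero_iff.1 (congrFun h (Sum.inl ⟨φ, hφ⟩)),
        fun φ hφ => sign_eq_one_iff.1 (congrFun h (Sum.inr ⟨φ, hφ⟩))⟩
    · intro h
      funext i
      rcases i with i | i
      · exact sign_eq_zero_iff.2 (h.1 i i.2)
      · exact sign_eq_one_iff.2 (h.2 i i.2)
  have hA : Ad A (ind fun x => x ∈ cut I J) := by
    intro x y hxy
    by_cases h : x ∈ cut I J
    · have h' : y ∈ cut I J := (hs y).1 (hxy ▸ (hs x).2 h)
      rw [ind_pos (p := fun x => x ∈ cut I J) h, ind_pos (p := fun x => x ∈ cut I J) h']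
    · have h' : y ∉ cut I J := fun h' => h ((hs x).1 (hxy.trans ((hs y).2 h')))
      rw [ind_neg (p := fun x => x ∈ cut I J) h, ind_neg (p := fun x => x ∈ cut I J) h']
  have hd : dr A s₀ = vectorSpan ℝ (cut I J) := by
    apply le_antisymm
    · intro v hv
      have h1 := sv_move (A := A) x₀ (v := v) (by rwa [(hs x₀).2 hx₀])
      obtain ⟨ε, hε, hball⟩ := Metric.eventually_nhds_iff.1 h1
      have h2 : x₀ + (ε / 2) • v ∈ cut I J := by
        rw [← hs, hball (by rw [dist_zero_right, Real.norm_of_nonneg (by positivity)]; linarith)]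
        exact (hs x₀).2 hx₀
      have h3 := vsub_mem_vectorSpan ℝ h2 hx₀
      rw [vsub_eq_sub, add_sub_cancel_left] at h3
      have h4 := Submodule.smul_mem _ (ε / 2)⁻¹ h3
      rwa [smul_smul, inv_mul_cancel₀ (by positivity), one_smul] at h4
    · rw [vectorSpan_def, Submodule.span_le]
      rintro _ ⟨x, hx, y, hy, rfl⟩
      have h1 := sub_mem_dr (A := A) (((hs y).2 hy).trans ((hs x).2 hx).symm)
      rw [(hs y).2 hy] at h1
      exact h1
  rw [chi, EI_eq hA, In, finsum_eq_single _ s₀, tm_eq hA ((hs x₀).2 hx₀),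
    ind_pos (p := fun x => x ∈ cut I J) hx₀, mul_one, hd]
  intro s hs'
  by_cases h : ∃ x, sv A x = s
  · obtain ⟨x, hx⟩ := h
    rw [tm_eq hA hx, ind_neg, mul_zero]
    intro h1
    exact hs' (hx.symm.trans ((hs x).2 h1))
  · exact tm_zero h

/-- additivity -/
theorem chi_union {ι : Type} (F : Finset ι) (C : ι → Set E) (D : Set E)
    (hC : ∀ i ∈ F, Con fun x => x ∈ C i) (hD : ∀ x, x ∈ D ↔ ∃ i ∈ F, x ∈ C i)
    (hdis : ∀ i ∈ F, ∀ j ∈ F, ∀ x, x ∈ C i → x ∈ C j → i = j) :
    chi D = ∑ i ∈ F, chi (C i) := by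
  classical
  unfold chi
  rw [← EI_sum F fun i hi => (hC i hi).ind]
  congr 1
  funext x
  by_cases hx : x ∈ D
  · obtain ⟨i, hi, hxi⟩ := (hD x).1 hx
    rw [ind_pos (p := fun x => x ∈ D) hx, Finset.sum_eq_single i, ind_pos hxi]
    · intro j hj hji
      exact ind_neg fun hxj => hji (hdis j hj i hi x hxj hxi)
    · intro h
      exact absurd hi h
  · rw [ind_neg (p := fun x => x ∈ D) hx, Finset.sum_eq_zero]
    intro i hi
    exact ind_neg fun hxi => hx ((hD x).2 ⟨i, hi, hxi⟩)

theorem chi_image {S : Set E} (hS : Con fun x => x ∈ S) (g : E ≃ᵃ[ℝ] E) :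
    chi (g '' S) = chi S := by
  have h := EI_comp hS.ind g.symm
  unfold chi
  rw [← h]
  congr 1
  funext x
  unfold ind
  congr 1
  exact propext ⟨fun ⟨y, hy, hyx⟩ => by rw [← hyx]; simpa using hy,
    fun hx => ⟨g.symm x, hx, by simp⟩⟩

theorem con_image {S : Set E} (hS : Con fun x => x ∈ S) (g : E ≃ᵃ[ℝ] E) :
    Con fun x => x ∈ g '' S := by
  have h := hS.comp (g.symm : E →ᵃ[ℝ] E)
  have e : (fun x => (g.symm : E →ᵃ[ℝ] E) x ∈ S) = fun x => x ∈ g '' S := by
    funext x
    exact propext ⟨fun hx => ⟨g.symm x, hx, by simp⟩,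
      fun ⟨y, hy, hyx⟩ => by rw [← hyx]; simpa using hy⟩
  rwa [e] at h

end Run7.h262.EC
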