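import Pool.Agent.Run7.h262.EC.Exi

/-!
Commensurated virtually solvable subgroups give commutative normal subgroups.
-/

set_option autoImplicit false
set_option linter.unusedSectionVars false

open Filter Topology

namespace Run7.h262.EC

open Run7.h262.SV Run7.h262.TB

variable {Γ E : Type} [Group Γ] [NormedAddCommGroup E] [NormedSpace ℝ E] [FiniteDimensional ℝ E]
  {hol : Γ →* (E ≃ᵃ[ℝ] E)}

theorem center_infinite (B : Subgroup Γ) (hBi : Infinite B) (hF : Finite (⁅B, B⁆ : Subgroup Γ)) :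
    {b | b ∈ B ∧ ∀ Z ∈ SS hol B, hat (hol b) * Z = Z * hat (hol b)}.Infinite := by
  classical
  obtain ⟨s, hs, hspan⟩ := (Submodule.fg_span_iff_fg_span_finset_subset
    ((fun a => hat (hol a)) '' (B : Set Γ))).1 (IsNoetherian.noetherian (SS hol B))
  choose b hb hbs using fun Y : s => hs Y.2
  let f : B → (s → (⁅B, B⁆ : Subgroup Γ)) := fun a Y =>
    ⟨(a : Γ) * b Y * (a : Γ)⁻¹ * (b Y)⁻¹, Subgroup.commutator_mem_commutator a.2 (hb Y)⟩
  obtain ⟨y, hy⟩ := Finite.exists_infinite_fiber f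
  obtain ⟨⟨a₀, ha₀⟩⟩ := (inferInstance : Nonempty (f ⁻¹' {y}))
  have hcent : ∀ a : f ⁻¹' {y}, ∀ Z ∈ SS hol B, hat (hol ((a₀ : Γ)⁻¹ * ((a : B) : Γ))) * Z =
      Z * hat (hol ((a₀ : Γ)⁻¹ * ((a : B) : Γ))) := by
    intro a
    have h1 : ∀ Y : s, Commute ((a₀ : Γ)⁻¹ * ((a : B) : Γ)) (b Y) := by
      intro Y
      have h2 : f (a : B) Y = f a₀ Y := by
        have e1 : f (a : B) = y := a.2
        have e2 : f a₀ = y := ha₀
        rw [e1, e2]
      have h3 : ((a : B) : Γ) * b Y * ((a : B) : Γ)⁻¹ * (b Y)⁻¹ =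
        (a₀ : Γ) * b Y * (a₀ : Γ)⁻¹ * (b Y)⁻¹ := congrArg Subtype.val h2
      have h4 := mul_right_cancel h3
      change (a₀ : Γ)⁻¹ * ((a : B) : Γ) * b Y = b Y * ((a₀ : Γ)⁻¹ * ((a : B) : Γ))
      calc (a₀ : Γ)⁻¹ * ((a : B) : Γ) * b Y
          = (a₀ : Γ)⁻¹ * (((a : B) : Γ) * b Y * ((a : B) : Γ)⁻¹) * ((a : B) : Γ) := by group
        _ = b Y * ((a₀ : Γ)⁻¹ * ((a : B) : Γ)) := by rw [h4]; group
    intro Z hZ
    have hZ' : Z ∈ Submodule.span ℝ (s : Set (AA E)) := by
      rw [← hspan]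
      exact hZ
    refine Submodule.span_induction (p := fun Z _ =>
      hat (hol ((a₀ : Γ)⁻¹ * ((a : B) : Γ))) * Z =
      Z * hat (hol ((a₀ : Γ)⁻¹ * ((a : B) : Γ)))) ?_ ?_ ?_ ?_ hZ'
    · intro Y hY
      have h6 : hat (hol (b ⟨Y, hY⟩)) = Y := hbs ⟨Y, hY⟩
      rw [← h6, ← map_mul, ← map_mul, ← map_mul, ← map_mul, (h1 ⟨Y, hY⟩).eq]
    · rw [mul_zero, zero_mul]
    · intro Y Z _ _ h6 h7
      rw [mul_add, add_mul, h6, h7]
    · intro r Y _ h6
      rw [mul_smul_comm, smul_mul_assoc, h6]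
  refine Set.infinite_coe_iff.1 (Infinite.of_injective (fun a : f ⁻¹' {y} =>
    (⟨(a₀ : Γ)⁻¹ * ((a : B) : Γ), B.mul_mem (B.inv_mem a₀.2) (a : B).2, hcent a⟩ :
      {b | b ∈ B ∧ ∀ Z ∈ SS hol B, hat (hol b) * Z = Z * hat (hol b)})) ?_)
  intro a c hac
  have h1 : (a₀ : Γ)⁻¹ * ((a : B) : Γ) = (a₀ : Γ)⁻¹ * ((c : B) : Γ) := congrArg Subtype.val hac
  exact Subtype.ext (Subtype.ext (mul_left_cancel h1))

/-- inverses stay in the algebra -/
theorem SS_inv (B : Subgroup Γ) {a : Γ} (ha : hat (hol a) ∈ SS hol B) :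
    hat (hol a⁻¹) ∈ SS hol B := by
  let L : SS hol B →ₗ[ℝ] SS hol B :=
    { toFun := fun X => ⟨hat (hol a) * X, SS_mul hol B ha X.2⟩
      map_add' := fun X Y => Subtype.ext (mul_add _ _ _)
      map_smul' := fun r X => Subtype.ext (mul_smul_comm _ _ _) }
  have hinj : Function.Injective L := by
    intro X Y hXY
    have h1 : hat (hol a) * (X : AA E) = hat (hol a) * Y := congrArg Subtype.val hXY
    have h2 := congrArg (fun Z => hat (hol a⁻¹) * Z) h1
    simp only [← mul_assoc, hat_inv_mul, one_mul] at h2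
    exact Subtype.ext h2
  have hsurj : Function.Surjective L := LinearMap.surjective_of_injective (K := ℝ) (V := SS hol B) (f := L) hinj
  obtain ⟨X, hX⟩ := hsurj ⟨1, SS_one hol B⟩
  have h1 : hat (hol a) * (X : AA E) = 1 := congrArg Subtype.val hX
  have h2 : (X : AA E) = hat (hol a⁻¹) := by
    calc (X : AA E) = (hat (hol a⁻¹) * hat (hol a)) * X := by rw [hat_inv_mul, one_mul]
      _ = hat (hol a⁻¹) := by rw [mul_assoc, h1, mul_one]
  rw [← h2]
  exact X.2

theorem dser_mono {P P' : Subgroup Γ} (h : P' ≤ P) (n : ℕ) : dser P' n ≤ dser P n := by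
  induction n with
  | zero => exact h
  | succ n ih => exact Subgroup.commutator_mono ih ih

theorem dser_map {Γ' : Type} [Group Γ'] (P : Subgroup Γ) (φ : Γ →* Γ') (n : ℕ) :
    dser (P.map φ) n = (dser P n).map φ := by
  induction n with
  | zero => rfl
  | succ n ih =>
    change ⁅dser (P.map φ) n, dser (P.map φ) n⁆ = (⁅dser P n, dser P n⁆).map φ
    rw [ih, Subgroup.map_commutator]

theorem relIndex_infinite {P N : Subgroup Γ} (hNi : Infinite N) (h : P.relIndex N ≠ 0) :
    Infinite P := by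
  classical
  have hfi : (P.subgroupOf N).FiniteIndex := ⟨h⟩
  have h2 := Subgroup.card_mul_index (P.subgroupOf N)
  rw [Nat.card_eq_zero_of_infinite (α := N)] at h2
  have h3 : Nat.card (P.subgroupOf N) = 0 := (mul_eq_zero.1 h2).resolve_right h
  have h4 : Infinite (P.subgroupOf N) := by
    rcases Nat.card_eq_zero.1 h3 with h4 | h4
    · exact absurd (inferInstance : Nonempty (P.subgroupOf N)) (not_nonempty_iff.2 h4)
    · exact h4
  exact Infinite.of_injective (fun k : P.subgroupOf N =>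
    (⟨((k : N) : Γ), Subgroup.mem_subgroupOf.1 k.2⟩ : P)) fun a b hab =>
      Subtype.ext (Subtype.ext (congrArg (fun z : P => (z : Γ)) hab))

/-- infinite commensurated virtually solvable subgroups give infinite commutative normal
subgroups -/
theorem exists_commensurated (hinj : Function.Injective hol) (N : Subgroup Γ) (hNi : Infinite N)
    (hcom : ∀ γ : Γ, (N.map (MulAut.conj γ).toMonoidHom).relIndex N ≠ 0)
    (S : Subgroup N) (hS : S.FiniteIndex) (hs : Group.IsSolvable S) :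
    ∃ A : Subgroup Γ, A.Normal ∧ Infinite A ∧ ∀ a ∈ A, ∀ b ∈ A, a * b = b * a := by
  classical
  set P₀ := S.map N.subtype with hP₀
  have hP₀s : Group.IsSolvable P₀ :=
    Group.isSolvable_of_surjective (N.subtype.subgroupMap_surjective S)
  have hP₀i : P₀.relIndex N ≠ 0 := by
    have h1 : P₀.subgroupOf N = S := by
      rw [hP₀, Subgroup.subgroupOf, Subgroup.comap_map_eq_self_of_injective N.subtype_injective]
    rw [Subgroup.relIndex, h1]
    exact hS.index_ne_zero
  obtain ⟨d, hd⟩ := hP₀s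
  have hd' : dser P₀ d = ⊥ := by rw [dser_eq, hd, Subgroup.map_bot]
  have hex : ∃ m : ℕ, ∃ P : Subgroup Γ, P ≤ P₀ ∧ P.relIndex N ≠ 0 ∧
      ∑ i ∈ Finset.range d, Module.finrank ℝ (SS hol (dser P i)) = m :=
    ⟨_, P₀, le_rfl, hP₀i, rfl⟩
  obtain ⟨P, hPP, hPi, hPm⟩ := Nat.find_spec hex
  have hmin := fun j => @Nat.find_min _ _ hex j
  rw [← hPm] at hmin
  have hmono : ∀ (P' Q' : Subgroup Γ), P' ≤ Q' → SS hol P' ≤ SS hol Q' := fun P' Q' h =>
    Submodule.span_mono (Set.image_mono h)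
  -- minimality
  have hstab : ∀ P' : Subgroup Γ, P' ≤ P → P'.relIndex N ≠ 0 → ∀ i < d,
      SS hol (dser P' i) = SS hol (dser P i) := by
    intro P' hP' hP'i i hi
    have h1 : ∀ j, Module.finrank ℝ (SS hol (dser P' j)) ≤
        Module.finrank ℝ (SS hol (dser P j)) := fun j =>
      Submodule.finrank_mono (hmono _ _ (dser_mono hP' j))
    have h2 : ¬ ∑ i ∈ Finset.range d, Module.finrank ℝ (SS hol (dser P' i)) <
        ∑ i ∈ Finset.range d, Module.finrank ℝ (SS hol (dser P i)) := fun h3 =>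
      hmin _ h3 ⟨P', hP'.trans hPP, hP'i, rfl⟩
    have h3 : Module.finrank ℝ (SS hol (dser P' i)) = Module.finrank ℝ (SS hol (dser P i)) := by
      by_contra hne
      exact h2 (Finset.sum_lt_sum (fun j _ => h1 j)
        ⟨i, Finset.mem_range.2 hi, lt_of_le_of_ne (h1 i) hne⟩)
    exact Submodule.eq_of_le_of_finrank_eq (hmono _ _ (dser_mono hP' i)) h3
  -- invariance
  have hinv : ∀ i < d, ∀ γ : Γ, ∀ X ∈ SS hol (dser P i),
      hat (hol γ⁻¹) * X * hat (hol γ) ∈ SS hol (dser P i) := by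
    intro i hi γ X hX
    set Pγ := P.map (MulAut.conj γ).toMonoidHom with hPγ
    have h1 : Pγ.relIndex N ≠ 0 := by
      refine Subgroup.relIndex_ne_zero_trans ?_ (hcom γ)
      rw [hPγ, Subgroup.relIndex_map_map_of_injective P N (f := (MulAut.conj γ).toMonoidHom)
        (MulAut.conj γ).injective]
      exact hPi
    have h2 : (P ⊓ Pγ).relIndex N ≠ 0 := Subgroup.relIndex_inf_ne_zero hPi h1
    have h3 := hstab (P ⊓ Pγ) inf_le_left h2 i hi
    rw [← h3] at hX
    have h4 := hmono _ _ (dser_mono (inf_le_right : P ⊓ Pγ ≤ Pγ) i) hX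
    rw [hPγ, dser_map] at h4
    refine Submodule.span_induction (p := fun X _ => hat (hol γ⁻¹) * X * hat (hol γ) ∈
      SS hol (dser P i)) ?_ ?_ ?_ ?_ h4
    · rintro _ ⟨_, ⟨a, ha, rfl⟩, rfl⟩
      have e1 : (MulAut.conj γ).toMonoidHom a = γ * a * γ⁻¹ := rfl
      simp only
      rw [e1, ← map_mul, ← map_mul, ← map_mul, ← map_mul]
      have e2 : γ⁻¹ * (γ * a * γ⁻¹) * γ = a := by group
      rw [e2]
      exact SS_hat hol _ ha
    · rw [mul_zero, zero_mul]
      exact Submodule.zero_mem _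
    · intro X Y _ _ h5 h6
      rw [mul_add, add_mul]
      exact Submodule.add_mem _ h5 h6
    · intro r X _ h5
      rw [mul_smul_comm, smul_mul_assoc]
      exact Submodule.smul_mem _ _ h5
  -- the last infinite derived group
  have hPinf : Infinite P := relIndex_infinite hNi hPi
  have hdP : dser P d = ⊥ := le_bot_iff.1 (hd' ▸ dser_mono hPP d)
  have hexf : ∃ n, Finite (dser P n) := ⟨d, by
    rw [hdP]
    infer_instance⟩
  have hm := Nat.find_spec hexf
  have hminf := fun j => @Nat.find_min _ _ hexf j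
  have hled : Nat.find hexf ≤ d := Nat.find_min' hexf (by
    rw [hdP]
    infer_instance)
  cases hc : Nat.find hexf with
  | zero =>
    rw [hc] at hm
    exact absurd hm (not_finite_iff_infinite.2 hPinf)
  | succ m =>
    rw [hc] at hm hled
    have hmd : m < d := by omega
    have hBi : Infinite (dser P m) := not_finite_iff_infinite.1 (hminf m (by omega))
    set B := dser P m with hB
    have hF : Finite (⁅B, B⁆ : Subgroup Γ) := hm
    have hBinv : ∀ γ : Γ, ∀ X ∈ SS hol B, hat (hol γ⁻¹) * X * hat (hol γ) ∈ SS hol B :=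
      hinv m hmd
    have hBinv' : ∀ γ : Γ, ∀ X ∈ SS hol B, hat (hol γ) * X * hat (hol γ⁻¹) ∈ SS hol B := by
      intro γ X hX
      have := hBinv γ⁻¹ X hX
      rwa [inv_inv] at this
    let A : Subgroup Γ :=
      { carrier := {a | hat (hol a) ∈ SS hol B ∧
          ∀ Z ∈ SS hol B, hat (hol a) * Z = Z * hat (hol a)}
        mul_mem' := fun {a b} ha hb => by
          refine ⟨?_, fun Z hZ => ?_⟩
          · rw [map_mul, map_mul]
            exact SS_mul hol B ha.1 hb.1
          · rw [map_mul, map_mul, mul_assoc, hb.2 Z hZ, ← mul_assoc, ha.2 Z hZ, mul_assoc]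
        one_mem' := by
          refine ⟨?_, fun Z _ => ?_⟩
          · rw [map_one, map_one]
            exact SS_one hol B
          · rw [map_one, map_one, one_mul, mul_one]
        inv_mem' := fun {a} ha => by
          refine ⟨SS_inv B ha.1, fun Z hZ => ?_⟩
          calc hat (hol a⁻¹) * Z = hat (hol a⁻¹) * Z * (hat (hol a) * hat (hol a⁻¹)) := by
                rw [hat_mul_inv, mul_one]
            _ = hat (hol a⁻¹) * (Z * hat (hol a)) * hat (hol a⁻¹) := by simp only [mul_assoc]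
            _ = hat (hol a⁻¹) * hat (hol a) * Z * hat (hol a⁻¹) := by
                rw [← ha.2 Z hZ]; simp only [mul_assoc]
            _ = Z * hat (hol a⁻¹) := by rw [hat_inv_mul, one_mul] }
    refine ⟨A, ⟨?_⟩, ?_, ?_⟩
    · intro a ha γ
      refine ⟨?_, fun Z hZ => ?_⟩
      · rw [map_mul, map_mul, map_mul, map_mul]
        exact hBinv' γ _ ha.1
      · have h1 := ha.2 _ (hBinv γ Z hZ)
        rw [map_mul, map_mul, map_mul, map_mul]
        calc hat (hol γ) * hat (hol a) * hat (hol γ⁻¹) * Z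
            = hat (hol γ) * (hat (hol a) * (hat (hol γ⁻¹) * Z * (hat (hol γ) * hat (hol γ⁻¹)))) := by
              rw [hat_mul_inv, mul_one]; simp only [mul_assoc]
          _ = hat (hol γ) * (hat (hol a) * (hat (hol γ⁻¹) * Z * hat (hol γ))) * hat (hol γ⁻¹) := by
              simp only [mul_assoc]
          _ = (hat (hol γ) * hat (hol γ⁻¹)) * Z * (hat (hol γ) * hat (hol a) * hat (hol γ⁻¹)) := by
              rw [h1]; simp only [mul_assoc]
          _ = Z * (hat (hol γ) * hat (hol a) * hat (hol γ⁻¹)) := by rw [hat_mul_inv, one_mul]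
    · refine Set.infinite_coe_iff.2 ((center_infinite (hol := hol) B hBi hF).mono ?_)
      rintro b ⟨hb, hb2⟩
      exact ⟨SS_hat hol B hb, hb2⟩
    · intro a ha b hb
      apply hinj
      apply hat_inj
      rw [map_mul, map_mul, map_mul, map_mul]
      exact ha.2 _ hb.1

end Run7.h262.EC
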