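import Pool.Agent.Run7.h262.EC.Chi

/-!
Divisibility of the Euler characteristic of a polyhedral set which meets every orbit of a group in
the same number of points, counted with the orders of the stabilisers.
-/

set_option autoImplicit false
set_option linter.unusedSectionVars false

open Filter Topology Module

namespace Run7.h262.EC

variable {E : Type} [NormedAddCommGroup E] [NormedSpace ℝ E] [FiniteDimensional ℝ E]

/-- a position in the lexicographic order -/
noncomputable def key (x : E) : Lex (Fin (finrank ℝ E) → ℝ) := toLex ((finBasis ℝ E).equivFun x)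

theorem key_inj {x y : E} (h : key x = key y) : x = y :=
  (finBasis ℝ E).equivFun.injective (toLex.injective h)

/-- coordinates as affine functions -/
noncomputable def crd (i : Fin (finrank ℝ E)) : E →ᵃ[ℝ] ℝ :=
  ((LinearMap.proj i).comp ((finBasis ℝ E).equivFun : E →ₗ[ℝ] (Fin (finrank ℝ E) → ℝ))).toAffineMap

theorem crd_apply (i : Fin (finrank ℝ E)) (x : E) : crd i x = (finBasis ℝ E).equivFun x i := rfl

theorem con_key (g : E →ᵃ[ℝ] E) : Con fun x => key x ≤ key (g x) := by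
  have e : (fun x : E => key x ≤ key (g x)) = fun x => ¬∃ i : Fin (finrank ℝ E),
      (∀ j : {j // j < i}, (crd j.1 - (crd j.1).comp g) x = 0) ∧
        ((crd i).comp g - crd i) x < 0 := by
    funext x
    rw [← not_lt]
    refine congrArg Not (propext ?_)
    change Pi.Lex _ _ _ _ ↔ _
    constructor
    · rintro ⟨i, h1, h2⟩
      refine ⟨i, fun j => ?_, ?_⟩
      · have h3 := h1 j j.2
        change crd j.1 x - crd j.1 (g x) = 0
        rw [crd_apply, crd_apply]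
        exact sub_eq_zero.2 h3.symm
      · change crd i (g x) - crd i x < 0
        rw [crd_apply, crd_apply]
        exact sub_neg.2 h2
    · rintro ⟨i, h1, h2⟩
      refine ⟨i, fun j hj => ?_, ?_⟩
      · have h3 := h1 ⟨j, hj⟩
        change crd j x - crd j (g x) = 0 at h3
        rw [crd_apply, crd_apply] at h3
        exact (sub_eq_zero.1 h3).symm
      · change crd i (g x) - crd i x < 0 at h2
        rw [crd_apply, crd_apply] at h2
        exact sub_neg.1 h2
  rw [e]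
  exact (Con.ex fun i => (Con.all fun j => Con.zero _).and (Con.neg _)).map Not

theorem con_fix (g : E →ᵃ[ℝ] E) : Con fun x : E => g x = x := by
  have e : (fun x : E => g x = x) = fun x => ∀ i, ((crd i).comp g - crd i) x = 0 := by
    funext x
    refine propext ⟨fun h i => ?_, fun h => ?_⟩
    · change crd i (g x) - crd i x = 0
      rw [h, sub_self]
    · refine (finBasis ℝ E).equivFun.injective (funext fun i => ?_)
      exact sub_eq_zero.1 (h i)
  rw [e]
  exact Con.all fun i => Con.zero _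

open Classical in
/-- the number of elements fixing a point -/
noncomputable def nfix (F : Finset (E ≃ᵃ[ℝ] E)) (x : E) : ℕ := (F.filter fun g => g x = x).card

theorem con_nfix (F : Finset (E ≃ᵃ[ℝ] E)) : Con fun x => nfix F x := by
  classical
  have h := (Con.pi (ι := F) (f := fun g x => (g : E ≃ᵃ[ℝ] E) x = x)
    fun g => con_fix ((g : E ≃ᵃ[ℝ] E) : E →ᵃ[ℝ] E)).map
    fun z => (Finset.univ.filter fun g : F => z g).card
  refine cast (congrArg Con (funext fun x => ?_)) h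
  unfold nfix
  rw [← Finset.card_map (Function.Embedding.subtype fun g => g ∈ F)]
  congr 1
  ext g
  simp only [Finset.mem_map, Finset.mem_filter, Finset.mem_univ, true_and,
    Function.Embedding.coe_subtype]
  constructor
  · rintro ⟨⟨g', hg'⟩, h1, rfl⟩
    exact ⟨hg', h1⟩
  · rintro ⟨h1, h2⟩
    exact ⟨⟨g, h1⟩, h2, rfl⟩

/-- the divisibility -/
theorem chi_dvd (G : Subgroup (E ≃ᵃ[ℝ] E)) (F : Finset (E ≃ᵃ[ℝ] E)) (D : Set E)
    (hD : Con fun x => x ∈ D) (hF : ∀ g, g ∈ F ↔ g ∈ G ∧ ∃ x ∈ D, g x ∈ D) (m C : ℕ)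
    (hm : ∀ x ∈ D, ∀ T : Finset (E ≃ᵃ[ℝ] E), (∀ g, g ∈ T ↔ g ∈ G ∧ g x ∈ D) → T.card = m)
    (hC : ∀ x ∈ D, ∀ T : Finset (E ≃ᵃ[ℝ] E), (∀ g, g ∈ T ↔ g ∈ G ∧ g x = x) → T.card ≤ C) :
    (m : ℤ) ∣ (C.factorial : ℤ) * chi D := by
  classical
  have hFm : ∀ g ∈ G, ∀ x ∈ D, g x ∈ D → g ∈ F := fun g hg x hx hgx => (hF g).2 ⟨hg, x, hx, hgx⟩
  have hFG : ∀ g ∈ F, g ∈ G := fun g hg => ((hF g).1 hg).1
  have hmul : ∀ (g h : E ≃ᵃ[ℝ] E) (x : E), (g * h) x = g (h x) := fun g h x => rfl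
  have hinv : ∀ (g : E ≃ᵃ[ℝ] E) (x : E), g⁻¹ (g x) = x := fun g x => g.symm_apply_apply x
  have hinv' : ∀ (g : E ≃ᵃ[ℝ] E) (x : E), g (g⁻¹ x) = x := fun g x => g.apply_symm_apply x
  have hm' : ∀ x ∈ D, (F.filter fun g => g x ∈ D).card = m := by
    intro x hx
    refine hm x hx _ fun g => ?_
    rw [Finset.mem_filter]
    exact ⟨fun h => ⟨hFG g h.1, h.2⟩, fun h => ⟨hFm g h.1 x hx h.2, h.2⟩⟩
  have hC' : ∀ x ∈ D, nfix F x ≤ C := by
    intro x hx
    refine hC x hx _ fun g => ?_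
    rw [Finset.mem_filter]
    refine ⟨fun h => ⟨hFG g h.1, h.2⟩, fun h => ⟨hFm g h.1 x hx ?_, h.2⟩⟩
    rw [h.2]
    exact hx
  have hpos : ∀ x ∈ D, 1 ≤ nfix F x := by
    intro x hx
    refine Finset.card_pos.2 ⟨1, ?_⟩
    rw [Finset.mem_filter]
    exact ⟨hFm 1 G.one_mem x hx hx, rfl⟩
  -- conjugation
  have hconj : ∀ g ∈ G, ∀ x ∈ D, g x ∈ D → nfix F (g x) = nfix F x := by
    intro g hg x hx hgx
    unfold nfix
    refine Finset.card_bij' (fun s _ => g⁻¹ * s * g) (fun s _ => g * s * g⁻¹) ?_ ?_ ?_ ?_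
    · intro s hs
      rw [Finset.mem_filter] at hs ⊢
      have h1 : (g⁻¹ * s * g) x = x := by
        rw [hmul, hmul, hs.2, hinv]
      exact ⟨hFm _ (G.mul_mem (G.mul_mem (G.inv_mem hg) (hFG s hs.1)) hg) x hx (by rwa [h1]), h1⟩
    · intro s hs
      rw [Finset.mem_filter] at hs ⊢
      have h1 : (g * s * g⁻¹) (g x) = g x := by
        rw [hmul, hmul, hinv, hs.2]
      exact ⟨hFm _ (G.mul_mem (G.mul_mem hg (hFG s hs.1)) (G.inv_mem hg)) (g x) hgx
        (by rwa [h1]), h1⟩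
    · intro s _
      group
    · intro s _
      group
  let D0 : ℕ → E → Prop := fun s x => x ∈ D ∧ nfix F x = s
  let E0 : ℕ → E → Prop := fun s x => (x ∈ D ∧ nfix F x = s) ∧
    ∀ g : F, (g : E ≃ᵃ[ℝ] E) x ∈ D → key x ≤ key ((g : E ≃ᵃ[ℝ] E) x)
  have cnf : Con fun x => nfix F x := con_nfix F
  have cD0 : ∀ s, Con (D0 s) := fun s => hD.and (cnf.map fun k => k = s)
  have cE0 : ∀ s, Con (E0 s) := by
    intro s
    refine (cD0 s).and (Con.all fun g => ?_)
    exact (hD.comp ((g : E ≃ᵃ[ℝ] E) : E →ᵃ[ℝ] E)).imp (con_key ((g : E ≃ᵃ[ℝ] E) : E →ᵃ[ℝ] E))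
  -- first counting
  have count1 : ∀ (s : ℕ) (x : E), (s : ℤ) * ind (D0 s) x = ∑ g ∈ F, ind (fun x => D0 s x ∧ E0 s (g x)) x := by
    intro s x
    by_cases hx : D0 s x
    swap
    · rw [ind_neg hx, mul_zero, Finset.sum_eq_zero]
      intro g _
      exact ind_neg fun h => hx h.1
    rw [ind_pos hx, mul_one]
    obtain ⟨hxD, hxs⟩ := hx
    obtain ⟨g₀, hg₀, hmin⟩ := Finset.exists_min_image (F.filter fun g => g x ∈ D)
      (fun g => key (g x)) ⟨1, by
        rw [Finset.mem_filter]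
        exact ⟨hFm 1 G.one_mem x hxD hxD, hxD⟩⟩
    rw [Finset.mem_filter] at hg₀
    have hg₀G := hFG g₀ hg₀.1
    have hiff : ∀ g ∈ F, (D0 s x ∧ E0 s (g x)) ↔ g x = g₀ x := by
      intro g hg
      have hgG := hFG g hg
      constructor
      · rintro ⟨-, ⟨h1, -⟩, h2⟩
        have h3 : (g₀ * g⁻¹) (g x) = g₀ x := by rw [hmul, hinv]
        have h4 := h2 ⟨g₀ * g⁻¹, hFm _ (G.mul_mem hg₀G (G.inv_mem hgG)) (g x) h1 (by
          rw [h3]
          exact hg₀.2)⟩ (by
          change (g₀ * g⁻¹) (g x) ∈ D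
          rw [h3]
          exact hg₀.2)
        change key (g x) ≤ key ((g₀ * g⁻¹) (g x)) at h4
        rw [h3] at h4
        refine key_inj (le_antisymm h4 ?_)
        exact hmin g (Finset.mem_filter.2 ⟨hg, h1⟩)
      · intro h1
        have h2 : g x ∈ D := by
          rw [h1]
          exact hg₀.2
        refine ⟨⟨hxD, hxs⟩, ⟨h2, ?_⟩, ?_⟩
        · rw [hconj g hgG x hxD h2, hxs]
        · rintro ⟨h, hh⟩ h3
          change h (g x) ∈ D at h3
          change key (g x) ≤ key (h (g x))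
          rw [h1] at h3 ⊢
          exact hmin (h * g₀) (Finset.mem_filter.2 ⟨hFm _ (G.mul_mem (hFG h hh) hg₀G) x hxD h3,
            h3⟩)
    have hsum : ∑ g ∈ F, ind (fun x => D0 s x ∧ E0 s (g x)) x =
        ((F.filter fun g => g x = g₀ x).card : ℤ) := by
      rw [Finset.card_filter, Nat.cast_sum]
      refine Finset.sum_congr rfl fun g hg => ?_
      by_cases h : g x = g₀ x
      · rw [if_pos h, ind_pos (p := fun x => D0 s x ∧ E0 s (g x)) (x := x) ((hiff g hg).2 h)]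
        rfl
      · rw [if_neg h, ind_neg (p := fun x => D0 s x ∧ E0 s (g x)) (x := x)
          fun h' => h ((hiff g hg).1 h')]
        rfl
    rw [hsum, ← hxs]
    unfold nfix
    congr 1
    refine Finset.card_bij' (fun s _ => g₀ * s) (fun s _ => g₀⁻¹ * s) ?_ ?_ ?_ ?_
    · intro s hs
      rw [Finset.mem_filter] at hs ⊢
      have h1 : (g₀ * s) x = g₀ x := by rw [hmul, hs.2]
      exact ⟨hFm _ (G.mul_mem hg₀G (hFG s hs.1)) x hxD (by rw [h1]; exact hg₀.2), h1⟩
    · intro s hs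
      rw [Finset.mem_filter] at hs ⊢
      have h1 : (g₀⁻¹ * s) x = x := by rw [hmul, hs.2, hinv]
      exact ⟨hFm _ (G.mul_mem (G.inv_mem hg₀G) (hFG s hs.1)) x hxD (by rwa [h1]), h1⟩
    · intro s _
      group
    · intro s _
      group
  -- second counting
  have count2 : ∀ (s : ℕ) (y : E), (m : ℤ) * ind (E0 s) y =
      ∑ g ∈ F, ind (fun y => D0 s (g⁻¹ y) ∧ E0 s y) y := by
    intro s y
    by_cases hy : E0 s y
    swap
    · rw [ind_neg hy, mul_zero, Finset.sum_eq_zero]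
      intro g _
      exact ind_neg fun h => hy h.2
    rw [ind_pos hy, mul_one]
    have hyD : y ∈ D := hy.1.1
    have hiff : ∀ g ∈ F, (D0 s (g⁻¹ y) ∧ E0 s y) ↔ g⁻¹ y ∈ D := by
      intro g hg
      refine ⟨fun h => h.1.1, fun h => ⟨⟨h, ?_⟩, hy⟩⟩
      rw [hconj g⁻¹ (G.inv_mem (hFG g hg)) y hyD h]
      exact hy.1.2
    have hsum : ∑ g ∈ F, ind (fun y => D0 s (g⁻¹ y) ∧ E0 s y) y =
        ((F.filter fun g => g⁻¹ y ∈ D).card : ℤ) := by
      rw [Finset.card_filter, Nat.cast_sum]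
      refine Finset.sum_congr rfl fun g hg => ?_
      by_cases h : g⁻¹ y ∈ D
      · rw [if_pos h, ind_pos (p := fun y => D0 s (g⁻¹ y) ∧ E0 s y) (x := y) ((hiff g hg).2 h)]
        rfl
      · rw [if_neg h, ind_neg (p := fun y => D0 s (g⁻¹ y) ∧ E0 s y) (x := y)
          fun h' => h ((hiff g hg).1 h')]
        rfl
    rw [hsum, ← hm' y hyD]
    congr 1
    refine Finset.card_bij' (fun s _ => s⁻¹) (fun s _ => s⁻¹) ?_ ?_ ?_ ?_
    · intro g hg
      rw [Finset.mem_filter] at hg ⊢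
      rw [inv_inv]
      exact ⟨hFm _ (G.inv_mem (hFG g hg.1)) (g y) hg.2 (by rwa [hinv]), hg.2⟩
    · intro g hg
      rw [Finset.mem_filter] at hg ⊢
      exact ⟨hFm _ (G.inv_mem (hFG g hg.1)) y hyD hg.2, hg.2⟩
    · intro s _
      group
    · intro s _
      group
  have hmain : ∀ s : ℕ, (s : ℤ) * EI (ind (D0 s)) = (m : ℤ) * EI (ind (E0 s)) := by
    intro s
    have c1 : ∀ g : E ≃ᵃ[ℝ] E, Con fun x => D0 s x ∧ E0 s (g x) := fun g =>
      (cD0 s).and ((cE0 s).comp (g : E →ᵃ[ℝ] E))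
    have c2 : ∀ g : E ≃ᵃ[ℝ] E, Con fun y => D0 s (g⁻¹ y) ∧ E0 s y := fun g =>
      ((cD0 s).comp ((g⁻¹ : E ≃ᵃ[ℝ] E) : E →ᵃ[ℝ] E)).and (cE0 s)
    rw [← EI_smul (cD0 s).ind, ← EI_smul (cE0 s).ind, funext (count1 s), funext (count2 s),
      EI_sum F fun g _ => (c1 g).ind, EI_sum F fun g _ => (c2 g).ind]
    refine Finset.sum_congr rfl fun g _ => ?_
    rw [← EI_comp (c2 g).ind g]
    congr 1
    funext x
    change ind (fun x => D0 s x ∧ E0 s (g x)) x = ind (fun y => D0 s (g⁻¹ y) ∧ E0 s y) (g x)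
    by_cases h : D0 s x ∧ E0 s (g x)
    · rw [ind_pos (p := fun x => D0 s x ∧ E0 s (g x)) (x := x) h,
        ind_pos (p := fun y => D0 s (g⁻¹ y) ∧ E0 s y) (x := g x) (by rw [hinv]; exact h)]
    · rw [ind_neg (p := fun x => D0 s x ∧ E0 s (g x)) (x := x) h,
        ind_neg (p := fun y => D0 s (g⁻¹ y) ∧ E0 s y) (x := g x) (by rw [hinv]; exact h)]
  have hsplit : ∀ x, ind (fun x => x ∈ D) x = ∑ s ∈ Finset.Icc 1 C, ind (D0 s) x := by
    intro x
    by_cases hx : x ∈ D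
    · rw [ind_pos (p := fun x => x ∈ D) hx, Finset.sum_eq_single (nfix F x),
        ind_pos (p := D0 _) ⟨hx, rfl⟩]
      · intro s _ hs
        exact ind_neg fun h => hs h.2.symm
      · intro h
        exact absurd (Finset.mem_Icc.2 ⟨hpos x hx, hC' x hx⟩) h
    · rw [ind_neg (p := fun x => x ∈ D) hx, Finset.sum_eq_zero]
      intro s _
      exact ind_neg fun h => hx h.1
  have hchi : chi D = ∑ s ∈ Finset.Icc 1 C, EI (ind (D0 s)) := by
    unfold chi
    rw [funext hsplit, EI_sum _ fun s _ => (cD0 s).ind]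
  rw [hchi, Finset.mul_sum]
  refine Finset.dvd_sum fun s hs => ?_
  rw [Finset.mem_Icc] at hs
  obtain ⟨k, hk⟩ := Nat.dvd_factorial (by omega : 0 < s) hs.2
  rw [hk, Nat.cast_mul, mul_comm (s : ℤ), mul_assoc, hmain s]
  exact ⟨(k : ℤ) * EI (ind (E0 s)), by ring⟩

end Run7.h262.EC
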