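import Pool.Agent.Run7.h262.TB.Port
import Pool.Agent.Run7.h262.TB.Cr

/-!
Exponentials as affine maps.
-/

set_option autoImplicit false
set_option linter.unusedSectionVars false

open Filter Topology

namespace Run7.h262.EC

open Run7.h262.SV Run7.h262.TB

variable {E : Type} [NormedAddCommGroup E] [NormedSpace ℝ E] [FiniteDimensional ℝ E]

/-- affine maps from linear maps -/
def toAff (T T' : AA E) (hT : ∀ w, (T w).2 = w.2) (hT' : ∀ w, (T' w).2 = w.2) (h1 : T * T' = 1)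
    (h2 : T' * T = 1) : E ≃ᵃ[ℝ] E where
  toFun x := (T (x, 1)).1
  invFun x := (T' (x, 1)).1
  left_inv x := by
    have e1 : ((T (x, 1)).1, (1 : ℝ)) = T (x, 1) := Prod.ext rfl (hT (x, 1)).symm
    change (T' ((T (x, 1)).1, 1)).1 = x
    rw [e1]
    exact congrArg (fun Y : AA E => (Y (x, 1)).1) h2
  right_inv x := by
    have e1 : ((T' (x, 1)).1, (1 : ℝ)) = T' (x, 1) := Prod.ext rfl (hT' (x, 1)).symm
    change (T ((T' (x, 1)).1, 1)).1 = x
    rw [e1]
    exact congrArg (fun Y : AA E => (Y (x, 1)).1) h1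
  linear :=
    { toFun := fun v => (T (v, 0)).1
      invFun := fun v => (T' (v, 0)).1
      map_add' := fun v w => by
        have e : ((v + w, 0) : E × ℝ) = (v, 0) + (w, 0) := by simp
        rw [e, map_add]
        rfl
      map_smul' := fun c v => by
        have e : ((c • v, 0) : E × ℝ) = c • (v, 0) := by simp
        rw [e, map_smul]
        rfl
      left_inv := fun x => by
        have e1 : ((T (x, 0)).1, (0 : ℝ)) = T (x, 0) := Prod.ext rfl (hT (x, 0)).symm
        change (T' ((T (x, 0)).1, 0)).1 = x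
        rw [e1]
        exact congrArg (fun Y : AA E => (Y (x, 0)).1) h2
      right_inv := fun x => by
        have e1 : ((T' (x, 0)).1, (0 : ℝ)) = T' (x, 0) := Prod.ext rfl (hT' (x, 0)).symm
        change (T ((T' (x, 0)).1, 0)).1 = x
        rw [e1]
        exact congrArg (fun Y : AA E => (Y (x, 0)).1) h1 }
  map_vadd' x v := by
    change (T (v + x, 1)).1 = (T (v, 0)).1 + (T (x, 1)).1
    have e : ((v + x, 1) : E × ℝ) = (v, 0) + (x, 1) := by simp
    rw [e, map_add]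
    rfl

theorem toAff_apply (T T' : AA E) (hT : ∀ w, (T w).2 = w.2) (hT' : ∀ w, (T' w).2 = w.2)
    (h1 : T * T' = 1) (h2 : T' * T = 1) (x : E) : toAff T T' hT hT' h1 h2 x = actp T x := rfl

theorem hat_toAff (T T' : AA E) (hT : ∀ w, (T w).2 = w.2) (hT' : ∀ w, (T' w).2 = w.2)
    (h1 : T * T' = 1) (h2 : T' * T = 1) : hat (toAff T T' hT hT' h1 h2) = T := by
  refine ContinuousLinearMap.ext fun w => ?_
  rw [hat_apply]
  refine Prod.ext ?_ (hT w).symm
  change (T (w.1, 0)).1 + w.2 • (T (0, 1)).1 = (T w).1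
  have e : w = (w.1, 0) + w.2 • ((0, 1) : E × ℝ) := by
    ext <;> simp
  conv_rhs => rw [e, map_add, map_smul]
  rfl

open Classical in
/-- the affine map of an element of the Lie algebra -/
noncomputable def ex (X : AA E) : E ≃ᵃ[ℝ] E :=
  if h : ∀ w, (X w).2 = 0 then
    toAff (NormedSpace.exp X) (NormedSpace.exp (-X)) (exp_snd X h)
      (exp_snd (-X) fun w => by
        change (-(X w)).2 = 0
        rw [Prod.snd_neg, h, neg_zero])
      (exp_unit' X) (by
        have := exp_unit' (-X)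
        rwa [neg_neg] at this)
  else 1

theorem hat_ex {X : AA E} (h : ∀ w, (X w).2 = 0) : hat (ex X) = NormedSpace.exp X := by
  rw [ex, dif_pos h, hat_toAff]

theorem ex_apply {X : AA E} (h : ∀ w, (X w).2 = 0) (x : E) :
    ex X x = actp (NormedSpace.exp X) x := by
  rw [← hat_ex h, actp_hat]

/-- small elements with trivial exponential vanish -/
theorem exp_small : ∃ δ > 0, ∀ X : AA E, ‖X‖ < δ → NormedSpace.exp X = 1 → X = 0 := by
  let _ : NormedAlgebra ℚ (AA E) := NormedAlgebra.restrictScalars ℚ ℝ (AA E)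
  have h1 : HasFDerivAt (NormedSpace.exp : AA E → AA E) (1 : AA E →L[ℝ] AA E) 0 :=
    (hasStrictFDerivAt_exp_zero (𝕂 := ℝ) (𝔸 := AA E)).hasFDerivAt
  have h2 := h1.isLittleO
  have h3 := h2.bound (show (0 : ℝ) < 1 / 2 by norm_num)
  obtain ⟨δ, hδ, hball⟩ := Metric.eventually_nhds_iff.1 h3
  refine ⟨δ, hδ, fun X hX h4 => ?_⟩
  have h5 := hball (y := X) (by rwa [dist_zero_right])
  rw [NormedSpace.exp_zero, h4, sub_self, sub_zero, zero_sub, norm_neg] at h5
  have h6 : ‖(1 : AA E →L[ℝ] AA E) X‖ = ‖X‖ := rfl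
  rw [h6] at h5
  exact norm_eq_zero.1 (by linarith [norm_nonneg X])

section
variable {Γ : Type} [Group Γ] {hol : Γ →* (E ≃ᵃ[ℝ] E)} {A : Subgroup Γ} {Ω : Set E}

theorem ex_add (hA : ∀ a ∈ A, ∀ b ∈ A, a * b = b * a) {X Y : AA E} (hX : X ∈ HH hol A hA)
    (hY : Y ∈ HH hol A hA) : ex (X + Y) = ex X * ex Y := by
  refine hat_inj ?_
  rw [map_mul, hat_ex (HH_snd hol A hA (Submodule.add_mem _ hX hY)), hat_ex (HH_snd hol A hA hX),
    hat_ex (HH_snd hol A hA hY)]
  exact exp_add' (SS_comm hol A hA (HH_le hol A hA hX) (HH_le hol A hA hY))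

theorem ex_zero : ex (0 : AA E) = 1 := by
  refine hat_inj ?_
  rw [hat_ex fun w => rfl, NormedSpace.exp_zero, map_one]

theorem ex_neg (hA : ∀ a ∈ A, ∀ b ∈ A, a * b = b * a) {X : AA E} (hX : X ∈ HH hol A hA) :
    ex (-X) = (ex X)⁻¹ := by
  have h := ex_add hA hX (Submodule.neg_mem _ hX)
  rw [add_neg_cancel, ex_zero] at h
  exact (inv_eq_of_mul_eq_one_right h.symm).symm

theorem ex_conj (hA : ∀ a ∈ A, ∀ b ∈ A, a * b = b * a) (hN : A.Normal) {X : AA E}
    (hX : X ∈ HH hol A hA) (γ : Γ) :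
    hol γ * ex X * hol γ⁻¹ = ex (hat (hol γ) * X * hat (hol γ⁻¹)) := by
  refine hat_inj ?_
  rw [map_mul, map_mul, hat_ex (HH_snd hol A hA hX),
    hat_ex (HH_snd hol A hA (HH_conj hol A hA hN γ hX))]
  have h4 : hat (hol γ) * X = (hat (hol γ) * X * hat (hol γ⁻¹)) * hat (hol γ) := by
    rw [mul_assoc (hat (hol γ) * X), hat_inv_mul, mul_one]
  have h5 := exp_semiconj' h4
  rw [h5, mul_assoc, hat_mul_inv, mul_one]

/-- the elements of the lattice are uniformly separated -/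
theorem LL_sep (h : AffAct Γ E hol Ω) (hA : ∀ a ∈ A, ∀ b ∈ A, a * b = b * a) :
    ∃ ε > 0, ∀ Y ∈ LL hol A hA, ‖Y‖ < ε → Y = 0 := by
  obtain ⟨ε, hε, h1⟩ := LL_small h hA
  obtain ⟨δ, hδ, h2⟩ := exp_small (E := E)
  refine ⟨min ε δ, lt_min hε hδ, fun Y hY hYs => ?_⟩
  exact h2 Y (hYs.trans_le (min_le_right _ _)) (h1 Y hY (hYs.trans_le (min_le_left _ _)))

/-- small elements whose exponential is in the group vanish -/
theorem ex_small (h : AffAct Γ E hol Ω) (hinj : Function.Injective hol) :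
    ∃ ε > 0, ∀ Y : AA E, (∀ w, (Y w).2 = 0) → ‖Y‖ < ε → ∀ γ : Γ, ex Y = hol γ → Y = 0 := by
  obtain ⟨r, hr, h1⟩ := h.discrete hinj
  obtain ⟨δ, hδ, h2⟩ := exp_small (E := E)
  have h3 : ∀ᶠ Y : AA E in 𝓝 0, ‖NormedSpace.exp Y - 1‖ < r := by
    have h4 : Tendsto (fun Y : AA E => ‖NormedSpace.exp Y - 1‖) (𝓝 0) (𝓝 0) := by
      have h5 : Continuous fun Y : AA E => ‖NormedSpace.exp Y - 1‖ :=
        (exp_cont'.sub continuous_const).norm
      have h6 := h5.tendsto 0
      rwa [NormedSpace.exp_zero, sub_self, norm_zero] at h6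
    exact h4.eventually (eventually_lt_nhds hr)
  obtain ⟨ε, hε, hball⟩ := Metric.eventually_nhds_iff.1 h3
  refine ⟨min ε δ, lt_min hε hδ, fun Y hY hYs γ hγ => ?_⟩
  have h4 := hball (y := Y) (by rw [dist_zero_right]; exact hYs.trans_le (min_le_left _ _))
  have h5 : hat (hol γ) = NormedSpace.exp Y := by rw [← hγ, hat_ex hY]
  have h6 : γ = 1 := h1 γ (by
    change ‖hat (hol γ) - 1‖ < r
    rwa [h5])
  rw [h6, map_one, map_one] at h5
  exact h2 Y (hYs.trans_le (min_le_right _ _)) h5.symm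

end

/-- separated subsets of compact sets are finite -/
theorem sep_finite {V : Type} [NormedAddCommGroup V] {Q S : Set V} (hQ : IsCompact Q) {ε : ℝ}
    (hε : 0 < ε) (hS : ∀ x ∈ S, ∀ y ∈ S, ‖x - y‖ < ε → x = y) : (Q ∩ S).Finite := by
  obtain ⟨t, ht, htQ⟩ := Metric.totallyBounded_iff.1 hQ.totallyBounded (ε / 2) (half_pos hε)
  have h1 : ∀ x : V, ∃ y : V, x ∈ Q → y ∈ t ∧ dist x y < ε / 2 := by
    intro x
    by_cases hx : x ∈ Q
    · obtain ⟨y, hy, hxy⟩ := Set.mem_iUnion₂.1 (htQ hx)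
      exact ⟨y, fun _ => ⟨hy, hxy⟩⟩
    · exact ⟨0, fun h => absurd h hx⟩
  choose f hf using h1
  refine Set.Finite.of_finite_image (f := f) (ht.subset ?_) ?_
  · rintro _ ⟨x, hx, rfl⟩
    exact (hf x hx.1).1
  · intro x hx y hy hxy
    refine hS x hx.2 y hy.2 ?_
    rw [← dist_eq_norm]
    calc dist x y ≤ dist x (f x) + dist (f x) y := dist_triangle _ _ _
      _ = dist x (f x) + dist y (f y) := by rw [hxy, dist_comm (f y) y]
      _ < ε := by linarith [(hf x hx.1).2, (hf y hy.1).2]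

end Run7.h262.EC
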