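import Pool.Agent.Run7.h262.EC.Slv

/-!
Existence of polyhedral fundamental sets, and their decomposition into cells.
-/

set_option autoImplicit false
set_option linter.unusedSectionVars false

open Filter Topology Module

namespace Run7.h262.EC

open Run7.h262.SV Run7.h262.TB

variable {Γ E : Type} [Group Γ] [NormedAddCommGroup E] [NormedSpace ℝ E] [FiniteDimensional ℝ E]
  {hol : Γ →* (E ≃ᵃ[ℝ] E)} {A : Subgroup Γ} {Ω D : Set E}

/-- boxes -/
theorem exists_box (hΩ : IsOpen Ω) {x : E} (hx : x ∈ Ω) :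
    ∃ B K : Set E, IsOpen B ∧ x ∈ B ∧ B ⊆ K ∧ IsCompact K ∧ K ⊆ Ω ∧ Con fun y => y ∈ B := by
  let e : E ≃L[ℝ] (Fin (finrank ℝ E) → ℝ) := (finBasis ℝ E).equivFunL
  have h1 : IsOpen (e.symm ⁻¹' Ω) := hΩ.preimage e.symm.continuous
  have h2 : e x ∈ e.symm ⁻¹' Ω := by
    change e.symm (e x) ∈ Ω
    rwa [e.symm_apply_apply]
  obtain ⟨r, hr, hball⟩ := Metric.isOpen_iff.1 h1 _ h2
  refine ⟨e ⁻¹' Metric.ball (e x) (r / 2), e.symm '' Metric.closedBall (e x) (r / 2),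
    Metric.isOpen_ball.preimage e.continuous, ?_, ?_, ?_, ?_, ?_⟩
  · exact Metric.mem_ball_self (half_pos hr)
  · intro y hy
    exact ⟨e y, Metric.ball_subset_closedBall hy, e.symm_apply_apply y⟩
  · exact (isCompact_closedBall _ _).image e.symm.continuous
  · rintro _ ⟨z, hz, rfl⟩
    exact hball (Metric.closedBall_subset_ball (half_lt_self hr) hz)
  · have h3 : Con fun y : E => ∀ i : Fin (finrank ℝ E),
        (crd i - AffineMap.const ℝ E (crd i x + r / 2)) y < 0 ∧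
          0 < (crd i - AffineMap.const ℝ E (crd i x - r / 2)) y :=
      Con.all fun i => (Con.neg _).and (Con.pos _)
    refine cast (congrArg Con (funext fun y => propext ?_)) h3
    rw [Set.mem_preimage, Metric.mem_ball, dist_pi_lt_iff (half_pos hr)]
    refine forall_congr' fun i => ?_
    change (crd i y - (crd i x + r / 2) < 0 ∧ 0 < crd i y - (crd i x - r / 2)) ↔
      dist (crd i y) (crd i x) < r / 2
    rw [Real.dist_eq, abs_lt]
    constructor
    · rintro ⟨h4, h5⟩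
      constructor <;> linarith
    · rintro ⟨h4, h5⟩
      constructor <;> linarith

theorem exists_fund (h : AffAct Γ E hol Ω) (hfree : ∀ γ : Γ, ∀ x ∈ Ω, hol γ x = x → γ = 1) :
    ∃ D : Set E, Fund hol Ω D := by
  classical
  obtain ⟨K, hK, hKΩ, hc⟩ := h.cc
  have hbox : ∀ x : E, ∃ B K' : Set E, x ∈ Ω → IsOpen B ∧ x ∈ B ∧ B ⊆ K' ∧ IsCompact K' ∧ K' ⊆ Ω ∧
      Con fun y => y ∈ B := by
    intro x
    by_cases hx : x ∈ Ω
    · obtain ⟨B, K', h1⟩ := exists_box h.isOpen hx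
      exact ⟨B, K', fun _ => h1⟩
    · exact ⟨∅, ∅, fun h => absurd h hx⟩
  choose Bx Kx hBx using hbox
  obtain ⟨t, htK, htf, ht⟩ := hK.elim_finite_subcover_image (b := K) (c := Bx)
    (fun x hx => (hBx x (hKΩ hx)).1) (fun x hx => Set.mem_biUnion hx (hBx x (hKΩ hx)).2.1)
  set B : Set E := ⋃ x ∈ t, Bx x with hB
  set C : Set E := ⋃ x ∈ t, Kx x with hC
  have hBC : B ⊆ C := Set.iUnion₂_mono fun x hx => (hBx x (hKΩ (htK hx))).2.2.1
  have hCc : IsCompact C := htf.isCompact_biUnion fun x hx => (hBx x (hKΩ (htK hx))).2.2.2.1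
  have hCΩ : C ⊆ Ω := Set.iUnion₂_subset fun x hx => (hBx x (hKΩ (htK hx))).2.2.2.2.1
  have hBcon : Con fun y => y ∈ B := by
    have hft : Finite t := htf.to_subtype
    have h1 := Con.ex (ι := t) (p := fun x y => y ∈ Bx x) fun x => (hBx x (hKΩ (htK x.2))).2.2.2.2.2
    refine cast (congrArg Con (funext fun y => propext ?_)) h1
    rw [hB, Set.mem_iUnion₂]
    exact ⟨fun ⟨x, hx⟩ => ⟨x, x.2, hx⟩, fun ⟨x, hx, hy⟩ => ⟨⟨x, hx⟩, hy⟩⟩
  have hF := h.pd C hCc hCΩ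
  have hFf : Finite {γ : Γ | ∃ x ∈ C, hol γ x ∈ C} := hF.to_subtype
  set D : Set E := {x | x ∈ B ∧ ∀ γ : {γ : Γ | ∃ x ∈ C, hol γ x ∈ C}, hol (γ : Γ) x ∈ B →
    key x ≤ key (hol (γ : Γ) x)} with hD
  have hDcl : closure D ⊆ C := closure_minimal (fun x hx => hBC hx.1) hCc.isClosed
  have hmul : ∀ (γ δ : Γ) (x : E), hol γ (hol δ x) = hol (γ * δ) x := fun γ δ x => by
    rw [map_mul]
    rfl
  refine ⟨D, ⟨?_, hCc.of_isClosed_subset isClosed_closure hDcl, hDcl.trans hCΩ, ?_⟩⟩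
  · exact hBcon.and (Con.all fun γ => (hBcon.comp ((hol (γ : Γ) : E ≃ᵃ[ℝ] E) : E →ᵃ[ℝ] E)).imp
      (con_key ((hol (γ : Γ) : E ≃ᵃ[ℝ] E) : E →ᵃ[ℝ] E)))
  · intro x hx
    obtain ⟨γ₀, hγ₀⟩ := hc x hx
    have hy : hol γ₀ x ∈ B := ht hγ₀
    set y := hol γ₀ x with hydef
    obtain ⟨γ₁, hγ₁, hmin⟩ := Finset.exists_min_image
      (hF.toFinset.filter fun γ => hol γ y ∈ B) (fun γ => key (hol γ y)) ⟨1, by
        rw [Finset.mem_filter, Set.Finite.mem_toFinset, map_one]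
        exact ⟨⟨y, hBC hy, by rw [map_one]; exact hBC hy⟩, hy⟩⟩
    rw [Finset.mem_filter, Set.Finite.mem_toFinset] at hγ₁
    refine ⟨γ₁ * γ₀, ⟨?_, ?_⟩, ?_⟩
    · rw [← hmul]
      exact hγ₁.2
    · rintro ⟨γ, hγ⟩ h1
      change key (hol (γ₁ * γ₀) x) ≤ key (hol γ (hol (γ₁ * γ₀) x))
      change hol γ (hol (γ₁ * γ₀) x) ∈ B at h1
      rw [← hmul γ₁ γ₀ x, ← hydef] at h1 ⊢
      rw [hmul γ γ₁ y] at h1 ⊢
      refine hmin (γ * γ₁) ?_
      rw [Finset.mem_filter, Set.Finite.mem_toFinset]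
      exact ⟨⟨y, hBC hy, hBC h1⟩, h1⟩
    · intro β hβ
      have hα : hol (γ₁ * γ₀) x ∈ D := by
        refine ⟨by rw [← hmul]; exact hγ₁.2, ?_⟩
        rintro ⟨γ, hγ⟩ h1
        change key (hol (γ₁ * γ₀) x) ≤ key (hol γ (hol (γ₁ * γ₀) x))
        change hol γ (hol (γ₁ * γ₀) x) ∈ B at h1
        rw [← hmul γ₁ γ₀ x, ← hydef] at h1 ⊢
        rw [hmul γ γ₁ y] at h1 ⊢
        refine hmin (γ * γ₁) ?_
        rw [Finset.mem_filter, Set.Finite.mem_toFinset]
        exact ⟨⟨y, hBC hy, hBC h1⟩, h1⟩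
      set α := γ₁ * γ₀ with hαdef
      have e1 : hol (β * α⁻¹) (hol α x) = hol β x := by rw [hmul, inv_mul_cancel_right]
      have e2 : hol (α * β⁻¹) (hol β x) = hol α x := by rw [hmul, inv_mul_cancel_right]
      have h1 := hα.2 ⟨β * α⁻¹, ⟨hol α x, hBC hα.1, by rw [e1]; exact hBC hβ.1⟩⟩ (by
        change hol (β * α⁻¹) (hol α x) ∈ B
        rw [e1]
        exact hβ.1)
      have h2 := hβ.2 ⟨α * β⁻¹, ⟨hol β x, hBC hβ.1, by rw [e2]; exact hBC hα.1⟩⟩ (by
        change hol (α * β⁻¹) (hol β x) ∈ B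
        rw [e2]
        exact hα.1)
      change key (hol α x) ≤ key (hol (β * α⁻¹) (hol α x)) at h1
      change key (hol β x) ≤ key (hol (α * β⁻¹) (hol β x)) at h2
      rw [e1] at h1
      rw [e2] at h2
      have h3 : hol β x = hol α x := key_inj (le_antisymm h2 h1)
      have h4 := hfree (β * α⁻¹) (hol α x) (hCΩ (hBC hα.1)) (by rw [e1, h3])
      exact mul_inv_eq_one.1 h4

/-- the cells of a constructible set -/
theorem exists_cells {S : Set E} (hS : Con fun x => x ∈ S) :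
    ∃ (k : ℕ) (C : Fin k → Set E), (∀ i, (C i).Nonempty ∧ ∃ I J : Finset (E →ᵃ[ℝ] ℝ),
      C i = cut I J) ∧ (∀ i, C i ⊆ S) ∧ ∀ x ∈ S, ∃! i, x ∈ C i := by
  classical
  obtain ⟨m, A, hA⟩ := hS
  obtain ⟨k, ⟨e⟩⟩ := Finite.exists_equiv_fin {s : Fin m → SignType // ∃ x ∈ S, sv A x = s}
  refine ⟨k, fun i => {x | sv A x = (e.symm i).1}, fun i => ⟨?_, ?_⟩, ?_, ?_⟩
  · obtain ⟨x, -, hx⟩ := (e.symm i).2
    exact ⟨x, hx⟩
  · set s := (e.symm i).1 with hs
    refine ⟨(Finset.univ.filter fun j => s j = 0).image A,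
      (Finset.univ.filter fun j => s j = 1).image A ∪
        (Finset.univ.filter fun j => s j = -1).image fun j => -A j, ?_⟩
    ext x
    simp only [Set.mem_ofPred_eq, cut, Finset.mem_image, Finset.mem_filter, Finset.mem_univ,
      true_and, Finset.mem_union, forall_exists_index, and_imp]
    constructor
    · intro hx
      have hj : ∀ j, SignType.sign (A j x) = s j := fun j => congrFun hx j
      refine ⟨?_, ?_⟩
      · rintro _ j h1 rfl
        rw [← hj] at h1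
        exact sign_eq_zero_iff.1 h1
      · rintro _ (⟨j, h1, rfl⟩ | ⟨j, h1, rfl⟩)
        · rw [← hj] at h1
          exact sign_eq_one_iff.1 h1
        · rw [← hj] at h1
          change 0 < -(A j x)
          linarith [sign_eq_neg_one_iff.1 h1]
    · rintro ⟨h1, h2⟩
      funext j
      change SignType.sign (A j x) = s j
      have htri : s j = 0 ∨ s j = 1 ∨ s j = -1 := by
        cases s j
        · exact Or.inl rfl
        · exact Or.inr (Or.inr rfl)
        · exact Or.inr (Or.inl rfl)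
      rcases htri with h3 | h3 | h3
      · rw [h3, sign_eq_zero_iff]
        exact h1 _ j h3 rfl
      · rw [h3, sign_eq_one_iff]
        exact h2 _ (Or.inl ⟨j, h3, rfl⟩)
      · rw [h3, sign_eq_neg_one_iff]
        have h4 : 0 < -(A j x) := h2 _ (Or.inr ⟨j, h3, rfl⟩)
        linarith
  · intro i x hx
    obtain ⟨y, hy, hy1⟩ := (e.symm i).2
    have h1 : (x ∈ S) = (y ∈ S) := hA x y (Eq.trans hx hy1.symm)
    rw [h1]
    exact hy
  · intro x hx
    refine ⟨e ⟨sv A x, x, hx, rfl⟩, ?_, ?_⟩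
    · change sv A x = (e.symm (e _)).1
      rw [Equiv.symm_apply_apply]
    · intro i hi
      have h1 : e.symm i = ⟨sv A x, x, hx, rfl⟩ := Subtype.ext (Eq.symm hi)
      rw [← h1, Equiv.apply_symm_apply]

end Run7.h262.EC
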