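import Pool.Agent.Run7.h262.EC.Atl

/-!
Equivariant vector fields without zeros give atlases of flow boxes.
-/

set_option autoImplicit false
set_option linter.unusedSectionVars false

open Filter Topology Module

namespace Run7.h262.EC

open Run7.h262.SV Run7.h262.TB

section box
variable {E : Type} [NormedAddCommGroup E] [NormedSpace ℝ E] [FiniteDimensional ℝ E]

/-- signs -/
def sg (a : Bool) : ℝ := cond a 1 (-1)

/-- the functionals defining a box -/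
noncomputable def fc (ℓ : E →ₗ[ℝ] ℝ) (κ : ℝ) (i : Bool × Bool × Fin (finrank ℝ E)) : E →ₗ[ℝ] ℝ :=
  sg i.1 • ℓ + (sg i.2.1 * κ) • ((LinearMap.proj i.2.2).comp
    ((finBasis ℝ E).equivFun : E →ₗ[ℝ] (Fin (finrank ℝ E) → ℝ)))

theorem fc_apply (ℓ : E →ₗ[ℝ] ℝ) (κ : ℝ) (i : Bool × Bool × Fin (finrank ℝ E)) (v : E) :
    fc ℓ κ i v = sg i.1 * ℓ v + sg i.2.1 * κ * (finBasis ℝ E).equivFun v i.2.2 := rfl

/-- boxes -/
def bx (ℓ : E →ₗ[ℝ] ℝ) (κ ρ : ℝ) (p : E) : Set E := {y | ∀ i, fc ℓ κ i (y - p) ≤ ρ}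

theorem bx_con (ℓ : E →ₗ[ℝ] ℝ) (κ ρ : ℝ) (p : E) : Con fun y => y ∈ bx ℓ κ ρ p := by
  have h : Con fun y => ∀ i, 0 ≤ (AffineMap.const ℝ E (fc ℓ κ i p + ρ) -
      (fc ℓ κ i).toAffineMap) y := Con.all fun i => con_nonneg _
  refine cast (congrArg Con (funext fun y => propext ?_)) h
  refine forall_congr' fun i => ?_
  change 0 ≤ (fc ℓ κ i p + ρ) - fc ℓ κ i y ↔ fc ℓ κ i (y - p) ≤ ρ
  rw [map_sub]
  constructor <;> intro h <;> linarith

theorem bx_cont (ℓ : E →ₗ[ℝ] ℝ) (κ : ℝ) (p : E) (i : Bool × Bool × Fin (finrank ℝ E)) :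
    Continuous fun y => fc ℓ κ i (y - p) :=
  (LinearMap.continuous_of_finiteDimensional (fc ℓ κ i)).comp (continuous_id.sub continuous_const)

theorem bx_closed (ℓ : E →ₗ[ℝ] ℝ) (κ ρ : ℝ) (p : E) : IsClosed (bx ℓ κ ρ p) := by
  have e : bx ℓ κ ρ p = ⋂ i, {y | fc ℓ κ i (y - p) ≤ ρ} := by
    ext y
    rw [Set.mem_iInter]
    rfl
  rw [e]
  exact isClosed_iInter fun i => isClosed_le (bx_cont ℓ κ p i) continuous_const

theorem bx_nhds (ℓ : E →ₗ[ℝ] ℝ) (κ : ℝ) {ρ : ℝ} (hρ : 0 < ρ) (p : E) : bx ℓ κ ρ p ∈ 𝓝 p := by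
  have h : ∀ i, ∀ᶠ y in 𝓝 p, fc ℓ κ i (y - p) < ρ := by
    intro i
    have h1 := (bx_cont ℓ κ p i).tendsto p
    rw [sub_self, map_zero] at h1
    exact h1.eventually (eventually_lt_nhds hρ)
  filter_upwards [Filter.eventually_all.2 h] with y hy i
  exact (hy i).le

theorem bx_small (ℓ : E →ₗ[ℝ] ℝ) {κ : ℝ} (hκ : 0 < κ) {p : E} {U : Set E} (hU : U ∈ 𝓝 p) :
    ∃ ρ > 0, bx ℓ κ ρ p ⊆ U ∧ IsCompact (bx ℓ κ ρ p) := by
  let e : E ≃L[ℝ] (Fin (finrank ℝ E) → ℝ) := (finBasis ℝ E).equivFunL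
  have h1 : e.symm ⁻¹' U ∈ 𝓝 (e p) := by
    refine e.symm.continuous.continuousAt.preimage_mem_nhds ?_
    rwa [e.symm_apply_apply]
  obtain ⟨r, hr, hball⟩ := Metric.mem_nhds_iff.1 h1
  have key : ∀ ρ > 0, bx ℓ κ ρ p ⊆ e.symm '' Metric.closedBall (e p) (ρ / κ) := by
    intro ρ hρ y hy
    refine ⟨e y, ?_, e.symm_apply_apply y⟩
    rw [Metric.mem_closedBall, dist_eq_norm, ← map_sub, pi_norm_le_iff_of_nonneg (by positivity)]
    intro k
    rw [le_div_iff₀ hκ, Real.norm_eq_abs]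
    have h2 := hy (true, true, k)
    have h3 := hy (true, false, k)
    have h4 := hy (false, true, k)
    have h5 := hy (false, false, k)
    rw [fc_apply] at h2 h3 h4 h5
    simp only [sg, cond_true, cond_false] at h2 h3 h4 h5
    have e1 : e (y - p) k = (finBasis ℝ E).equivFun (y - p) k := rfl
    rw [e1]
    have h6 : |(finBasis ℝ E).equivFun (y - p) k * κ| ≤ ρ := by
      rw [abs_le]
      constructor <;> linarith
    rw [abs_mul, abs_of_pos hκ] at h6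
    exact h6
  refine ⟨r / 2 * κ, by positivity, ?_, ?_⟩
  · intro y hy
    obtain ⟨z, hz, rfl⟩ := key _ (by positivity) hy
    refine hball ?_
    rw [mul_div_assoc, div_self hκ.ne', mul_one] at hz
    exact Metric.closedBall_subset_ball (half_lt_self hr) hz
  · exact ((isCompact_closedBall _ _).image e.symm.continuous).of_isClosed_subset
      (bx_closed ℓ κ _ p) (key _ (by positivity))

/-- directions transverse to the faces -/
def Trv (ℓ : E →ₗ[ℝ] ℝ) (κ : ℝ) (u : E) : Prop :=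
  ∀ k, |κ * (finBasis ℝ E).equivFun u k| < ℓ u

theorem Trv.pos {ℓ : E →ₗ[ℝ] ℝ} {κ : ℝ} {u : E} (h : Trv ℓ κ u) (b : Bool)
    (k : Fin (finrank ℝ E)) : 0 < fc ℓ κ (true, b, k) u := by
  rw [fc_apply]
  have h1 := abs_lt.1 (h k)
  cases b <;> simp only [sg, cond_true, cond_false] <;> linarith [h1.1, h1.2]

theorem Trv.neg {ℓ : E →ₗ[ℝ] ℝ} {κ : ℝ} {u : E} (h : Trv ℓ κ u) (b : Bool)
    (k : Fin (finrank ℝ E)) : fc ℓ κ (false, b, k) u < 0 := by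
  rw [fc_apply]
  have h1 := abs_lt.1 (h k)
  cases b <;> simp only [sg, cond_true, cond_false] <;> linarith [h1.1, h1.2]

theorem bx_ray {ℓ : E →ₗ[ℝ] ℝ} {κ ρ : ℝ} {p z u u' : E} (hz : z ∈ bx ℓ κ ρ p)
    (hu : Trv ℓ κ u) (hu' : Trv ℓ κ u') (h : Ry u (fun y => y ∈ bx ℓ κ ρ p) z) :
    Ry u' (fun y => y ∈ bx ℓ κ ρ p) z := by
  have e : ∀ (w : E) (t : ℝ) i, fc ℓ κ i (z + t • w - p) = fc ℓ κ i (z - p) + t * fc ℓ κ i w := by
    intro w t i
    have e1 : z + t • w - p = (z - p) + t • w := by abel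
    rw [e1, map_add, map_smul, smul_eq_mul]
  have h1 : ∀ b k, fc ℓ κ (true, b, k) (z - p) < ρ := by
    intro b k
    have h' : ∀ᶠ t : ℝ in 𝓝[>] 0, z + t • u ∈ bx ℓ κ ρ p := h
    obtain ⟨t, ht, ht0⟩ := (h'.and self_mem_nhdsWithin).exists
    have h2 := ht (true, b, k)
    rw [e] at h2
    have h3 := mul_pos (show (0 : ℝ) < t from ht0) (hu.pos b k)
    linarith
  have h2 : ∀ i, ∀ᶠ t : ℝ in 𝓝[>] 0, fc ℓ κ i (z + t • u' - p) ≤ ρ := by
    rintro ⟨a, b, k⟩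
    cases a
    · filter_upwards [self_mem_nhdsWithin] with t ht
      rw [e]
      have h3 := hz (false, b, k)
      have h4 := mul_neg_of_pos_of_neg (show (0 : ℝ) < t from ht) (hu'.neg b k)
      linarith
    · have h3 : Tendsto (fun t : ℝ => fc ℓ κ (true, b, k) (z + t • u' - p)) (𝓝[>] 0)
          (𝓝 (fc ℓ κ (true, b, k) (z - p))) :=
        ((bx_cont ℓ κ p (true, b, k)).tendsto z).comp (ray_tendsto z u')
      exact (h3.eventually (eventually_lt_nhds (h1 b k))).mono fun t ht => ht.le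
  change ∀ᶠ t : ℝ in 𝓝[>] 0, ∀ i, fc ℓ κ i (z + t • u' - p) ≤ ρ
  exact Filter.eventually_all.2 h2

end box

variable {Γ E : Type} [Group Γ] [NormedAddCommGroup E] [NormedSpace ℝ E] [FiniteDimensional ℝ E]
  {hol : Γ →* (E ≃ᵃ[ℝ] E)} {Ω D : Set E}

/-- small neighbourhoods are disjoint from their translates -/
theorem exists_nhds_disj (h : AffAct Γ E hol Ω) (hfree : ∀ γ : Γ, ∀ x ∈ Ω, hol γ x = x → γ = 1)
    {p : E} (hp : p ∈ Ω) : ∃ U ∈ 𝓝 p, ∀ γ : Γ, ∀ y ∈ U, hol γ y ∈ U → γ = 1 := by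
  classical
  obtain ⟨N, hN, hpN, hNΩ⟩ := exists_compact_subset h.isOpen hp
  have hF := h.pd N hN hNΩ
  have h1 : ∀ γ ∈ hF.toFinset, ∀ᶠ q : E × E in 𝓝 p ×ˢ 𝓝 p, γ ≠ 1 → hol γ q.1 ≠ q.2 := by
    intro γ _
    by_cases hγ : γ = 1
    · exact Filter.Eventually.of_forall fun q hq => absurd hγ hq
    · have h2 : hol γ p ≠ p := fun h3 => hγ (hfree γ p hp h3)
      rw [← nhds_prod_eq]
      have h3 : Continuous fun q : E × E => hol γ q.1 := (SV.hol_cont γ).comp continuous_fst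
      have h4 : IsOpen {q : E × E | hol γ q.1 ≠ q.2} := isOpen_ne_fun h3 continuous_snd
      filter_upwards [h4.mem_nhds (show (p, p) ∈ {q : E × E | hol γ q.1 ≠ q.2} from h2)] with q hq _
      exact hq
  have h2 := (Filter.eventually_all_finset hF.toFinset).2 h1
  rw [Filter.eventually_prod_self_iff'] at h2
  obtain ⟨V, hV, hV'⟩ := h2
  refine ⟨V ∩ N, Filter.inter_mem hV (mem_interior_iff_mem_nhds.1 hpN), fun γ y hy hγy => ?_⟩
  by_contra hne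
  exact hV' y hy.1 (hol γ y) hγy.1 γ (hF.mem_toFinset.2 ⟨y, hy.2, hγy.2⟩) hne rfl

/-- equivariant vector fields without zeros give atlases -/
theorem exists_atlas (h : AffAct Γ E hol Ω) (hfree : ∀ γ : Γ, ∀ x ∈ Ω, hol γ x = x → γ = 1)
    {s : E → E} (hs : ContinuousOn s Ω) (hs0 : ∀ x ∈ Ω, s x ≠ 0)
    (hse : ∀ γ : Γ, ∀ x ∈ Ω, s (hol γ x) = (hol γ).linear (s x)) :
    ∃ (r : ℕ) (B : Fin r → Set E) (v : Fin r → E), Atlas hol Ω B v := by
  classical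
  obtain ⟨K, hK, hKΩ, hcc⟩ := h.cc
  obtain ⟨K₁, hK₁, hKK₁, hK₁Ω⟩ := exists_compact_between hK h.isOpen hKΩ
  have hF := h.pd K₁ hK₁ hK₁Ω
  set F := {γ : Γ | ∃ x ∈ K₁, hol γ x ∈ K₁} with hFdef
  have hKne : K.Nonempty := by
    obtain ⟨x, hx⟩ := h.nonempty
    obtain ⟨γ, hγ⟩ := hcc x hx
    exact ⟨_, hγ⟩
  -- bounds for the field
  have hsn : ContinuousOn (fun x => ‖s x‖) K := (hs.mono hKΩ).norm
  obtain ⟨x₁, hx₁, hmin⟩ := hK.exists_isMinOn hKne hsn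
  obtain ⟨x₂, hx₂, hmax⟩ := hK.exists_isMaxOn hKne hsn
  set m := ‖s x₁‖ with hm
  set M := ‖s x₂‖ with hM
  have hm0 : 0 < m := norm_pos_iff.2 (hs0 _ (hKΩ hx₁))
  have hmle : ∀ x ∈ K, m ≤ ‖s x‖ := fun x hx => hmin hx
  have hMle : ∀ x ∈ K, ‖s x‖ ≤ M := fun x hx => hmax hx
  have hM0 : 0 ≤ M := norm_nonneg _
  let L : Γ → E →L[ℝ] E := fun γ => LinearMap.toContinuousLinearMap ((hol γ).linear : E →ₗ[ℝ] E)
  have hL : ∀ γ v, L γ v = (hol γ).linear v := fun γ v => rfl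
  set C : ℝ := ∑ γ ∈ hF.toFinset, ‖L γ‖ with hC
  have hC0 : 0 ≤ C := Finset.sum_nonneg fun γ _ => norm_nonneg _
  have hCle : ∀ γ ∈ F, ∀ v, ‖(hol γ).linear v‖ ≤ C * ‖v‖ := by
    intro γ hγ v
    rw [← hL]
    refine ((L γ).le_opNorm v).trans (mul_le_mul_of_nonneg_right ?_ (norm_nonneg _))
    exact Finset.single_le_sum (f := fun γ => ‖L γ‖) (fun γ _ => norm_nonneg _)
      (hF.mem_toFinset.2 hγ)
  -- coordinates are bounded
  let e : E →L[ℝ] (Fin (finrank ℝ E) → ℝ) := ((finBasis ℝ E).equivFunL : E →L[ℝ] _)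
  have he : ∀ (u : E) k, |(finBasis ℝ E).equivFun u k| ≤ ‖e‖ * ‖u‖ := by
    intro u k
    have h1 : ‖e u k‖ ≤ ‖e u‖ := norm_le_pi_norm _ k
    exact h1.trans (e.le_opNorm u)
  set κ : ℝ := m / (4 * ((1 + ‖e‖) * (M + m))) with hκ
  have hden : 0 < (1 + ‖e‖) * (M + m) := by positivity
  have hκ0 : 0 < κ := by positivity
  have hκb : κ * ((1 + ‖e‖) * (M + m)) = m / 4 := by
    rw [hκ]
    field_simp
  set ω : ℝ := m / (4 * (C + 1)) with hω
  have hω0 : 0 < ω := by positivity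
  have hωb : (C + 1) * ω = m / 4 := by
    rw [hω]
    field_simp
  have hdual : ∀ p : E, ∃ ℓ : E →ₗ[ℝ] ℝ, (∀ v, |ℓ v| ≤ ‖v‖) ∧ (p ∈ K → ℓ (s p) = ‖s p‖) := by
    intro p
    by_cases hp : p ∈ K
    · obtain ⟨g, hg1, hg2⟩ := exists_dual_vector ℝ (s p) (norm_ne_zero_iff.2 (hs0 p (hKΩ hp)))
      refine ⟨g, fun v => ?_, fun _ => by simpa using hg2⟩
      have h1 := g.le_opNorm v
      rw [hg1, one_mul] at h1
      exact h1
    · exact ⟨0, fun v => by simp, fun h => absurd h hp⟩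
  choose ℓ hℓ1 hℓ2 using hdual
  have hbox : ∀ p : E, ∃ ρ : ℝ, p ∈ K → 0 < ρ ∧ IsCompact (bx (ℓ p) κ ρ p) ∧
      bx (ℓ p) κ ρ p ⊆ K₁ ∧ (∀ y ∈ bx (ℓ p) κ ρ p, ‖s y - s p‖ ≤ ω) ∧
      ∀ γ : Γ, ∀ y ∈ bx (ℓ p) κ ρ p, hol γ y ∈ bx (ℓ p) κ ρ p → γ = 1 := by
    intro p
    by_cases hp : p ∈ K
    swap
    · exact ⟨0, fun h => absurd h hp⟩
    obtain ⟨U, hU, hU'⟩ := exists_nhds_disj h hfree (hKΩ hp)
    have h1 : ∀ᶠ y in 𝓝 p, ‖s y - s p‖ ≤ ω := by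
      have h2 := (hs.continuousAt (h.isOpen.mem_nhds (hKΩ hp)))
      have h3 : Tendsto (fun y => ‖s y - s p‖) (𝓝 p) (𝓝 0) := by
        have h4 := (h2.sub_const (s p)).norm
        rw [sub_self, norm_zero] at h4
        exact h4
      exact (h3.eventually (eventually_lt_nhds hω0)).mono fun y hy => hy.le
    have h2 : K₁ ∈ 𝓝 p := mem_interior_iff_mem_nhds.1 (hKK₁ hp)
    obtain ⟨ρ, hρ, hsub, hcpt⟩ := bx_small (ℓ p) hκ0
      (Filter.inter_mem (Filter.inter_mem hU h2) (show {y | ‖s y - s p‖ ≤ ω} ∈ 𝓝 p from h1))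
    exact ⟨ρ, fun _ => ⟨hρ, hcpt, fun y hy => (hsub hy).1.2, fun y hy => (hsub hy).2,
      fun γ y hy hγ => hU' γ y (hsub hy).1.1 (hsub hγ).1.1⟩⟩
  choose ρ hρ using hbox
  obtain ⟨t, htK, htcov⟩ := hK.elim_nhds_subcover (fun p => bx (ℓ p) κ (ρ p) p)
    fun p hp => bx_nhds (ℓ p) κ (hρ p hp).1 p
  let q : Fin t.card → E := fun c => (t.equivFin.symm c : E)
  have hq : ∀ c, q c ∈ K := fun c => htK _ (t.equivFin.symm c).2
  let B : Fin t.card → Set E := fun c => bx (ℓ (q c)) κ (ρ (q c)) (q c)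
  have hBK : ∀ c, B c ⊆ K₁ := fun c => (hρ _ (hq c)).2.2.1
  -- directions at the boxes are transverse
  have htr : ∀ x ∈ Ω, ∀ γ c η j, hol γ x ∈ B c → hol η x ∈ B j →
      Trv (ℓ (q j)) κ ((hol η).linear ((hol γ⁻¹).linear (s (q c)))) := by
    intro x hx γ c η j hγ hη
    set u := (hol η).linear ((hol γ⁻¹).linear (s (q c))) with hu
    have hFm : η * γ⁻¹ ∈ F := by
      refine ⟨hol γ x, hBK c hγ, ?_⟩
      rw [← hol_mul, inv_mul_cancel_right]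
      exact hBK j hη
    have e1 : s (hol η x) = (hol (η * γ⁻¹)).linear (s (hol γ x)) := by
      rw [← hse _ _ (h.inv γ x hx), ← hol_mul, inv_mul_cancel_right]
    have e2 : u = (hol (η * γ⁻¹)).linear (s (q c)) := by
      rw [hu, SV.lin_mul]
    have h1 : ‖u - s (q j)‖ ≤ m / 4 := by
      have h2 : u - s (q j) = (s (hol η x) - s (q j)) -
          (hol (η * γ⁻¹)).linear (s (hol γ x) - s (q c)) := by
        rw [map_sub, ← e1, ← e2]
        abel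
      rw [h2, ← hωb]
      have h3 := (hρ _ (hq j)).2.2.2.1 _ hη
      have h4 := (hρ _ (hq c)).2.2.2.1 _ hγ
      have h5 := hCle _ hFm (s (hol γ x) - s (q c))
      calc _ ≤ ‖s (hol η x) - s (q j)‖ + ‖(hol (η * γ⁻¹)).linear (s (hol γ x) - s (q c))‖ :=
            norm_sub_le _ _
        _ ≤ ω + C * ω := add_le_add h3 (h5.trans (mul_le_mul_of_nonneg_left h4 hC0))
        _ = (C + 1) * ω := by ring
    have h2 : ‖u‖ ≤ M + m := by
      have h3 : ‖u‖ ≤ ‖u - s (q j)‖ + ‖s (q j)‖ := by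
        have := norm_add_le (u - s (q j)) (s (q j))
        rwa [sub_add_cancel] at this
      have := hMle _ (hq j)
      linarith
    intro k
    have h3 : ℓ (q j) u ≥ m - m / 4 := by
      have h4 : ℓ (q j) u = ℓ (q j) (s (q j)) + ℓ (q j) (u - s (q j)) := by
        rw [← map_add, add_sub_cancel]
      have h5 := hℓ1 (q j) (u - s (q j))
      have h6 := neg_le_of_abs_le (h5.trans h1)
      have h7 := hmle _ (hq j)
      rw [h4, hℓ2 _ (hq j)]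
      linarith
    have h4 : |κ * (finBasis ℝ E).equivFun u k| ≤ m / 4 := by
      rw [abs_mul, abs_of_pos hκ0, ← hκb]
      refine mul_le_mul_of_nonneg_left ((he u k).trans ?_) hκ0.le
      refine mul_le_mul ?_ h2 (norm_nonneg _) (by positivity)
      linarith [norm_nonneg e]
    linarith
  refine ⟨t.card, B, fun c => s (q c), ⟨fun c => bx_con _ _ _ _, fun c => (hρ _ (hq c)).2.1,
    fun c => (hBK c).trans hK₁Ω, fun c => hs0 _ (hKΩ (hq c)), ?_, ?_, ?_⟩⟩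
  · intro x hx
    obtain ⟨γ, hγ⟩ := hcc x hx
    obtain ⟨p, hp, hxp⟩ := Set.mem_iUnion₂.1 (htcov hγ)
    refine ⟨γ, t.equivFin ⟨p, hp⟩, ?_⟩
    have e1 : q (t.equivFin ⟨p, hp⟩) = p := by
      change ((t.equivFin.symm (t.equivFin ⟨p, hp⟩) : t) : E) = p
      rw [Equiv.symm_apply_apply]
    change hol γ x ∈ bx (ℓ (q (t.equivFin ⟨p, hp⟩))) κ (ρ (q (t.equivFin ⟨p, hp⟩)))
      (q (t.equivFin ⟨p, hp⟩))
    rw [e1]
    exact hxp
  · intro γ c x h1 h2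
    exact (hρ _ (hq c)).2.2.2.2 γ x h1 h2
  · intro x hx γ c δ k η j h1 h2 h3 h4
    have h5 := htr x hx γ c η j h1 h3
    have h6 := htr x hx δ k η j h2 h3
    have h7 : Ry ((hol η).linear ((hol γ⁻¹).linear (s (q c)))) (fun y => y ∈ B j) (hol η x) := by
      have h4' : ∀ᶠ t : ℝ in 𝓝[>] 0, hol η (x + t • (hol γ⁻¹).linear (s (q c))) ∈ B j := h4
      change ∀ᶠ t : ℝ in 𝓝[>] 0, hol η x + t • (hol η).linear ((hol γ⁻¹).linear (s (q c))) ∈ B j
      filter_upwards [h4'] with t ht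
      rw [← hol_ray]
      exact ht
    have h8 := bx_ray h3 h5 h6 h7
    have h8' : ∀ᶠ t : ℝ in 𝓝[>] 0, hol η x + t • (hol η).linear ((hol δ⁻¹).linear (s (q k))) ∈
      B j := h8
    change ∀ᶠ t : ℝ in 𝓝[>] 0, hol η (x + t • (hol δ⁻¹).linear (s (q k))) ∈ B j
    filter_upwards [h8'] with t ht
    rw [hol_ray]
    exact ht

/-- Poincaré–Hopf: equivariant vector fields without zeros -/
theorem chi_field (h : AffAct Γ E hol Ω) (hfree : ∀ γ : Γ, ∀ x ∈ Ω, hol γ x = x → γ = 1)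
    {s : E → E} (hs : ContinuousOn s Ω) (hs0 : ∀ x ∈ Ω, s x ≠ 0)
    (hse : ∀ γ : Γ, ∀ x ∈ Ω, s (hol γ x) = (hol γ).linear (s x)) (hD : Fund hol Ω D) :
    chi D = 0 := by
  obtain ⟨r, B, v, hB⟩ := exists_atlas h hfree hs hs0 hse
  exact chi_atlas h hB hD

end Run7.h262.EC
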