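import Pool.Agent.Run7.h262.EC.Sec
import Pool.Agent.Run7.h262.EC.Fbx
import Mathlib.Analysis.Calculus.BumpFunction.FiniteDimension

/-!
Equivariant partitions of unity of deficient rank give equivariant vector fields without zeros.
-/

set_option autoImplicit false
set_option linter.unusedSectionVars false

open Filter Topology Module

namespace Run7.h262.EC

open Run7.h262.SV Run7.h262.TB

/-- finitely supported functions are not almost fixed by elements of infinite order -/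
theorem sep_one {Γ : Type} [Group Γ] (htf : ∀ (γ : Γ) (n : ℕ), n ≠ 0 → γ ^ n = 1 → γ = 1)
    {f₀ f : Γ → ℝ} {S₀ : Finset Γ} (hne : S₀.Nonempty) {μ ε : ℝ} (hμ : ∀ δ ∈ S₀, μ ≤ f₀ δ)
    (hsum : ∑ δ ∈ S₀, f₀ δ = 1) (hf1 : ∀ T : Finset Γ, ∑ δ ∈ T, f δ ≤ 1)
    (hε : (S₀.card + 1) * ε < μ) (g : Γ) (h1 : ∀ δ ∈ S₀, |f δ - f₀ δ| < ε)
    (h2 : ∀ δ ∈ S₀, |f (g * δ) - f₀ δ| < ε) : g = 1 := by
  classical
  have hmem : ∀ δ ∈ S₀, g * δ ∈ S₀ := by
    intro δ hδ
    by_contra hn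
    have h3 := hf1 (insert (g * δ) S₀)
    rw [Finset.sum_insert hn] at h3
    have h4 : ∑ δ ∈ S₀, f₀ δ ≤ ∑ δ ∈ S₀, (f δ + ε) := Finset.sum_le_sum fun η hη => by
      have := (abs_lt.1 (h1 η hη)).1
      linarith
    rw [hsum, Finset.sum_add_distrib, Finset.sum_const, nsmul_eq_mul] at h4
    have h5 := (abs_lt.1 (h2 δ hδ)).1
    have h6 := hμ δ hδ
    linarith
  obtain ⟨δ, hδ⟩ := hne
  have hpow : ∀ n : ℕ, g ^ n * δ ∈ S₀ := by
    intro n
    induction n with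
    | zero => rwa [pow_zero, one_mul]
    | succ n ih =>
      rw [pow_succ', mul_assoc]
      exact hmem _ ih
  obtain ⟨m, n, hmn, heq⟩ := Finite.exists_ne_map_eq_of_infinite
    fun n : ℕ => (⟨g ^ n * δ, hpow n⟩ : S₀)
  have h3 : g ^ m = g ^ n := mul_right_cancel (congrArg Subtype.val heq)
  rcases lt_or_gt_of_ne hmn with h | h
  · refine htf g (n - m) (by omega) ?_
    have h4 : g ^ (n - m) * g ^ m = 1 * g ^ m := by
      rw [← pow_add, Nat.sub_add_cancel h.le, one_mul, h3]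
    exact mul_right_cancel h4
  · refine htf g (m - n) (by omega) ?_
    have h4 : g ^ (m - n) * g ^ n = 1 * g ^ n := by
      rw [← pow_add, Nat.sub_add_cancel h.le, one_mul, h3]
    exact mul_right_cancel h4

variable {Γ E : Type} [Group Γ] [NormedAddCommGroup E] [NormedSpace ℝ E] [FiniteDimensional ℝ E]
  {hol : Γ →* (E ≃ᵃ[ℝ] E)} {Ω D : Set E}

/-- nonnegative equivariant partitions of unity of deficient rank -/
structure RkW (hol : Γ →* (E ≃ᵃ[ℝ] E)) (Ω : Set E) (l : Γ → E → ℝ) : Prop where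
  pre : PreW Γ Γ E hol Ω l
  nonneg : ∀ γ, ∀ x ∈ Ω, 0 ≤ l γ x
  rank : ∀ x ∈ Ω, ∃ v : E, v ≠ 0 ∧ ∀ γ, fderiv ℝ (l γ) x v = 0

/-- bumps -/
structure Bmp (hol : Γ →* (E ≃ᵃ[ℝ] E)) (Ω : Set E) (l b : Γ → E → ℝ) : Prop where
  smooth : ∀ γ, ContDiffOn ℝ 1 (b γ) Ω
  fin : ∀ K : Set E, IsCompact K → K ⊆ Ω → {γ | ∃ x ∈ K, b γ x ≠ 0}.Finite
  equi : ∀ γ δ : Γ, ∀ x ∈ Ω, b (γ * δ) (hol γ x) = b δ x
  uniq : ∀ x ∈ Ω, ∀ γ δ : Γ, b γ x ≠ 0 → b δ x ≠ 0 → γ = δ
  ker : ∀ x ∈ Ω, ∀ v, (∀ γ, fderiv ℝ (l γ) x v = 0) → ∀ γ, fderiv ℝ (b γ) x v = 0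

theorem exists_bmp (htf : ∀ (γ : Γ) (n : ℕ), n ≠ 0 → γ ^ n = 1 → γ = 1) (hΩ : IsOpen Ω)
    {l : Γ → E → ℝ} (hl : PreW Γ Γ E hol Ω l) (hl0 : ∀ γ, ∀ x ∈ Ω, 0 ≤ l γ x) {x₀ : E}
    (hx₀ : x₀ ∈ Ω) : ∃ b : Γ → E → ℝ, Bmp hol Ω l b ∧ b 1 x₀ ≠ 0 := by
  classical
  have hfin : ∀ x ∈ Ω, (Function.support fun γ => l γ x).Finite := fun x hx => hl.fin1 hx
  set S₀ : Finset Γ := (hfin x₀ hx₀).toFinset with hS₀
  have hle : ∀ x ∈ Ω, ∀ T : Finset Γ, ∑ δ ∈ T, l δ x ≤ 1 := by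
    intro x hx T
    rw [← hl.one x hx, finsum_eq_sum_of_support_subset (s := (hfin x hx).toFinset ∪ T) _
      (fun γ hγ => by
        rw [Finset.mem_coe, Finset.mem_union]
        exact Or.inl ((hfin x hx).mem_toFinset.2 hγ))]
    exact Finset.sum_le_sum_of_subset_of_nonneg Finset.subset_union_right fun γ _ _ => hl0 γ x hx
  have hsum : ∑ δ ∈ S₀, l δ x₀ = 1 := by
    rw [← hl.one x₀ hx₀, finsum_eq_sum_of_support_subset (s := S₀) _ (fun γ hγ => by
      rw [Finset.mem_coe]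
      exact (hfin x₀ hx₀).mem_toFinset.2 hγ)]
  have hne : S₀.Nonempty := by
    rw [Finset.nonempty_iff_ne_empty]
    intro h
    rw [h, Finset.sum_empty] at hsum
    exact zero_ne_one hsum
  obtain ⟨δ₀, hδ₀, hmin⟩ := Finset.exists_min_image S₀ (fun δ => l δ x₀) hne
  set μ := l δ₀ x₀ with hμ
  have hμ0 : 0 < μ := by
    refine lt_of_le_of_ne (hl0 _ _ hx₀) fun h => ?_
    exact (hfin x₀ hx₀).mem_toFinset.1 hδ₀ h.symm
  set ε : ℝ := μ / (2 * (S₀.card + 1)) with hε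
  have hε0 : 0 < ε := by positivity
  have hεb : (S₀.card + 1) * ε < μ := by
    have h1 : (S₀.card + 1) * ε = μ / 2 := by
      rw [hε]
      field_simp
    rw [h1]
    exact half_lt_self hμ0
  have hεμ : ε < μ := by
    have h1 : (0 : ℝ) ≤ S₀.card * ε := by positivity
    linarith
  let θ : ContDiffBump (0 : ℝ) := ⟨ε / 2, ε, half_pos hε0, half_lt_self hε0⟩
  have hθ0 : θ (0 : ℝ) = 1 := θ.one_of_mem_closedBall (Metric.mem_closedBall_self (half_pos hε0).le)
  have hθ : ∀ t : ℝ, θ t ≠ 0 → |t| < ε := by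
    intro t ht
    have h1 : t ∈ Function.support θ := ht
    rw [θ.support_eq, Metric.mem_ball, dist_zero_right] at h1
    exact h1
  have hθs : ContDiff ℝ 1 (fun t : ℝ => θ t) := θ.contDiff
  let b : Γ → E → ℝ := fun γ x => ∏ δ ∈ S₀, θ (l (γ * δ) x - l δ x₀)
  have hb : ∀ γ x, b γ x ≠ 0 → ∀ δ ∈ S₀, |l (γ * δ) x - l δ x₀| < ε := by
    intro γ x h δ hδ
    exact hθ _ ((Finset.prod_ne_zero_iff.1 h) δ hδ)
  have hbs : ∀ γ, ContDiffOn ℝ 1 (b γ) Ω := fun γ => contDiffOn_prod fun δ _ =>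
    hθs.comp_contDiffOn ((hl.smooth (γ * δ)).sub contDiffOn_const)
  refine ⟨b, ⟨hbs, ?_, ?_, ?_, ?_⟩, ?_⟩
  · intro K hK hKΩ
    refine ((hl.fin K hK hKΩ).preimage (f := fun γ => γ * δ₀)
      ((mul_left_injective δ₀).injOn)).subset ?_
    rintro γ ⟨x, hx, hγ⟩
    refine ⟨x, hx, fun h0 => ?_⟩
    have h1 := hb γ x hγ δ₀ hδ₀
    simp only at h0
    rw [h0, zero_sub, abs_neg, abs_of_pos hμ0] at h1
    linarith
  · intro γ δ x hx
    refine Finset.prod_congr rfl fun η _ => ?_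
    have h1 := hl.equi γ (δ * η) x hx
    rw [smul_eq_mul, ← mul_assoc] at h1
    rw [h1]
  · intro x hx γ δ h1 h2
    have h3 := sep_one htf (f := fun η => l (γ * η) x) hne hmin hsum (fun T => by
        have h4 := hle x hx (T.image fun η => γ * η)
        rw [Finset.sum_image (fun a _ c _ hac => mul_left_cancel hac)] at h4
        exact h4) hεb (γ⁻¹ * δ) (fun η hη => hb γ x h1 η hη) (fun η hη => by
        have h4 := hb δ x h2 η hη
        rwa [← mul_assoc, ← mul_assoc, mul_inv_cancel, one_mul])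
    exact (inv_mul_eq_one.1 h3)
  · intro x hx v hv γ
    have hdiff : ∀ {f : E → ℝ}, ContDiffOn ℝ 1 f Ω → DifferentiableAt ℝ f x := fun hf =>
      (hf.differentiableOn one_ne_zero).differentiableAt (hΩ.mem_nhds hx)
    have h1 := path_deriv (hdiff (hbs γ)) v
    have h2 : ∀ δ ∈ S₀, HasDerivAt (fun t : ℝ => θ (l (γ * δ) (x + t • v) - l δ x₀)) 0 0 := by
      intro δ _
      have h3 := path_deriv (hdiff (hl.smooth (γ * δ))) v
      rw [hv] at h3
      have h4 := h3.sub_const (l δ x₀)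
      have h5 : DifferentiableAt ℝ (fun t : ℝ => θ t) (l (γ * δ) (x + (0 : ℝ) • v) - l δ x₀) :=
        hθs.differentiable one_ne_zero _
      have h6 := h5.hasFDerivAt.comp_hasDerivAt (0 : ℝ) h4
      rw [map_zero] at h6
      exact h6
    have h3 := HasDerivAt.fun_finsetProd h2
    simp only [smul_zero, Finset.sum_const_zero] at h3
    exact h1.unique h3
  · change ∏ δ ∈ S₀, θ (l (1 * δ) x₀ - l δ x₀) ≠ 0
    refine Finset.prod_ne_zero_iff.2 fun δ _ => ?_
    rw [one_mul, sub_self, hθ0]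
    exact one_ne_zero

/-- equivariant families of deficient rank give vector fields without zeros -/
theorem exists_field (h : AffAct Γ E hol Ω)
    (htf : ∀ (γ : Γ) (n : ℕ), n ≠ 0 → γ ^ n = 1 → γ = 1) {l : Γ → E → ℝ} (hl : RkW hol Ω l) :
    ∃ s : E → E, ContinuousOn s Ω ∧ (∀ x ∈ Ω, s x ≠ 0) ∧
      ∀ γ : Γ, ∀ x ∈ Ω, s (hol γ x) = (hol γ).linear (s x) := by
  classical
  obtain ⟨K, hK, hKΩ, hcc⟩ := h.cc
  have hbx : ∀ x : E, ∃ b : Γ → E → ℝ, x ∈ Ω → Bmp hol Ω l b ∧ b 1 x ≠ 0 := by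
    intro x
    by_cases hx : x ∈ Ω
    · obtain ⟨b, hb⟩ := exists_bmp htf h.isOpen hl.pre hl.nonneg hx
      exact ⟨b, fun _ => hb⟩
    · exact ⟨fun _ _ => 0, fun h => absurd h hx⟩
  choose bb hbb using hbx
  obtain ⟨t, htK, htcov⟩ := hK.elim_nhds_subcover (fun p => {y | bb p 1 y ≠ 0}) fun p hp => by
    have h1 : ContinuousAt (bb p 1) p :=
      ((hbb p (hKΩ hp)).1.smooth 1).continuousOn.continuousAt (h.isOpen.mem_nhds (hKΩ hp))
    exact h1.eventually_ne (hbb p (hKΩ hp)).2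
  let q : Fin t.card → E := fun c => (t.equivFin.symm c : E)
  have hq : ∀ c, q c ∈ Ω := fun c => hKΩ (htK _ (t.equivFin.symm c).2)
  let B : Fin t.card → Γ → E → ℝ := fun i => bb (q i)
  have hB : ∀ i, Bmp hol Ω l (B i) := fun i => (hbb _ (hq i)).1
  let T : Fin t.card → Fin (finrank ℝ E) → E → E := fun i k x =>
    ∑ᶠ γ, B i γ x • (hol γ).linear (finBasis ℝ E k)
  have hT : ∀ i k, ContDiffOn ℝ 1 (T i k) Ω := fun i k =>
    lf_smooth h.isOpen (hB i).smooth (hB i).fin _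
  have hTe : ∀ i k (γ : Γ), ∀ x ∈ Ω, T i k (hol γ x) = (hol γ).linear (T i k x) := by
    intro i k γ x hx
    have hfs : (Function.support fun δ : Γ => B i δ x • (hol δ).linear (finBasis ℝ E k)).Finite := by
      refine ((hB i).fin {x} isCompact_singleton (by simpa using hx)).subset fun δ hδ => ?_
      exact ⟨x, rfl, left_ne_zero_of_smul hδ⟩
    change ∑ᶠ δ, B i δ (hol γ x) • (hol δ).linear (finBasis ℝ E k) = (hol γ).linear
      (∑ᶠ δ, B i δ x • (hol δ).linear (finBasis ℝ E k))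
    rw [← finsum_comp_equiv (Equiv.mulLeft γ)]
    have e := ((hol γ).linear : E →ₗ[ℝ] E).toAddMonoidHom.map_finsum hfs
    change (hol γ).linear (∑ᶠ δ, B i δ x • (hol δ).linear (finBasis ℝ E k)) =
      ∑ᶠ δ, (hol γ).linear (B i δ x • (hol δ).linear (finBasis ℝ E k)) at e
    rw [e]
    refine finsum_congr fun δ => ?_
    rw [Equiv.coe_mulLeft, (hB i).equi γ δ x hx, map_smul, SV.lin_mul]
  have hTb : ∀ i k, ∀ x ∈ Ω, B i 1 x ≠ 0 → T i k x = B i 1 x • finBasis ℝ E k := by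
    intro i k x hx h1
    change ∑ᶠ δ, B i δ x • (hol δ).linear (finBasis ℝ E k) = _
    rw [finsum_eq_single _ (1 : Γ), map_one]
    · rfl
    · intro γ hγ
      by_contra h2
      exact hγ ((hB i).uniq x hx γ 1 (left_ne_zero_of_smul h2) h1)
  obtain ⟨c, hc⟩ := exists_section h.isOpen hT (b := fun i => B i 1) (fun i => (hB i).smooth 1)
    hTb (fun x hx => by
      obtain ⟨v, hv0, hv⟩ := hl.rank x hx
      refine ⟨v, hv0, fun i k => ?_, fun i => (hB i).ker x hx v hv 1⟩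
      have hpath : Tendsto (fun t : ℝ => x + t • v) (𝓝 0) (𝓝 x) := by
        have h1 : Continuous fun t : ℝ => x + t • v := by fun_prop
        have := h1.tendsto 0
        rwa [zero_smul, add_zero] at this
      have h1 := path_deriv (((hT i k).differentiableOn one_ne_zero).differentiableAt
        (h.isOpen.mem_nhds hx)) v
      obtain ⟨F, hF⟩ := lf_nhds (F := E) h.isOpen (hB i).fin x hx
      have h2 : ∀ γ ∈ F, HasDerivAt (fun t : ℝ => B i γ (x + t • v) •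
          (hol γ).linear (finBasis ℝ E k)) 0 0 := by
        intro γ _
        have h3 := path_deriv ((((hB i).smooth γ).differentiableOn one_ne_zero).differentiableAt
          (h.isOpen.mem_nhds hx)) v
        rw [(hB i).ker x hx v hv γ] at h3
        have h4 := h3.smul_const ((hol γ).linear (finBasis ℝ E k))
        rwa [zero_smul] at h4
      have h3 := HasDerivAt.fun_sum h2
      rw [Finset.sum_const_zero] at h3
      refine h1.unique (h3.congr_of_eventuallyEq ?_)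
      filter_upwards [hpath.eventually hF] with t ht
      exact ht.2.2 fun γ => (hol γ).linear (finBasis ℝ E k))
  refine ⟨fun x => ∑ j, ∑ k, co (c j) k • T j k x, ?_, ?_, ?_⟩
  · exact continuousOn_finsetSum _ fun j _ => continuousOn_finsetSum _ fun k _ =>
      (hT j k).continuousOn.const_smul _
  · intro x hx
    obtain ⟨γ, hγ⟩ := hcc x hx
    obtain ⟨p, hp, hxp⟩ := Set.mem_iUnion₂.1 (htcov hγ)
    have e1 : q (t.equivFin ⟨p, hp⟩) = p := by
      change ((t.equivFin.symm (t.equivFin ⟨p, hp⟩) : t) : E) = p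
      rw [Equiv.symm_apply_apply]
    have h1 := hc (hol γ x) (hKΩ hγ) (t.equivFin ⟨p, hp⟩) (by
      change bb (q (t.equivFin ⟨p, hp⟩)) 1 (hol γ x) ≠ 0
      rw [e1]
      exact hxp)
    intro h0
    refine h1 ?_
    have h2 : ∑ j, ∑ k, co (c j) k • T j k (hol γ x) =
        (hol γ).linear (∑ j, ∑ k, co (c j) k • T j k x) := by
      rw [map_sum]
      refine Finset.sum_congr rfl fun j _ => ?_
      rw [map_sum]
      refine Finset.sum_congr rfl fun k _ => ?_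
      rw [map_smul, hTe j k γ x hx]
    rw [h2]
    simp only at h0
    rw [h0, map_zero]
  · intro γ x hx
    simp only
    rw [map_sum]
    refine Finset.sum_congr rfl fun j _ => ?_
    rw [map_sum]
    refine Finset.sum_congr rfl fun k _ => ?_
    rw [map_smul, hTe j k γ x hx]

/-- the Euler characteristic vanishes if there are equivariant families of deficient rank -/
theorem chi_rank (h : AffAct Γ E hol Ω) (hfree : ∀ γ : Γ, ∀ x ∈ Ω, hol γ x = x → γ = 1)
    (htf : ∀ (γ : Γ) (n : ℕ), n ≠ 0 → γ ^ n = 1 → γ = 1) {l : Γ → E → ℝ} (hl : RkW hol Ω l)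
    (hD : Fund hol Ω D) : chi D = 0 := by
  obtain ⟨s, hs, hs0, hse⟩ := exists_field h htf hl
  exact chi_field h hfree hs hs0 hse hD

end Run7.h262.EC
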