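import Pool.Agent.Run7.h262.EC.Ex
import Pool.Agent.Run7.h262.EC.Count

/-!
The Euler characteristic of a quotient of a domain by a group of affine maps with a normalised
lattice of affine vector fields.
-/

set_option autoImplicit false
set_option linter.unusedSectionVars false

open Filter Topology

namespace Run7.h262.EC

open Run7.h262.SV Run7.h262.TB

variable {Γ E : Type} [Group Γ] [NormedAddCommGroup E] [NormedSpace ℝ E] [FiniteDimensional ℝ E]
  {hol : Γ →* (E ≃ᵃ[ℝ] E)} {A : Subgroup Γ} {Ω D : Set E}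

/-- a polyhedral fundamental set -/
structure Fund (hol : Γ →* (E ≃ᵃ[ℝ] E)) (Ω D : Set E) : Prop where
  con : Con fun x => x ∈ D
  cpt : IsCompact (closure D)
  sub : closure D ⊆ Ω
  one : ∀ x ∈ Ω, ∃! γ : Γ, hol γ x ∈ D

/-- lattices of vector fields normalised by the group -/
structure Lat (hol : Γ →* (E ≃ᵃ[ℝ] E)) (A : Subgroup Γ) (hA : ∀ a ∈ A, ∀ b ∈ A, a * b = b * a)
    (Λ : AddSubgroup (AA E)) : Prop where
  sub : ∀ X ∈ Λ, X ∈ LL hol A hA
  conj : ∀ γ : Γ, ∀ X ∈ Λ, hat (hol γ) * X * hat (hol γ⁻¹) ∈ Λ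
  inj : ∀ X ∈ Λ, NormedSpace.exp X = 1 → X = 0

/-- the groups containing the given one -/
noncomputable def GN (hA : ∀ a ∈ A, ∀ b ∈ A, a * b = b * a) (hN : A.Normal)
    {Λ : AddSubgroup (AA E)} (hΛ : Lat hol A hA Λ) (N : ℕ) : Subgroup (E ≃ᵃ[ℝ] E) where
  carrier := {g | ∃ γ : Γ, ∃ X ∈ HH hol A hA, (N : ℝ) • X ∈ Λ ∧ g = hol γ * ex X}
  one_mem' := by
    refine ⟨1, 0, Submodule.zero_mem _, ?_, ?_⟩
    · rw [smul_zero]
      exact Λ.zero_mem
    · rw [map_one, ex_zero, one_mul]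
  mul_mem' := by
    rintro _ _ ⟨γ₁, X₁, hX₁, h1, rfl⟩ ⟨γ₂, X₂, hX₂, h2, rfl⟩
    have h3 := HH_conj hol A hA hN γ₂⁻¹ hX₁
    refine ⟨γ₁ * γ₂, _, Submodule.add_mem _ h3 hX₂, ?_, ?_⟩
    · rw [smul_add]
      refine Λ.add_mem ?_ h2
      have := hΛ.conj γ₂⁻¹ _ h1
      rwa [mul_smul_comm, smul_mul_assoc] at this
    · rw [ex_add hA h3 hX₂, ← ex_conj hA hN hX₁, map_mul, inv_inv, map_inv]
      group
  inv_mem' := by
    rintro _ ⟨γ, X, hX, h1, rfl⟩
    have h2 := Submodule.neg_mem _ hX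
    have h3 := HH_conj hol A hA hN γ h2
    refine ⟨γ⁻¹, _, h3, ?_, ?_⟩
    · have h4 : (N : ℝ) • -X ∈ Λ := by
        rw [smul_neg]
        exact Λ.neg_mem h1
      have := hΛ.conj γ _ h4
      rwa [mul_smul_comm, smul_mul_assoc] at this
    · rw [← ex_conj hA hN h2, ex_neg hA hX, map_inv]
      group

theorem mem_GN {hA : ∀ a ∈ A, ∀ b ∈ A, a * b = b * a} {hN : A.Normal}
    {Λ : AddSubgroup (AA E)} {hΛ : Lat hol A hA Λ} {N : ℕ} {g : E ≃ᵃ[ℝ] E} :
    g ∈ GN hA hN hΛ N ↔ ∃ γ : Γ, ∃ X ∈ HH hol A hA, (N : ℝ) • X ∈ Λ ∧ g = hol γ * ex X := Iff.rfl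

theorem lat_cpt (hA : ∀ a ∈ A, ∀ b ∈ A, a * b = b * a) {Λ : AddSubgroup (AA E)}
    (hΛ : Lat hol A hA Λ) :
    ∃ Q : Set (AA E), IsCompact Q ∧ Q ⊆ HH hol A hA ∧
      ∀ (X : AA E) (N : ℕ), N ≠ 0 → (N : ℝ) • X ∈ Λ → ∃ q ∈ Q, X - q ∈ Λ := by
  set V := Submodule.span ℝ (Λ : Set (AA E)) with hV
  obtain ⟨Q, hQ, hQL⟩ := span_cpt (V := V) (Λ.comap V.subtype.toAddMonoidHom)
    Submodule.span_span_coe_preimage
  refine ⟨V.subtypeL '' Q, hQ.image V.subtypeL.continuous, ?_, ?_⟩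
  · rintro _ ⟨q, _, rfl⟩
    exact Submodule.span_mono (fun X hX => hΛ.sub X hX) q.2
  · intro X N hN hX
    have hXV : X ∈ V := by
      have h1 : X = (N : ℝ)⁻¹ • ((N : ℝ) • X) := by
        rw [smul_smul, inv_mul_cancel₀ (Nat.cast_ne_zero.2 hN), one_smul]
      rw [h1]
      exact Submodule.smul_mem _ _ (Submodule.subset_span hX)
    obtain ⟨q, hq, h⟩ := hQL ⟨X, hXV⟩
    exact ⟨q, ⟨q, hq, rfl⟩, h⟩

/-- the Euler characteristic vanishes -/
theorem chi_zero (h : AffAct Γ E hol Ω) (hfree : ∀ γ : Γ, ∀ x ∈ Ω, hol γ x = x → γ = 1)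
    (hA : ∀ a ∈ A, ∀ b ∈ A, a * b = b * a) (hN : A.Normal) {Λ : AddSubgroup (AA E)}
    (hΛ : Lat hol A hA Λ) (hne : ∃ Y ∈ Λ, Y ≠ 0) (hD : Fund hol Ω D) : chi D = 0 := by
  classical
  have hinj : Function.Injective hol := by
    intro γ δ hγδ
    obtain ⟨x, hx⟩ := h.nonempty
    have h1 : γ⁻¹ * δ = 1 := by
      refine hfree _ x hx ?_
      rw [map_mul, ← hγδ, ← map_mul, inv_mul_cancel, map_one]
      rfl
    rw [inv_mul_eq_one] at h1
    exact h1
  have hDΩ : D ⊆ Ω := subset_closure.trans hD.sub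
  obtain ⟨Q, hQ, hQH, hQL⟩ := lat_cpt hA hΛ
  have hflow : ∀ X ∈ HH hol A hA, ∀ x ∈ Ω, ex X x ∈ Ω := by
    intro X hX x hx
    rw [ex_apply (HH_snd hol A hA hX)]
    exact h.flow_mem hA hN hX hx
  have hsm : ∀ X ∈ Λ, X ∈ HH hol A hA := fun X hX => Submodule.subset_span (hΛ.sub X hX)
  -- the compact set
  set K : Set E := closure D ∪ (fun p : AA E × E => actp (NormedSpace.exp p.1) p.2) ''
    (Q ×ˢ closure D) with hK
  have hKc : IsCompact K := by
    refine hD.cpt.union ((hQ.prod hD.cpt).image ?_)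
    exact actp_cont.comp (continuous_snd.prodMk (exp_cont'.comp continuous_fst))
  have hKΩ : K ⊆ Ω := by
    rintro _ (hx | ⟨⟨q, x⟩, ⟨hq, hx⟩, rfl⟩)
    · exact hD.sub hx
    · exact h.flow_mem hA hN (hQH hq) (hD.sub hx)
  have hF0 := h.pd K hKc hKΩ
  have hKD : ∀ x ∈ D, x ∈ K := fun x hx => Or.inl (subset_closure hx)
  have hKQ : ∀ q ∈ Q, ∀ x ∈ D, ex q x ∈ K := by
    intro q hq x hx
    refine Or.inr ⟨(q, x), ⟨hq, subset_closure hx⟩, ?_⟩
    rw [ex_apply (HH_snd hol A hA (hQH hq))]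
  -- decomposition of the elements
  have hdec : ∀ N : ℕ, N ≠ 0 → ∀ g ∈ GN hA hN hΛ N, ∃ γ : Γ, ∃ q ∈ Q, (N : ℝ) • q ∈ Λ ∧
      g = hol γ * ex q := by
    rintro N hN0 _ ⟨γ, X, hX, hNX, rfl⟩
    obtain ⟨q, hq, hl⟩ := hQL X N hN0 hNX
    obtain ⟨-, h2, a, ha, h3⟩ := hΛ.sub _ hl
    have hqN : (N : ℝ) • q ∈ Λ := by
      have h4 : (N : ℝ) • q = (N : ℝ) • X - N • (X - q) := by
        rw [← Nat.cast_smul_eq_nsmul ℝ, smul_sub]
        abel
      rw [h4]
      exact Λ.sub_mem hNX (Λ.nsmul_mem hl N)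
    refine ⟨γ * a, q, hq, hqN, ?_⟩
    have h5 : X = (X - q) + q := by abel
    have h6 : ex (X - q) = hol a := hat_inj (by rw [hat_ex h2, h3])
    conv_lhs => rw [h5]
    rw [ex_add hA (hsm _ hl) (hQH hq), h6, map_mul, mul_assoc]
  have hpres : ∀ N : ℕ, ∀ g ∈ GN hA hN hΛ N, ∀ x ∈ Ω, g x ∈ Ω := by
    rintro N _ ⟨γ, X, hX, hNX, rfl⟩ x hx
    exact h.inv γ _ (hflow X hX x hx)
  have hsep := LL_sep h hA
  obtain ⟨ε, hε, hεL⟩ := hsep
  -- finiteness
  have hFfin : ∀ N : ℕ, N ≠ 0 → {g | g ∈ GN hA hN hΛ N ∧ ∃ x ∈ D, g x ∈ D}.Finite := by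
    intro N hN0
    have hNpos : (0 : ℝ) < N := Nat.cast_pos.2 (Nat.pos_of_ne_zero hN0)
    have hQf : (Q ∩ {q | (N : ℝ) • q ∈ Λ}).Finite := by
      refine sep_finite hQ (div_pos hε hNpos) ?_
      intro x hx y hy hxy
      have h1 : (N : ℝ) • (x - y) ∈ Λ := by
        rw [smul_sub]
        exact Λ.sub_mem hx hy
      have h2 : (N : ℝ) • (x - y) = 0 := by
        refine hεL _ (hΛ.sub _ h1) ?_
        rw [norm_smul, Real.norm_of_nonneg hNpos.le]
        rwa [lt_div_iff₀ hNpos, mul_comm] at hxy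
      have h3 : x - y = 0 := (smul_eq_zero.1 h2).resolve_left hNpos.ne'
      exact sub_eq_zero.1 h3
    refine ((hF0.prod hQf).image fun p : Γ × AA E => hol p.1 * ex p.2).subset ?_
    rintro g ⟨hg, x, hx, hgx⟩
    obtain ⟨γ, q, hq, hqN, rfl⟩ := hdec N hN0 g hg
    exact ⟨(γ, q), ⟨⟨ex q x, hKQ q hq x hx, hKD _ hgx⟩, hq, hqN⟩, rfl⟩
  -- the bound for the stabilisers
  set C : ℕ := hF0.toFinset.card with hC
  have hstab : ∀ N : ℕ, N ≠ 0 → ∀ x ∈ D, ∀ T : Finset (E ≃ᵃ[ℝ] E),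
      (∀ g, g ∈ T ↔ g ∈ GN hA hN hΛ N ∧ g x = x) → T.card ≤ C := by
    intro N hN0 x hx T hT
    have hNpos : (0 : ℝ) < N := Nat.cast_pos.2 (Nat.pos_of_ne_zero hN0)
    have h1 : ∀ g : E ≃ᵃ[ℝ] E, ∃ (γ : Γ) (q : AA E), g ∈ T →
        q ∈ Q ∧ (N : ℝ) • q ∈ Λ ∧ g = hol γ * ex q := by
      intro g
      by_cases hg : g ∈ T
      · obtain ⟨γ, q, hq, hqN, h2⟩ := hdec N hN0 g ((hT g).1 hg).1
        exact ⟨γ, q, fun _ => ⟨hq, hqN, h2⟩⟩
      · exact ⟨1, 0, fun h => absurd h hg⟩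
    choose c q hc using h1
    refine Finset.card_le_card_of_injOn c ?_ ?_
    · intro g hg
      obtain ⟨h2, h3, h4⟩ := hc g hg
      rw [Set.Finite.coe_toFinset]
      refine ⟨ex (q g) x, hKQ _ h2 x hx, ?_⟩
      have h5 := ((hT g).1 hg).2
      have h6 : hol (c g) (ex (q g) x) = g x := by
        conv_rhs => rw [h4]
        rfl
      rw [h6, h5]
      exact hKD x hx
    · intro g hg g' hg' hgg
      obtain ⟨h2, h3, h4⟩ := hc g hg
      obtain ⟨k2, k3, k4⟩ := hc g' hg'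
      have h5 : hol (c g) (ex (q g) x) = x := by
        have := ((hT g).1 hg).2
        rw [h4] at this
        exact this
      have k5 : hol (c g') (ex (q g') x) = x := by
        have := ((hT g').1 hg').2
        rw [k4] at this
        exact this
      have h6 : ex (q g) x = ex (q g') x := by
        refine (hol (c g)).injective ?_
        rw [h5, hgg, k5]
      set w := -(q g') + q g with hw
      have hwH : w ∈ HH hol A hA := Submodule.add_mem _ (Submodule.neg_mem _ (hQH k2)) (hQH h2)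
      have hwx : ex w x = x := by
        rw [hw, ex_add hA (Submodule.neg_mem _ (hQH k2)) (hQH h2), ex_neg hA (hQH k2)]
        change (ex (q g'))⁻¹ (ex (q g) x) = x
        rw [h6]
        exact (ex (q g')).symm_apply_apply x
      have hwn : ∀ n : ℕ, ex ((n : ℝ) • w) x = x := by
        intro n
        induction n with
        | zero =>
          rw [Nat.cast_zero, zero_smul, ex_zero]
          rfl
        | succ n ih =>
          rw [Nat.cast_succ, add_smul, one_smul, ex_add hA (Submodule.smul_mem _ _ hwH) hwH]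
          change ex ((n : ℝ) • w) (ex w x) = x
          rw [hwx, ih]
      have hwΛ : (N : ℝ) • w ∈ Λ := by
        rw [hw, smul_add, smul_neg]
        exact Λ.add_mem (Λ.neg_mem k3) h3
      obtain ⟨-, h7, a, ha, h8⟩ := hΛ.sub _ hwΛ
      have h9 : ex ((N : ℝ) • w) = hol a := hat_inj (by rw [hat_ex h7, h8])
      have h10 : a = 1 := hfree a x (hDΩ hx) (by rw [← h9, hwn])
      rw [h10, map_one, map_one] at h8
      have h11 : w = 0 := (smul_eq_zero.1 (hΛ.inj _ hwΛ h8)).resolve_left hNpos.ne'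
      have h12 : q g = q g' := by
        have : q g = q g' + w := by
          rw [hw]
          abel
        rw [this, h11, add_zero]
      rw [h4, k4, hgg, h12]
  -- comparison of the numbers
  have hmv : ∀ y ∈ Ω, ∃ γ : Γ, hol γ y ∈ D := fun y hy => (hD.one y hy).exists
  have huniq : ∀ y ∈ D, ∀ γ : Γ, hol γ y ∈ D → γ = 1 := by
    intro y hy γ hγ
    refine (hD.one y (hDΩ hy)).unique hγ ?_
    rw [map_one]
    exact hy
  have hle : ∀ N : ℕ, ∀ x ∈ D, ∀ y ∈ D, ∀ T T' : Finset (E ≃ᵃ[ℝ] E),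
      (∀ g, g ∈ T ↔ g ∈ GN hA hN hΛ N ∧ g x ∈ D) →
      (∀ g, g ∈ T' ↔ g ∈ GN hA hN hΛ N ∧ g y ∈ D) → T.card ≤ T'.card := by
    intro N x hx y hy T T' hT hT'
    have h1 : ∀ g : E ≃ᵃ[ℝ] E, ∃ γ : Γ, g ∈ T → hol γ (g y) ∈ D := by
      intro g
      by_cases hg : g ∈ T
      · obtain ⟨γ, hγ⟩ := hmv (g y) (hpres N g ((hT g).1 hg).1 y (hDΩ hy))
        exact ⟨γ, fun _ => hγ⟩
      · exact ⟨1, fun h => absurd h hg⟩
    choose c hc using h1
    have hhol : ∀ γ : Γ, hol γ ∈ GN hA hN hΛ N := fun γ =>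
      ⟨γ, 0, Submodule.zero_mem _, by rw [smul_zero]; exact Λ.zero_mem, by rw [ex_zero, mul_one]⟩
    refine Finset.card_le_card_of_injOn (fun g => hol (c g) * g) ?_ ?_
    · intro g hg
      exact (hT' _).2 ⟨Subgroup.mul_mem _ (hhol _) ((hT g).1 hg).1, hc g hg⟩
    · intro g hg g' hg' hgg
      have h2 : g' = hol ((c g')⁻¹ * c g) * g := by
        rw [map_mul, mul_assoc, map_inv]
        change _ = (hol (c g'))⁻¹ * (hol (c g) * g)
        change hol (c g) * g = hol (c g') * g' at hgg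
        rw [hgg]
        group
      have h3 : hol ((c g')⁻¹ * c g) (g x) ∈ D := by
        have := ((hT g').1 hg').2
        rw [h2] at this
        exact this
      have h4 := huniq (g x) ((hT g).1 hg).2 _ h3
      rw [h4, map_one, one_mul] at h2
      exact h2.symm
  -- large indices
  obtain ⟨Y, hY, hY0⟩ := hne
  have hYH := hsm Y hY
  obtain ⟨ε', hε', hsmall⟩ := ex_small h hinj
  have hlarge : ∀ k : ℕ, ∃ N : ℕ, N ≠ 0 ∧ ∀ x ∈ D, ∀ T : Finset (E ≃ᵃ[ℝ] E),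
      (∀ g, g ∈ T ↔ g ∈ GN hA hN hΛ N ∧ g x ∈ D) → k ≤ T.card := by
    intro k
    obtain ⟨N, hN1⟩ := exists_nat_gt ((k : ℝ) * ‖Y‖ / ε')
    have hNpos : (0 : ℝ) < N := lt_of_le_of_lt (by positivity) hN1
    have hN0 : N ≠ 0 := by
      rintro rfl
      rw [Nat.cast_zero] at hNpos
      exact lt_irrefl _ hNpos
    refine ⟨N, hN0, fun x hx T hT => ?_⟩
    have hiN : ∀ i : ℕ, ex (((i : ℝ) / N) • Y) ∈ GN hA hN hΛ N := by
      intro i
      refine ⟨1, _, Submodule.smul_mem _ _ hYH, ?_, by rw [map_one, one_mul]⟩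
      rw [smul_smul, mul_div_cancel₀ _ hNpos.ne', Nat.cast_smul_eq_nsmul ℝ]
      exact Λ.nsmul_mem hY i
    have h1 : ∀ i : ℕ, ∃ γ : Γ, hol γ (ex (((i : ℝ) / N) • Y) x) ∈ D := fun i =>
      hmv _ (hpres N _ (hiN i) x (hDΩ hx))
    choose c hc using h1
    have hhol : ∀ γ : Γ, hol γ ∈ GN hA hN hΛ N := fun γ =>
      ⟨γ, 0, Submodule.zero_mem _, by rw [smul_zero]; exact Λ.zero_mem, by rw [ex_zero, mul_one]⟩
    have h2 : (Finset.range k).card ≤ T.card := by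
      refine Finset.card_le_card_of_injOn (fun i => hol (c i) * ex (((i : ℝ) / N) • Y)) ?_ ?_
      · intro i _
        exact (hT _).2 ⟨Subgroup.mul_mem _ (hhol _) (hiN i), hc i⟩
      · intro i hi j hj hij
        rw [Finset.coe_range, Set.mem_Iio] at hi hj
        change hol (c i) * ex (((i : ℝ) / N) • Y) = hol (c j) * ex (((j : ℝ) / N) • Y) at hij
        set w : AA E := (((i : ℝ) - j) / N) • Y with hw
        have h3 : ex w = hol ((c i)⁻¹ * c j) := by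
          have h4 : w = ((i : ℝ) / N) • Y + -(((j : ℝ) / N) • Y) := by
            rw [hw]
            module
          rw [h4, ex_add hA (Submodule.smul_mem _ _ hYH)
            (Submodule.neg_mem _ (Submodule.smul_mem _ _ hYH)),
            ex_neg hA (Submodule.smul_mem _ _ hYH), map_mul, map_inv]
          have h5 : ex (((i : ℝ) / N) • Y) = (hol (c i))⁻¹ * (hol (c j) * ex (((j : ℝ) / N) • Y)) := by
            rw [← hij]
            group
          rw [h5]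
          group
        have h6 : w = 0 := by
          refine hsmall w (HH_snd hol A hA (Submodule.smul_mem _ _ hYH)) ?_ _ h3
          rw [hw, norm_smul, Real.norm_eq_abs, abs_div, abs_of_pos hNpos]
          rw [div_lt_iff₀ hε'] at hN1
          have h7 : |(i : ℝ) - j| ≤ k := by
            rw [abs_le]
            have e1 : (i : ℝ) < k := Nat.cast_lt.2 hi
            have e2 : (j : ℝ) < k := Nat.cast_lt.2 hj
            have e3 : (0 : ℝ) ≤ i := Nat.cast_nonneg i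
            have e4 : (0 : ℝ) ≤ j := Nat.cast_nonneg j
            constructor <;> linarith
          calc |(i : ℝ) - j| / N * ‖Y‖ ≤ k / N * ‖Y‖ := by gcongr
            _ = k * ‖Y‖ / N := by ring
            _ < ε' := by rwa [div_lt_iff₀ hNpos, mul_comm ε']
        rw [hw, smul_eq_zero] at h6
        have h7 := h6.resolve_right hY0
        rw [div_eq_zero_iff] at h7
        have h8 := h7.resolve_right hNpos.ne'
        exact Nat.cast_injective (R := ℝ) (sub_eq_zero.1 h8)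
    rwa [Finset.card_range] at h2
  -- conclusion
  obtain ⟨x₀, hx₀⟩ : D.Nonempty := by
    obtain ⟨x, hx⟩ := h.nonempty
    obtain ⟨γ, hγ⟩ := hmv x hx
    exact ⟨_, hγ⟩
  by_contra hchi
  obtain ⟨N, hN0, hNk⟩ := hlarge (((C.factorial : ℤ) * chi D).natAbs + 1)
  have hfin := hFfin N hN0
  have hTf : ∀ x ∈ D, {g | g ∈ GN hA hN hΛ N ∧ g x ∈ D}.Finite := fun x hx =>
    hfin.subset fun g hg => ⟨hg.1, x, hx, hg.2⟩
  set T₀ := (hTf x₀ hx₀).toFinset with hT₀
  have hT₀' : ∀ g, g ∈ T₀ ↔ g ∈ GN hA hN hΛ N ∧ g x₀ ∈ D := fun g => by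
    rw [hT₀, Set.Finite.mem_toFinset]
    rfl
  have hdvd := chi_dvd (GN hA hN hΛ N) hfin.toFinset D hD.con
    (fun g => by rw [Set.Finite.mem_toFinset]; rfl) T₀.card C
    (fun x hx T hT => le_antisymm (hle N x hx x₀ hx₀ T T₀ hT hT₀')
      (hle N x₀ hx₀ x hx T₀ T hT₀' hT))
    (hstab N hN0)
  have h1 := hNk x₀ hx₀ T₀ hT₀'
  have h2 : ((C.factorial : ℤ) * chi D) ≠ 0 :=
    mul_ne_zero (Nat.cast_ne_zero.2 (Nat.factorial_ne_zero C)) hchi
  have h3 := Int.natAbs_dvd_natAbs.2 hdvd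
  rw [Int.natAbs_natCast] at h3
  have h4 := Nat.le_of_dvd (Int.natAbs_pos.2 h2) h3
  omega

end Run7.h262.EC
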