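import Pool.Agent.Run7.h262.EC.Wt
import Pool.Agent.Run7.h262.EC.Grp

/-!
Infinite commutative normal subgroups give normalised lattices of affine vector fields, after
passing to a subgroup of finite index.
-/

set_option autoImplicit false
set_option linter.unusedSectionVars false

open Filter Topology

namespace Run7.h262.EC

open Run7.h262.SV Run7.h262.TB

variable {Γ E : Type} [Group Γ] [NormedAddCommGroup E] [NormedSpace ℝ E] [FiniteDimensional ℝ E]
  {hol : Γ →* (E ≃ᵃ[ℝ] E)} {A : Subgroup Γ} {Ω D : Set E}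

theorem AffAct.inj (h : AffAct Γ E hol Ω) (hfree : ∀ γ : Γ, ∀ x ∈ Ω, hol γ x = x → γ = 1) :
    Function.Injective hol := by
  intro γ δ hγδ
  obtain ⟨x, hx⟩ := h.nonempty
  have h1 : γ⁻¹ * δ = 1 := by
    refine hfree _ x hx ?_
    rw [map_mul, ← hγδ, ← map_mul, inv_mul_cancel, map_one]
    rfl
  rw [inv_mul_eq_one] at h1
  exact h1

/-- elements of infinite order -/
theorem exists_free (h : AffAct Γ E hol Ω) (hinj : Function.Injective hol)
    (hA : ∀ a ∈ A, ∀ b ∈ A, a * b = b * a) (hAi : Infinite A) :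
    ∃ Y ∈ LL hol A hA, ∀ n : ℕ, n ≠ 0 → NormedSpace.exp ((n : ℝ) • Y) ≠ 1 := by
  classical
  by_contra hcon
  push Not at hcon
  obtain ⟨ε, hε, hεL⟩ := LL_sep h hA
  obtain ⟨ι, _, B, hB, hr⟩ := exists_lattice_basis (V := HH hol A hA)
    ((LL hol A hA).comap (HH hol A hA).subtype.toAddMonoidHom)
    ⟨ε, hε, fun l hl hls => Subtype.ext (hεL _ hl hls)⟩ Submodule.span_span_coe_preimage
  choose n hn0 hn using fun i => hcon (B i : AA E) (hB i)
  -- the kernel
  let U : AddSubgroup (HH hol A hA) :=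
    { carrier := {X | ex (X : AA E) = 1}
      add_mem' := fun {X Y} hX hY => by
        change ex ((X : AA E) + (Y : AA E)) = 1
        rw [ex_add hA X.2 Y.2, hX, hY, one_mul]
      zero_mem' := ex_zero
      neg_mem' := fun {X} hX => by
        change ex (-(X : AA E)) = 1
        rw [ex_neg hA X.2, hX, inv_one] }
  set M : ℕ := ∏ i, n i with hM
  have hM0 : 0 < M := Finset.prod_pos fun i _ => Nat.pos_of_ne_zero (hn0 i)
  have hMB : ∀ i, M • B i ∈ U := by
    intro i
    obtain ⟨k, hk⟩ := Finset.dvd_prod_of_mem n (Finset.mem_univ i)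
    have h1 : n i • B i ∈ U := by
      change ex ((n i • B i : HH hol A hA) : AA E) = 1
      have h2 : ((n i • B i : HH hol A hA) : AA E) = (n i : ℝ) • (B i : AA E) := by
        rw [Nat.cast_smul_eq_nsmul]
        rfl
      refine hat_inj ?_
      rw [map_one, hat_ex (HH_snd hol A hA (n i • B i : HH hol A hA).2), h2]
      exact hn i
    rw [hM, hk, mul_comm, mul_nsmul']
    exact U.nsmul_mem h1 k
  let R : (ι → Fin M) → (E ≃ᵃ[ℝ] E) := fun j => ex ((∑ i, (j i : ℕ) • B i : HH hol A hA) : AA E)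
  have hR : ∀ X ∈ LL hol A hA, ex X ∈ Set.range R := by
    intro X hX
    have hXH : X ∈ HH hol A hA := Submodule.subset_span hX
    choose k hk using hr ⟨X, hXH⟩ hX
    have e1 : (⟨X, hXH⟩ : HH hol A hA) = ∑ i, k i • B i := by
      conv_lhs => rw [← B.sum_repr ⟨X, hXH⟩]
      refine Finset.sum_congr rfl fun i _ => ?_
      rw [hk, Int.cast_smul_eq_zsmul]
    have hmod : ∀ i, 0 ≤ k i % M ∧ k i % M < M := fun i =>
      ⟨Int.emod_nonneg _ (by exact_mod_cast hM0.ne'), Int.emod_lt_of_pos _ (by exact_mod_cast hM0)⟩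
    let j : ι → Fin M := fun i => ⟨(k i % M).toNat, by
      have := hmod i
      omega⟩
    refine ⟨j, ?_⟩
    have e2 : (⟨X, hXH⟩ : HH hol A hA) = (∑ i, (j i : ℕ) • B i) + ∑ i, (k i / M) • (M • B i) := by
      rw [e1, ← Finset.sum_add_distrib]
      refine Finset.sum_congr rfl fun i _ => ?_
      have e3 : ((j i : ℕ) : ℤ) = k i % M := Int.toNat_of_nonneg (hmod i).1
      rw [← natCast_zsmul (B i) (j i : ℕ), e3, ← natCast_zsmul (B i) M, smul_smul, ← add_zsmul]
      congr 1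
      have := Int.emod_add_mul_ediv (k i) M
      rw [mul_comm (k i / M)]
      exact this.symm
    have e4 : (∑ i, (k i / M) • (M • B i)) ∈ U :=
      U.sum_mem fun i _ => U.zsmul_mem (hMB i) _
    have e5 : X = ((∑ i, (j i : ℕ) • B i : HH hol A hA) : AA E) +
        ((∑ i, (k i / M) • (M • B i) : HH hol A hA) : AA E) := congrArg Subtype.val e2
    have e6 : ex ((∑ i, (k i / M) • (M • B i) : HH hol A hA) : AA E) = 1 := e4
    conv_rhs => rw [e5, ex_add hA (Subtype.property _) (Subtype.property _), e6, mul_one]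
  have hsqf : ((fun a => a * a) '' (A : Set Γ)).Finite := by
    refine Set.Finite.of_finite_image (f := hol) ((Set.finite_range R).subset ?_)
      hinj.injOn
    rintro _ ⟨_, ⟨a, ha, rfl⟩, rfl⟩
    obtain ⟨X, hX, hX1⟩ := LL_square hol A hA ha
    have h1 : ex X = hol (a * a) := hat_inj (by rw [hat_ex hX.2.1, hX1])
    rw [← h1]
    exact hR X hX
  have hfin : Finite ((fun a => a * a) '' (A : Set Γ)) := hsqf.to_subtype
  let f : A → ((fun a => a * a) '' (A : Set Γ)) := fun a => ⟨a * a, ⟨a, a.2, rfl⟩⟩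
  obtain ⟨y, hy⟩ := Finite.exists_infinite_fiber f
  obtain ⟨⟨a₀, ha₀⟩⟩ := (inferInstance : Nonempty (f ⁻¹' {y}))
  have htwo := two_finite hinj hA
  have hfin2 : Finite {a | a ∈ A ∧ a * a = 1} := htwo.to_subtype
  let g : (f ⁻¹' {y}) → {a | a ∈ A ∧ a * a = 1} := fun b =>
    ⟨(a₀ : Γ)⁻¹ * (b : A), A.mul_mem (A.inv_mem a₀.2) (b : A).2, by
      have h1 : ((b : A) : Γ) * (b : A) = a₀ * a₀ :=
        (congrArg Subtype.val b.2).trans (congrArg Subtype.val ha₀).symm
      have h2 := hA _ (A.inv_mem a₀.2) _ (b : A).2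
      calc (a₀ : Γ)⁻¹ * (b : A) * ((a₀ : Γ)⁻¹ * (b : A))
          = (a₀ : Γ)⁻¹ * ((b : A) * (a₀ : Γ)⁻¹) * (b : A) := by group
        _ = (a₀ : Γ)⁻¹ * (a₀ : Γ)⁻¹ * (((b : A) : Γ) * (b : A)) := by rw [← h2]; group
        _ = 1 := by rw [h1]; group⟩
  have hginj : Function.Injective g := by
    intro b c hbc
    have h1 : (a₀ : Γ)⁻¹ * (b : A) = (a₀ : Γ)⁻¹ * (c : A) := congrArg Subtype.val hbc
    exact Subtype.ext (Subtype.ext (mul_left_cancel h1))
  have := Finite.of_injective g hginj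
  exact not_finite (f ⁻¹' {y})

/-- nilpotent elements with trivial exponential vanish -/
theorem nil_exp {X : AA E} (hX : IsNilpotent X) (h : NormedSpace.exp X = 1) : X = 0 := by
  obtain ⟨m, hm⟩ := hX
  refine ContinuousLinearMap.ext fun w => ?_
  refine TB.exp_fix m w ?_ ?_
  · rw [hm]
    rfl
  · rw [h]
    rfl

/-- normalised lattices exist when the action on the algebra is unipotent -/
theorem exists_lat (h : AffAct Γ E hol Ω) (hinj : Function.Injective hol)
    (hA : ∀ a ∈ A, ∀ b ∈ A, a * b = b * a) (hN : A.Normal) (hAi : Infinite A)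
    (hW : ∀ γ : Γ, ∀ X ∈ SS hol A, IsNilpotent (hat (hol γ) * X * hat (hol γ⁻¹) - X)) :
    ∃ Λ : AddSubgroup (AA E), Lat hol A hA Λ ∧ ∃ Y ∈ Λ, Y ≠ 0 := by
  by_cases hnil : ∃ X ∈ LL hol A hA, IsNilpotent X ∧ X ≠ 0
  · obtain ⟨X₀, hX₀, hX₀n, hX₀0⟩ := hnil
    let Λ : AddSubgroup (AA E) :=
      { carrier := {X | X ∈ LL hol A hA ∧ IsNilpotent X}
        add_mem' := fun {X Y} hX hY => ⟨(LL hol A hA).add_mem hX.1 hY.1,
          Commute.isNilpotent_add (SS_comm hol A hA hX.1.1 hY.1.1) hX.2 hY.2⟩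
        zero_mem' := ⟨(LL hol A hA).zero_mem, IsNilpotent.zero⟩
        neg_mem' := fun {X} hX => ⟨(LL hol A hA).neg_mem hX.1, hX.2.neg⟩ }
    refine ⟨Λ, ⟨fun X hX => hX.1, fun γ X hX => ⟨LL_conj hol A hA hN γ hX.1, ?_⟩,
      fun X hX => nil_exp hX.2⟩, X₀, ⟨hX₀, hX₀n⟩, hX₀0⟩
    obtain ⟨m, hm⟩ := hX.2
    refine ⟨m, ?_⟩
    have key : ∀ k : ℕ, (hat (hol γ) * X * hat (hol γ⁻¹)) ^ k =
        hat (hol γ) * X ^ k * hat (hol γ⁻¹) := by
      intro k
      induction k with
      | zero => rw [pow_zero, pow_zero, mul_one, hat_mul_inv]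
      | succ k ih =>
        rw [pow_succ, ih, pow_succ]
        calc hat (hol γ) * X ^ k * hat (hol γ⁻¹) * (hat (hol γ) * X * hat (hol γ⁻¹))
            = hat (hol γ) * X ^ k * (hat (hol γ⁻¹) * hat (hol γ)) * X * hat (hol γ⁻¹) := by
              simp only [mul_assoc]
          _ = hat (hol γ) * (X ^ k * X) * hat (hol γ⁻¹) := by
              rw [hat_inv_mul, mul_one]
              simp only [mul_assoc]
    rw [key, hm, mul_zero, zero_mul]
  · push Not at hnil
    have hcen : ∀ γ : Γ, ∀ X ∈ LL hol A hA, hat (hol γ) * X * hat (hol γ⁻¹) = X := by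
      intro γ X hX
      refine sub_eq_zero.1 (hnil _ ((LL hol A hA).sub_mem (LL_conj hol A hA hN γ hX) hX)
        (hW γ X hX.1))
    obtain ⟨Y, hY, hYn⟩ := exists_free h hinj hA hAi
    have hY0 : Y ≠ 0 := by
      rintro rfl
      refine hYn 1 one_ne_zero ?_
      rw [smul_zero, NormedSpace.exp_zero]
    refine ⟨AddSubgroup.zmultiples Y, ⟨?_, ?_, ?_⟩, Y, AddSubgroup.mem_zmultiples Y, hY0⟩
    · intro X hX
      obtain ⟨k, rfl⟩ := AddSubgroup.mem_zmultiples_iff.1 hX
      exact (LL hol A hA).zsmul_mem hY k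
    · intro γ X hX
      have hX' : X ∈ LL hol A hA := by
        obtain ⟨k, rfl⟩ := AddSubgroup.mem_zmultiples_iff.1 hX
        exact (LL hol A hA).zsmul_mem hY k
      rw [hcen γ X hX']
      exact hX
    · intro X hX hX1
      obtain ⟨k, rfl⟩ := AddSubgroup.mem_zmultiples_iff.1 hX
      by_contra hne
      have hk : k ≠ 0 := by
        rintro rfl
        exact hne (zero_zsmul Y)
      have hYs : ∀ w, (Y w).2 = 0 := hY.2.1
      rcases Int.natAbs_eq k with h1 | h1
      · refine hYn k.natAbs (Int.natAbs_ne_zero.2 hk) ?_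
        rw [h1, natCast_zsmul, ← Nat.cast_smul_eq_nsmul ℝ] at hX1
        exact hX1
      · refine hYn k.natAbs (Int.natAbs_ne_zero.2 hk) ?_
        rw [h1, neg_zsmul, natCast_zsmul, ← Nat.cast_smul_eq_nsmul ℝ] at hX1
        have h2 := exp_unit' ((k.natAbs : ℝ) • Y)
        rwa [hX1, mul_one] at h2

end Run7.h262.EC
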