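import Pool.Agent.Run7.h262.EC.Chi

/-!
Germs of constructible sets along rays: the set of the starting points of the rays which enter a
bounded constructible set has Euler characteristic zero.
-/

set_option autoImplicit false
set_option linter.unusedSectionVars false

open Filter Topology Module

namespace Run7.h262.EC

variable {E : Type} [NormedAddCommGroup E] [NormedSpace ℝ E] [FiniteDimensional ℝ E]

/-- the signs along a ray -/
noncomputable def tsv {ι : Type} (A : ι → (E →ᵃ[ℝ] ℝ)) (v x : E) : ι → SignType := fun i =>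
  if SignType.sign (A i x) = 0 then SignType.sign ((A i).linear v) else SignType.sign (A i x)

theorem tsv_ev {ι : Type} [Finite ι] (A : ι → (E →ᵃ[ℝ] ℝ)) (v x : E) :
    ∀ᶠ t : ℝ in 𝓝[>] 0, sv A (x + t • v) = tsv A v x := by
  have h1 : ∀ i, ∀ᶠ t : ℝ in 𝓝[>] 0, SignType.sign (A i (x + t • v)) = tsv A v x i := by
    intro i
    by_cases h0 : A i x = 0
    · filter_upwards [self_mem_nhdsWithin] with t ht
      rw [tsv, h0, sign_zero, if_pos rfl, aff_smul, h0, zero_add, sign_mul, sign_pos ht, one_mul]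
    · have h2 : tsv A v x i = SignType.sign (A i x) := by
        rw [tsv, if_neg]
        rwa [sign_eq_zero_iff]
      rw [h2]
      refine Filter.Eventually.filter_mono nhdsWithin_le_nhds ?_
      have hc : Continuous fun t : ℝ => A i (x + t • v) := by
        have : (fun t : ℝ => A i (x + t • v)) = fun t => A i x + t * (A i).linear v :=
          funext fun t => aff_smul _ _ _ _
        rw [this]
        fun_prop
      have hc0 : Tendsto (fun t : ℝ => A i (x + t • v)) (𝓝 0) (𝓝 (A i x)) := by
        have := hc.tendsto 0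
        simpa using this
      rcases lt_or_gt_of_ne h0 with h | h
      · filter_upwards [hc0.eventually (eventually_lt_nhds h)] with t ht
        rw [sign_neg ht, sign_neg h]
      · filter_upwards [hc0.eventually (eventually_gt_nhds h)] with t ht
        rw [sign_pos ht, sign_pos h]
  filter_upwards [eventually_all.2 h1] with t ht
  exact funext ht

theorem tsv_congr {ι : Type} {A : ι → (E →ᵃ[ℝ] ℝ)} {x y : E} (h : sv A x = sv A y) (v : E) :
    tsv A v x = tsv A v y := by
  funext i
  have h1 : SignType.sign (A i x) = SignType.sign (A i y) := congrFun h i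
  rw [tsv, tsv, h1]

/-- the ray enters the set -/
def Ry (v : E) (p : E → Prop) (x : E) : Prop := ∀ᶠ t : ℝ in 𝓝[>] 0, p (x + t • v)

theorem ray_em {p : E → Prop} (hp : Con p) (v x : E) :
    Ry v p x ∨ Ry v (fun y => ¬p y) x := by
  obtain ⟨m, A, hA⟩ := hp
  obtain ⟨t₀, h0⟩ := (tsv_ev A v x).exists
  by_cases h : p (x + t₀ • v)
  · left
    filter_upwards [tsv_ev A v x] with t ht
    rw [hA _ _ (ht.trans h0.symm)]
    exact h
  · right
    filter_upwards [tsv_ev A v x] with t ht
    rw [hA _ _ (ht.trans h0.symm)]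
    exact h

theorem ray_con {p : E → Prop} (hp : Con p) (v : E) : Con (Ry v p) := by
  obtain ⟨m, A, hA⟩ := hp
  refine ⟨m, A, fun x y hxy => propext ?_⟩
  have h1 : ∀ x y : E, sv A x = sv A y → Ry v p x → Ry v p y := by
    intro x y hxy h
    filter_upwards [h, tsv_ev A v x, tsv_ev A v y] with t ht h2 h3
    rw [tsv_congr hxy v] at h2
    rw [← hA _ _ (h2.trans h3.symm)]
    exact ht
  exact ⟨h1 x y hxy, h1 y x hxy.symm⟩

/-- the direction of a cut -/
def dI (I : Finset (E →ᵃ[ℝ] ℝ)) : Submodule ℝ E where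
  carrier := {v | ∀ φ ∈ I, φ.linear v = 0}
  add_mem' := fun {v w} hv hw i hi => by rw [map_add, hv i hi, hw i hi, add_zero]
  zero_mem' := fun i _ => map_zero _
  smul_mem' := fun c v hv i hi => by rw [map_smul, hv i hi, smul_zero]

theorem cut_dir (I J : Finset (E →ᵃ[ℝ] ℝ)) (hne : (cut I J).Nonempty) :
    vectorSpan ℝ (cut I J) = dI I := by
  obtain ⟨x₀, hx₀⟩ := hne
  apply le_antisymm
  · rw [vectorSpan_def, Submodule.span_le]
    rintro _ ⟨x, hx, y, hy, rfl⟩ φ hφ
    have h1 := aff_add φ y (x - y)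
    rw [add_sub_cancel, hx.1 φ hφ, hy.1 φ hφ, zero_add] at h1
    exact h1.symm
  · intro v hv
    let A : I ⊕ J → (E →ᵃ[ℝ] ℝ) := jn (fun φ : I => φ.1) fun φ : J => φ.1
    have hv' : v ∈ dr A (sv A x₀) := by
      rintro (i | i) hi
      · exact hv i i.2
      · exfalso
        have h1 : SignType.sign ((i : E →ᵃ[ℝ] ℝ) x₀) = 0 := hi
        rw [sign_eq_zero_iff] at h1
        exact absurd (hx₀.2 i i.2) (by rw [h1]; exact lt_irrefl _)
    obtain ⟨ε, hε, hball⟩ := Metric.eventually_nhds_iff.1 (sv_move (A := A) x₀ hv')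
    have h1 := hball (y := ε / 2) (by
      rw [dist_zero_right, Real.norm_of_nonneg (by positivity)]
      linarith)
    have h2 : x₀ + (ε / 2) • v ∈ cut I J := by
      refine ⟨fun φ hφ => ?_, fun φ hφ => ?_⟩
      · have h3 := congrFun h1 (Sum.inl ⟨φ, hφ⟩)
        have h4 : SignType.sign (φ (x₀ + (ε / 2) • v)) = SignType.sign (φ x₀) := h3
        rw [hx₀.1 φ hφ, sign_zero, sign_eq_zero_iff] at h4
        exact h4
      · have h3 := congrFun h1 (Sum.inr ⟨φ, hφ⟩)
        have h4 : SignType.sign (φ (x₀ + (ε / 2) • v)) = SignType.sign (φ x₀) := h3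
        rw [sign_pos (hx₀.2 φ hφ), sign_eq_one_iff] at h4
        exact h4
    have h3 := vsub_mem_vectorSpan ℝ h2 hx₀
    rw [vsub_eq_sub, add_sub_cancel_left] at h3
    have h4 := Submodule.smul_mem _ (ε / 2)⁻¹ h3
    rwa [smul_smul, inv_mul_cancel₀ (by positivity), one_smul] at h4

/-- half-open cells -/
def half (I J N : Finset (E →ᵃ[ℝ] ℝ)) : Set E := {x | x ∈ cut I J ∧ ∀ ψ ∈ N, 0 ≤ ψ x}

theorem con_nonneg (φ : E →ᵃ[ℝ] ℝ) : Con fun x => 0 ≤ φ x := by
  refine cast (congrArg Con (funext fun x => propext not_lt)) ((Con.neg φ).map Not)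

theorem half_con (I J N : Finset (E →ᵃ[ℝ] ℝ)) : Con fun x : E => x ∈ half I J N := by
  have h := (cut_con I J).and (Con.all (ι := N) (p := fun φ x => 0 ≤ φ.1 x) fun φ => con_nonneg φ.1)
  refine cast (congrArg Con (funext fun x => propext ?_)) h
  exact ⟨fun h => ⟨h.1, fun φ hφ => h.2 ⟨φ, hφ⟩⟩, fun h => ⟨h.1, fun φ => h.2 φ φ.2⟩⟩

theorem chi_split {S T U : Set E} (hT : Con fun x => x ∈ T) (hU : Con fun x => x ∈ U)
    (h : ∀ x, x ∈ S ↔ x ∈ T ∨ x ∈ U) (hd : ∀ x, x ∈ T → x ∉ U) : chi S = chi T + chi U := by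
  have h1 := chi_union (Finset.univ : Finset Bool) (fun b => cond b T U) S
    (fun b _ => by cases b; exacts [hU, hT]) (fun x => by
      rw [h]
      constructor
      · rintro (h1 | h1)
        · exact ⟨true, Finset.mem_univ _, h1⟩
        · exact ⟨false, Finset.mem_univ _, h1⟩
      · rintro ⟨b, -, hb⟩
        cases b
        · exact Or.inr hb
        · exact Or.inl hb) (by
      rintro (_ | _) - (_ | _) - x h1 h2
      · rfl
      · exact absurd h1 (hd x h2)
      · exact absurd h2 (hd x h1)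
      · rfl)
  rw [h1]
  simp

open Classical in
theorem chi_half (I N : Finset (E →ᵃ[ℝ] ℝ)) : ∀ J : Finset (E →ᵃ[ℝ] ℝ),
    (∃ x ∈ cut I J, ∀ ψ ∈ N, ψ x < 0) →
      chi (half I J N) = if N = ∅ then (-1) ^ finrank ℝ (dI I) else 0 := by
  induction N using Finset.induction_on with
  | empty =>
    rintro J ⟨x, hx, -⟩
    have e : half I J ∅ = cut I J := by
      ext y
      exact ⟨fun h => h.1, fun h => ⟨h, fun ψ hψ => absurd hψ (Finset.notMem_empty _)⟩⟩
    rw [e, if_pos rfl, chi_cut I J ⟨x, hx⟩, cut_dir I J ⟨x, hx⟩]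
  | insert a N ha ih =>
    rintro J ⟨x, hx, hN⟩
    have h1 := ih J ⟨x, hx, fun ψ hψ => hN ψ (Finset.mem_insert_of_mem hψ)⟩
    have h2 := ih (insert (-a) J) ⟨x, ⟨hx.1, fun ψ hψ => by
      rcases Finset.mem_insert.1 hψ with rfl | hψ
      · exact neg_pos.2 (hN a (Finset.mem_insert_self a N))
      · exact hx.2 ψ hψ⟩, fun ψ hψ => hN ψ (Finset.mem_insert_of_mem hψ)⟩
    have h3 : chi (half I J N) = chi (half I J (insert a N)) + chi (half I (insert (-a) J) N) := by
      refine chi_split (half_con _ _ _) (half_con _ _ _) (fun y => ?_) fun y => ?_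
      · constructor
        · intro hy
          rcases le_or_gt 0 (a y) with h4 | h4
          · left
            refine ⟨hy.1, fun ψ hψ => ?_⟩
            rcases Finset.mem_insert.1 hψ with rfl | hψ
            · exact h4
            · exact hy.2 ψ hψ
          · right
            refine ⟨⟨hy.1.1, fun ψ hψ => ?_⟩, hy.2⟩
            rcases Finset.mem_insert.1 hψ with rfl | hψ
            · exact neg_pos.2 h4
            · exact hy.1.2 ψ hψ
        · rintro (hy | hy)
          · exact ⟨hy.1, fun ψ hψ => hy.2 ψ (Finset.mem_insert_of_mem hψ)⟩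
          · exact ⟨⟨hy.1.1, fun ψ hψ => hy.1.2 ψ (Finset.mem_insert_of_mem hψ)⟩, hy.2⟩
      · intro hy hy'
        have h4 := hy.2 a (Finset.mem_insert_self a N)
        have h5 : 0 < -(a y) := hy'.1.2 (-a) (Finset.mem_insert_self _ _)
        linarith
    rw [if_neg (Finset.insert_ne_empty a N)]
    rw [h1, h2] at h3
    linarith

/-- the rays entering a bounded cell -/
theorem chi_ray_cell {ι : Type} [Finite ι] (A : ι → (E →ᵃ[ℝ] ℝ)) {v : E} (hv : v ≠ 0)
    (u : ι → SignType) (hb : Bornology.IsBounded {x | sv A x = u}) :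
    chi {x | Ry v (fun y => sv A y = u) x} = 0 := by
  classical
  have := Fintype.ofFinite ι
  have hemp : chi (∅ : Set E) = 0 := by
    have h1 := chi_union (∅ : Finset Unit) (fun _ => (∅ : Set E)) (∅ : Set E) (by simp) (by simp)
      (by simp)
    simpa using h1
  have hR : ∀ x, Ry v (fun y => sv A y = u) x ↔ tsv A v x = u := by
    intro x
    constructor
    · intro h
      obtain ⟨t, h1, h2⟩ := ((tsv_ev A v x).and h).exists
      rw [← h1]
      exact h2
    · intro h
      filter_upwards [tsv_ev A v x] with t ht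
      rw [ht, h]
  by_cases hne : ∃ x, Ry v (fun y => sv A y = u) x
  swap
  · have e : {x | Ry v (fun y => sv A y = u) x} = ∅ := by
      ext x
      exact ⟨fun h => absurd ⟨x, h⟩ hne, fun h => absurd h (Set.notMem_empty _)⟩
    rw [e, hemp]
  obtain ⟨x₀, hx₀⟩ := hne
  obtain ⟨t₀, h2⟩ := hx₀.exists
  have hx₀' := (hR x₀).1 hx₀
  set y₀ := x₀ + t₀ • v with hy₀
  change sv A y₀ = u at h2
  have hy1 : ∀ i, SignType.sign (A i y₀) = u i := fun i => congrFun h2 i
  have hlin : ∀ i, u i = 0 → (A i).linear v = 0 := by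
    intro i hi
    have h3 : tsv A v x₀ i = 0 := by rw [hx₀', hi]
    rw [tsv] at h3
    split_ifs at h3 with h4
    · exact sign_eq_zero_iff.1 h3
    · exact absurd h3 h4
  let c : ι → ℝ := fun i => ((u i : SignType) : ℝ)
  let ψ : ι → (E →ᵃ[ℝ] ℝ) := fun i => c i • A i
  have hψ : ∀ i x, ψ i x = c i * A i x := fun i x => rfl
  have hψl : ∀ i w, (ψ i).linear w = c i * (A i).linear w := fun i w => rfl
  have hpos : ∀ i, u i ≠ 0 → ∀ r : ℝ, (SignType.sign r = u i ↔ 0 < c i * r) := by
    intro i hi r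
    rcases hu : u i with _ | _ | _
    · exact absurd hu hi
    · have hc : c i = -1 := by
        change ((u i : SignType) : ℝ) = -1
        rw [hu]
        rfl
      rw [hc]
      change SignType.sign r = -1 ↔ _
      rw [sign_eq_neg_one_iff]
      constructor <;> intro h <;> linarith
    · have hc : c i = 1 := by
        change ((u i : SignType) : ℝ) = 1
        rw [hu]
        rfl
      rw [hc]
      change SignType.sign r = 1 ↔ _
      rw [sign_eq_one_iff, one_mul]
  let I : Finset (E →ᵃ[ℝ] ℝ) := (Finset.univ.filter fun i => u i = 0).image A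
  let J : Finset (E →ᵃ[ℝ] ℝ) :=
    (Finset.univ.filter fun i => u i ≠ 0 ∧ (ψ i).linear v ≤ 0).image ψ
  let N : Finset (E →ᵃ[ℝ] ℝ) :=
    (Finset.univ.filter fun i => u i ≠ 0 ∧ 0 < (ψ i).linear v).image ψ
  have hT : {x | Ry v (fun y => sv A y = u) x} = half I J N := by
    ext x
    rw [Set.mem_setOf_eq, hR]
    constructor
    · intro h
      have h4 : ∀ i, tsv A v x i = u i := fun i => congrFun h i
      refine ⟨⟨?_, ?_⟩, ?_⟩
      · intro φ hφ
        obtain ⟨i, hi, rfl⟩ := Finset.mem_image.1 hφ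
        have hi := (Finset.mem_filter.1 hi).2
        have h5 := h4 i
        rw [tsv] at h5
        split_ifs at h5 with h6
        · exact sign_eq_zero_iff.1 h6
        · exact absurd (h5.trans hi) h6
      · intro φ hφ
        obtain ⟨i, hi, rfl⟩ := Finset.mem_image.1 hφ
        obtain ⟨hi, hl⟩ := (Finset.mem_filter.1 hi).2
        have h5 := h4 i
        rw [tsv] at h5
        split_ifs at h5 with h6
        · have h7 := (hpos i hi _).1 h5
          rw [hψl] at hl
          linarith
        · exact (hpos i hi _).1 h5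
      · intro φ hφ
        obtain ⟨i, hi, rfl⟩ := Finset.mem_image.1 hφ
        obtain ⟨hi, hl⟩ := (Finset.mem_filter.1 hi).2
        have h5 := h4 i
        rw [tsv] at h5
        split_ifs at h5 with h6
        · rw [hψ, sign_eq_zero_iff.1 h6, mul_zero]
        · exact ((hpos i hi _).1 h5).le
    · rintro ⟨⟨h4, h5⟩, h6⟩
      funext i
      by_cases hi : u i = 0
      · have h7 : A i x = 0 := h4 _ (Finset.mem_image_of_mem _ (Finset.mem_filter.2
          ⟨Finset.mem_univ _, hi⟩))
        rw [tsv, h7, sign_zero, if_pos rfl, hlin i hi, sign_zero, hi]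
      · by_cases hl : (ψ i).linear v ≤ 0
        · have h7 : 0 < ψ i x := h5 _ (Finset.mem_image_of_mem _ (Finset.mem_filter.2
            ⟨Finset.mem_univ _, hi, hl⟩))
          have h8 := (hpos i hi (A i x)).2 h7
          rw [tsv, h8, if_neg hi]
        · push Not at hl
          have h7 : 0 ≤ ψ i x := h6 _ (Finset.mem_image_of_mem _ (Finset.mem_filter.2
            ⟨Finset.mem_univ _, hi, hl⟩))
          rcases h7.eq_or_lt with h8 | h8
          · have h9 : A i x = 0 := by
              have h10 : c i ≠ 0 := by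
                intro h11
                rw [hψl, h11, zero_mul] at hl
                exact lt_irrefl _ hl
              exact (mul_eq_zero.1 h8.symm).resolve_left h10
            rw [tsv, h9, sign_zero, if_pos rfl]
            exact (hpos i hi _).2 hl
          · have h9 := (hpos i hi (A i x)).2 h8
            rw [tsv, h9, if_neg hi]
  -- going back
  have hback : ∀ t : ℝ, 0 ≤ t → y₀ + (-t) • v ∈ cut I J := by
    intro t ht
    refine ⟨?_, ?_⟩
    · intro φ hφ
      obtain ⟨i, hi, rfl⟩ := Finset.mem_image.1 hφ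
      have hi := (Finset.mem_filter.1 hi).2
      rw [aff_smul, hlin i hi, mul_zero, add_zero, ← sign_eq_zero_iff, hy1 i, hi]
    · intro φ hφ
      obtain ⟨i, hi, rfl⟩ := Finset.mem_image.1 hφ
      obtain ⟨hi, hl⟩ := (Finset.mem_filter.1 hi).2
      rw [aff_smul]
      have h3 : 0 < ψ i y₀ := (hpos i hi _).1 (hy1 i)
      nlinarith
  have hN : N ≠ ∅ := by
    intro hN
    have h3 : ∀ t : ℝ, 0 ≤ t → y₀ + (-t) • v ∈ {x | sv A x = u} := by
      intro t ht
      funext i
      change SignType.sign (A i (y₀ + (-t) • v)) = u i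
      by_cases hi : u i = 0
      · have h7 : A i (y₀ + (-t) • v) = 0 := (hback t ht).1 _
          (Finset.mem_image_of_mem _ (Finset.mem_filter.2 ⟨Finset.mem_univ _, hi⟩))
        rw [h7, sign_zero, hi]
      · have hl : (ψ i).linear v ≤ 0 := by
          by_contra hl
          push Not at hl
          have h8 : ψ i ∈ N := Finset.mem_image_of_mem _ (Finset.mem_filter.2
            ⟨Finset.mem_univ _, hi, hl⟩)
          rw [hN] at h8
          exact Finset.notMem_empty _ h8
        exact (hpos i hi _).2 ((hback t ht).2 _ (Finset.mem_image_of_mem _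
          (Finset.mem_filter.2 ⟨Finset.mem_univ _, hi, hl⟩)))
    obtain ⟨R, hR'⟩ := hb.subset_closedBall y₀
    have hv0 : 0 < ‖v‖ := norm_pos_iff.2 hv
    have h4 := hR' (h3 ((|R| + 1) / ‖v‖) (by positivity))
    rw [Metric.mem_closedBall, dist_eq_norm, add_sub_cancel_left, norm_smul, norm_neg,
      Real.norm_of_nonneg (by positivity), div_mul_cancel₀ _ hv0.ne'] at h4
    linarith [le_abs_self R]
  rw [hT, chi_half I N J, if_neg hN]
  -- far back all the functions are negative
  have h3 : ∀ ψ' ∈ N, ∀ᶠ t : ℝ in atTop, ψ' (y₀ + (-t) • v) < 0 := by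
    intro φ hφ
    obtain ⟨i, hi, rfl⟩ := Finset.mem_image.1 hφ
    obtain ⟨hi, hl⟩ := (Finset.mem_filter.1 hi).2
    filter_upwards [eventually_gt_atTop (ψ i y₀ / (ψ i).linear v)] with t ht
    rw [aff_smul]
    rw [div_lt_iff₀ hl] at ht
    linarith
  obtain ⟨t, ht, ht0⟩ := (((Filter.eventually_all_finset N).2 h3).and (eventually_ge_atTop 0)).exists
  exact ⟨y₀ + (-t) • v, hback t ht0, ht⟩

/-- the rays entering a bounded set -/
theorem chi_ray {p : E → Prop} (hp : Con p) (hb : Bornology.IsBounded {x | p x}) {v : E}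
    (hv : v ≠ 0) : chi {x | Ry v p x} = 0 := by
  classical
  obtain ⟨m, A, hA⟩ := hp
  let P : Finset (Fin m → SignType) := Finset.univ.filter fun u => ∃ x, sv A x = u ∧ p x
  rw [chi_union P (fun u => {x | Ry v (fun y => sv A y = u) x}) {x | Ry v p x} ?_ ?_ ?_]
  · refine Finset.sum_eq_zero fun u hu => ?_
    obtain ⟨x, hx, hpx⟩ := (Finset.mem_filter.1 hu).2
    refine chi_ray_cell A hv u (hb.subset fun y hy => ?_)
    change p y
    rw [hA y x (hy.trans hx.symm)]
    exact hpx
  · intro u hu
    change Con (Ry v fun y => sv A y = u)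
    refine ray_con ?_ v
    exact Con.of (A := A) fun x y hxy => by rw [hxy]
  · intro x
    constructor
    · intro hx
      obtain ⟨t, h1, h2⟩ := ((tsv_ev A v x).and hx).exists
      refine ⟨tsv A v x, Finset.mem_filter.2 ⟨Finset.mem_univ _, _, h1, h2⟩, ?_⟩
      exact tsv_ev A v x
    · rintro ⟨u, hu, hx⟩
      obtain ⟨y, hy, hpy⟩ := (Finset.mem_filter.1 hu).2
      change ∀ᶠ t : ℝ in 𝓝[>] 0, p (x + t • v)
      have hx' : ∀ᶠ t : ℝ in 𝓝[>] 0, sv A (x + t • v) = u := hx
      filter_upwards [hx'] with t ht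
      rw [hA _ y (ht.trans hy.symm)]
      exact hpy
  · intro u _ u' _ x h1 h2
    have h1' : ∀ᶠ t : ℝ in 𝓝[>] 0, sv A (x + t • v) = u := h1
    have h2' : ∀ᶠ t : ℝ in 𝓝[>] 0, sv A (x + t • v) = u' := h2
    obtain ⟨t, h3, h4⟩ := (h1'.and h2').exists
    rw [← h3, ← h4]

end Run7.h262.EC
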