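import Pool.Agent.Run7.h262.SV.Norml
import Mathlib.MeasureTheory.Function.Jacobian

/-!
Generic combinations of families of functions of deficient rank have no zeros.
-/

set_option autoImplicit false
set_option linter.unusedSectionVars false

open Filter Topology Module MeasureTheory

namespace Run7.h262.EC

open Run7.h262.SV

variable {E : Type} [NormedAddCommGroup E] [NormedSpace ℝ E] [FiniteDimensional ℝ E]

theorem det_zero_of_kernel {P : Type} [NormedAddCommGroup P] [NormedSpace ℝ P]
    [FiniteDimensional ℝ P] (A : P →L[ℝ] P) {w : P} (hw : w ≠ 0) (h : A w = 0) : A.det = 0 := by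
  by_contra hdet
  have h1 : IsUnit (LinearMap.det (A : P →ₗ[ℝ] P)) := isUnit_iff_ne_zero.2 hdet
  have h2 := (LinearMap.isUnit_iff_isUnit_det _).2 h1
  rw [LinearMap.isUnit_iff_ker_eq_bot] at h2
  refine hw ?_
  have h3 : w ∈ LinearMap.ker (A : P →ₗ[ℝ] P) := h
  rw [h2] at h3
  exact h3

/-- coordinates -/
noncomputable abbrev co (u : E) (k : Fin (finrank ℝ E)) : ℝ := (finBasis ℝ E).equivFun u k

theorem co_diff (k : Fin (finrank ℝ E)) : Differentiable ℝ fun u : E => co u k := by
  have h := (LinearMap.toContinuousLinearMap ((LinearMap.proj k).comp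
    ((finBasis ℝ E).equivFun : E →ₗ[ℝ] (Fin (finrank ℝ E) → ℝ)))).differentiable
  exact h

open Classical in
/-- the combination of the other functions -/
noncomputable def Go {N : ℕ} (T : Fin N → Fin (finrank ℝ E) → E → E) (i : Fin N)
    (p : Fin N → E) : E :=
  ∑ j ∈ Finset.univ.erase i, ∑ k, co (p j) k • T j k (p i)

open Classical in
/-- the parametrisation of the bad parameters -/
noncomputable def Ph {N : ℕ} (T : Fin N → Fin (finrank ℝ E) → E → E) (b : Fin N → E → ℝ)
    (i : Fin N) (p : Fin N → E) : Fin N → E := fun j =>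
  if j = i then -((b i (p i))⁻¹ • Go T i p) else p j

theorem exists_section {N : ℕ} {T : Fin N → Fin (finrank ℝ E) → E → E} {b : Fin N → E → ℝ}
    {Ω : Set E} (hΩ : IsOpen Ω) (hT : ∀ i k, ContDiffOn ℝ 1 (T i k) Ω)
    (hb : ∀ i, ContDiffOn ℝ 1 (b i) Ω)
    (hTb : ∀ i k, ∀ x ∈ Ω, b i x ≠ 0 → T i k x = b i x • finBasis ℝ E k)
    (hker : ∀ x ∈ Ω, ∃ v : E, v ≠ 0 ∧ (∀ i k, fderiv ℝ (T i k) x v = 0) ∧
      ∀ i, fderiv ℝ (b i) x v = 0) :
    ∃ c : Fin N → E, ∀ x ∈ Ω, ∀ i, b i x ≠ 0 → ∑ j, ∑ k, co (c j) k • T j k x ≠ 0 := by
  classical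
  let _ : MeasurableSpace (Fin N → E) := borel _
  have : BorelSpace (Fin N → E) := ⟨rfl⟩
  let μ : Measure (Fin N → E) := Measure.addHaar
  let s : Fin N → Set (Fin N → E) := fun i => {p | p i ∈ Ω ∧ b i (p i) ≠ 0}
  have hproj : ∀ (i : Fin N) (p : Fin N → E), DifferentiableAt ℝ (fun q : Fin N → E => q i) p :=
    fun i p => (ContinuousLinearMap.proj (R := ℝ) (φ := fun _ : Fin N => E) i).differentiableAt
  have hnull : ∀ i, μ (Ph T b i '' s i) = 0 := by
    intro i
    have hbd : ∀ p ∈ s i, ∀ j, DifferentiableAt ℝ (b j) (p i) := fun p hp j =>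
      ((hb j).differentiableOn one_ne_zero).differentiableAt (hΩ.mem_nhds hp.1)
    have hTd : ∀ p ∈ s i, ∀ j k, DifferentiableAt ℝ (T j k) (p i) := fun p hp j k =>
      ((hT j k).differentiableOn one_ne_zero).differentiableAt (hΩ.mem_nhds hp.1)
    have hd : ∀ p ∈ s i, DifferentiableAt ℝ (Ph T b i) p := by
      intro p hp
      rw [differentiableAt_pi]
      intro j
      by_cases hj : j = i
      · have e : (fun q : Fin N → E => Ph T b i q j) = fun q =>
            -((b i (q i))⁻¹ • Go T i q) := by
          funext q
          rw [Ph, if_pos hj]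
        rw [e]
        refine DifferentiableAt.neg (DifferentiableAt.smul ?_ ?_)
        · exact ((hbd p hp i).comp p (hproj i p)).inv hp.2
        · unfold Go
          refine DifferentiableAt.fun_sum fun j _ => DifferentiableAt.fun_sum fun k _ => ?_
          refine DifferentiableAt.smul ?_ ?_
          · exact ((co_diff k) (p j)).comp p (hproj j p)
          · exact (hTd p hp j k).comp p (hproj i p)
      · have e : (fun q : Fin N → E => Ph T b i q j) = fun q => q j := by
          funext q
          rw [Ph, if_neg hj]
        rw [e]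
        exact hproj j p
    refine addHaar_image_eq_zero_of_det_fderivWithin_eq_zero (f' := fun p => fderiv ℝ (Ph T b i) p)
      μ (fun p hp => (hd p hp).hasFDerivAt.hasFDerivWithinAt) fun p hp => ?_
    obtain ⟨v, hv0, hvT, hvb⟩ := hker (p i) hp.1
    have hw : (Pi.single i v : Fin N → E) ≠ 0 := by
      intro h
      have h1 := congrFun h i
      rw [Pi.single_eq_same] at h1
      exact hv0 h1
    refine det_zero_of_kernel _ hw ?_
    have h1 := path_deriv (hd p hp) (Pi.single i v)
    have hi : ∀ t : ℝ, (p + t • (Pi.single i v : Fin N → E)) i = p i + t • v := by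
      intro t
      rw [Pi.add_apply, Pi.smul_apply, Pi.single_eq_same]
    have hj : ∀ (t : ℝ) j, j ≠ i → (p + t • (Pi.single i v : Fin N → E)) j = p j := by
      intro t j hji
      rw [Pi.add_apply, Pi.smul_apply, Pi.single_eq_of_ne hji, smul_zero, add_zero]
    have h2 : HasDerivAt (fun t : ℝ => Ph T b i (p + t • (Pi.single i v : Fin N → E))) 0 0 := by
      rw [hasDerivAt_pi]
      intro j
      by_cases hji : j = i
      · have e : (fun t : ℝ => Ph T b i (p + t • (Pi.single i v : Fin N → E)) j) = fun t =>
            -((b i (p i + t • v))⁻¹ • ∑ j ∈ Finset.univ.erase i, ∑ k,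
              co (p j) k • T j k (p i + t • v)) := by
          funext t
          rw [Ph, if_pos hji, hi, Go]
          congr 2
          refine Finset.sum_congr rfl fun j hj' => Finset.sum_congr rfl fun k _ => ?_
          rw [hi, hj t j (Finset.ne_of_mem_erase hj')]
        rw [e]
        have h3 : HasDerivAt (fun t : ℝ => b i (p i + t • v)) 0 0 := by
          have := path_deriv (hbd p hp i) v
          rwa [hvb] at this
        have h4 : HasDerivAt (fun t : ℝ => (b i (p i + t • v))⁻¹) 0 0 := by
          refine HasDerivAt.congr_deriv (h3.fun_inv (by rw [zero_smul, add_zero]; exact hp.2)) ?_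
          rw [neg_zero, zero_div]
        have h5 : HasDerivAt (fun t : ℝ => ∑ j ∈ Finset.univ.erase i, ∑ k,
            co (p j) k • T j k (p i + t • v)) 0 0 := by
          have h6 : ∀ j ∈ (Finset.univ.erase i : Finset (Fin N)), HasDerivAt (fun t : ℝ => ∑ k,
              co (p j) k • T j k (p i + t • v)) 0 0 := by
            intro j _
            have h7 : ∀ k ∈ (Finset.univ : Finset (Fin (finrank ℝ E))),
                HasDerivAt (fun t : ℝ => co (p j) k • T j k (p i + t • v)) 0 0 := by
              intro k _
              have h8 := path_deriv (hTd p hp j k) v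
              rw [hvT] at h8
              have h9 := h8.const_smul (co (p j) k)
              rwa [smul_zero] at h9
            have h8 := HasDerivAt.fun_sum h7
            rwa [Finset.sum_const_zero] at h8
          have h7 := HasDerivAt.fun_sum h6
          rwa [Finset.sum_const_zero] at h7
        refine HasDerivAt.congr_deriv (h4.fun_smul h5).fun_neg ?_
        rw [smul_zero, zero_smul, add_zero, neg_zero]
        rfl
      · have e : (fun t : ℝ => Ph T b i (p + t • (Pi.single i v : Fin N → E)) j) = fun t => p j := by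
          funext t
          rw [Ph, if_neg hji, hj t j hji]
        rw [e]
        exact hasDerivAt_const _ _
    exact h1.unique h2
  have hU : μ (⋃ i, Ph T b i '' s i) = 0 := measure_iUnion_null hnull
  obtain ⟨c, hc⟩ : ∃ c, c ∉ ⋃ i, Ph T b i '' s i := by
    by_contra hcon
    push Not at hcon
    have h1 : (⋃ i, Ph T b i '' s i) = Set.univ := Set.eq_univ_of_forall hcon
    rw [h1] at hU
    exact (NeZero.ne (μ Set.univ)) hU
  refine ⟨c, fun x hx i hbi h0 => hc (Set.mem_iUnion.2 ⟨i, Function.update c i x, ?_, ?_⟩)⟩
  · refine ⟨?_, ?_⟩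
    · rw [Function.update_self]
      exact hx
    · rw [Function.update_self]
      exact hbi
  · funext j
    by_cases hj : j = i
    · subst hj
      rw [Ph, if_pos rfl, Function.update_self]
      have h1 : Go T j (Function.update c j x) =
          ∑ l ∈ Finset.univ.erase j, ∑ k, co (c l) k • T l k x := by
        unfold Go
        refine Finset.sum_congr rfl fun l hl => Finset.sum_congr rfl fun k _ => ?_
        rw [Function.update_self, Function.update_of_ne (Finset.ne_of_mem_erase hl)]
      have h2 : ∑ k, co (c j) k • T j k x = b j x • c j := by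
        have h3 : ∀ k ∈ (Finset.univ : Finset (Fin (finrank ℝ E))), co (c j) k • T j k x =
            b j x • (co (c j) k • finBasis ℝ E k) := by
          intro k _
          rw [hTb j k x hx hbi, smul_comm]
        rw [Finset.sum_congr rfl h3, ← Finset.smul_sum, (finBasis ℝ E).sum_equivFun]
      rw [← Finset.add_sum_erase _ _ (Finset.mem_univ j), h2] at h0
      rw [h1, ← neg_eq_of_add_eq_zero_right h0, smul_neg, neg_neg, smul_smul,
        inv_mul_cancel₀ hbi, one_smul]
    · rw [Ph, if_neg hj, Function.update_of_ne hj]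

end Run7.h262.EC
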