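import Pool.Agent.Run7.h262.EC.Ex
import Pool.Agent.Run7.h262.TB.Det

/-!
Characters of the algebra spanned by a commutative normal subgroup.
-/

set_option autoImplicit false
set_option linter.unusedSectionVars false

open Filter Topology

namespace Run7.h262.EC

open Run7.h262.SV Run7.h262.TB

theorem nil_of_char {R : Type} [CommRing R] [Algebra ℝ R] [FiniteDimensional ℝ R] (x : R)
    (h : ∀ φ : R →ₐ[ℝ] ℂ, φ x = 0) : IsNilpotent x := by
  rw [nilpotent_iff_mem_prime]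
  intro J hJ
  have h1 : IsDomain (R ⧸ J) := Ideal.Quotient.isDomain J
  have h2 : FiniteDimensional ℝ (R ⧸ J) := Module.Finite.of_surjective
    (Ideal.Quotient.mkₐ ℝ J).toLinearMap (Ideal.Quotient.mkₐ_surjective ℝ J)
  have h3 : IsField (R ⧸ J) := isField_of_isIntegral_of_isField' (Field.toIsField ℝ)
  let ψ : (R ⧸ J) →ₐ[ℝ] ℂ := IsAlgClosed.lift
  have h4 := h (ψ.comp (Ideal.Quotient.mkₐ ℝ J))
  have h5 : ψ (Ideal.Quotient.mk J x) = 0 := h4
  let _ : Field (R ⧸ J) := h3.toField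
  have h6 : Ideal.Quotient.mk J x = 0 := (map_eq_zero_iff ψ ψ.toRingHom.injective).1 h5
  exact Ideal.Quotient.eq_zero_iff_mem.1 h6

variable {Γ E : Type} [Group Γ] [NormedAddCommGroup E] [NormedSpace ℝ E] [FiniteDimensional ℝ E]
  {hol : Γ →* (E ≃ᵃ[ℝ] E)} {A : Subgroup Γ} {Ω : Set E}

/-- elements killed by all characters are nilpotent -/
theorem SS_nil (hA : ∀ a ∈ A, ∀ b ∈ A, a * b = b * a) {X : AA E} (hX : X ∈ SS hol A)
    (h : ∀ φ : SSa hol A →ₐ[ℝ] ℂ, φ ⟨X, hX⟩ = 0) : IsNilpotent X := by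
  let _ : CommRing (SSa hol A) :=
    { (inferInstance : Ring (SSa hol A)) with
      mul_comm := fun x y => Subtype.ext (SS_comm hol A hA x.2 y.2) }
  have h1 : IsNilpotent (⟨X, hX⟩ : SSa hol A) := nil_of_char _ h
  exact h1.map (SSa hol A).val

/-- conjugation on the algebra -/
noncomputable def cj (hN : A.Normal) (γ : Γ) : SSa hol A →ₐ[ℝ] SSa hol A where
  toFun X := ⟨hat (hol γ) * X * hat (hol γ⁻¹), SS_conj hol A hN γ X.2⟩
  map_one' := Subtype.ext (by
    change hat (hol γ) * 1 * hat (hol γ⁻¹) = 1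
    rw [mul_one, hat_mul_inv])
  map_mul' X Y := Subtype.ext (by
    change hat (hol γ) * ((X : AA E) * Y) * hat (hol γ⁻¹) =
      (hat (hol γ) * X * hat (hol γ⁻¹)) * (hat (hol γ) * Y * hat (hol γ⁻¹))
    calc hat (hol γ) * ((X : AA E) * Y) * hat (hol γ⁻¹)
        = hat (hol γ) * X * 1 * Y * hat (hol γ⁻¹) := by simp only [mul_assoc, one_mul]
      _ = _ := by rw [← hat_inv_mul hol γ]; simp only [mul_assoc])
  map_zero' := Subtype.ext (by
    change hat (hol γ) * 0 * hat (hol γ⁻¹) = 0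
    rw [mul_zero, zero_mul])
  map_add' X Y := Subtype.ext (by
    change hat (hol γ) * ((X : AA E) + Y) * hat (hol γ⁻¹) = _
    rw [mul_add, add_mul]
    rfl)
  commutes' r := Subtype.ext (by
    change hat (hol γ) * (algebraMap ℝ (AA E) r) * hat (hol γ⁻¹) = algebraMap ℝ (AA E) r
    rw [← Algebra.commutes r, mul_assoc, hat_mul_inv, mul_one])

theorem cj_cj (hN : A.Normal) (γ δ : Γ) (X : SSa hol A) : cj hN γ (cj hN δ X) = cj hN (γ * δ) X := by
  refine Subtype.ext ?_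
  change hat (hol γ) * (hat (hol δ) * (X : AA E) * hat (hol δ⁻¹)) * hat (hol γ⁻¹) =
    hat (hol (γ * δ)) * (X : AA E) * hat (hol (γ * δ)⁻¹)
  rw [mul_inv_rev, map_mul, map_mul, map_mul, map_mul]
  simp only [mul_assoc]

theorem cj_one (hN : A.Normal) (X : SSa hol A) : cj hN 1 X = X := by
  refine Subtype.ext ?_
  change hat (hol 1) * (X : AA E) * hat (hol 1⁻¹) = X
  rw [inv_one, map_one, map_one, one_mul, mul_one]

/-- the action on the characters -/
noncomputable abbrev chact (hN : A.Normal) : MulAction Γ (SSa hol A →ₐ[ℝ] ℂ) where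
  smul γ φ := φ.comp (cj hN γ⁻¹)
  one_smul φ := by
    refine AlgHom.ext fun X => ?_
    change φ (cj hN 1⁻¹ X) = φ X
    rw [inv_one, cj_one]
  mul_smul γ δ φ := by
    refine AlgHom.ext fun X => ?_
    change φ (cj hN (γ * δ)⁻¹ X) = φ (cj hN δ⁻¹ (cj hN γ⁻¹ X))
    rw [cj_cj, mul_inv_rev]

/-- a subgroup of finite index acts unipotently -/
theorem exists_W (hol : Γ →* (E ≃ᵃ[ℝ] E)) (hA : ∀ a ∈ A, ∀ b ∈ A, a * b = b * a)
    (hN : A.Normal) :
    ∃ H : Subgroup Γ, H.FiniteIndex ∧ ∀ γ ∈ H, ∀ X ∈ SS hol A,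
      IsNilpotent (hat (hol γ) * X * hat (hol γ⁻¹) - X) := by
  let _ : MulAction Γ (SSa hol A →ₐ[ℝ] ℂ) := chact hN
  have hf : Finite (SSa hol A →ₐ[ℝ] ℂ) := inferInstance
  let H := (MulAction.toPermHom Γ (SSa hol A →ₐ[ℝ] ℂ)).ker
  refine ⟨H, inferInstance, fun γ hγ X hX => ?_⟩
  have h1 : ∀ φ : SSa hol A →ₐ[ℝ] ℂ, φ (cj hN γ ⟨X, hX⟩) = φ ⟨X, hX⟩ := by
    intro φ
    have h2 : γ⁻¹ ∈ H := H.inv_mem hγ
    have h3 : γ⁻¹ • φ = φ := congrArg (fun e : Equiv.Perm (SSa hol A →ₐ[ℝ] ℂ) => e φ)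
      (MonoidHom.mem_ker.1 h2)
    have h4 := congrArg (fun ψ : SSa hol A →ₐ[ℝ] ℂ => ψ ⟨X, hX⟩) h3
    change φ (cj hN γ⁻¹⁻¹ ⟨X, hX⟩) = φ ⟨X, hX⟩ at h4
    rwa [inv_inv] at h4
  have h2 : hat (hol γ) * X * hat (hol γ⁻¹) - X ∈ SS hol A :=
    Submodule.sub_mem _ (SS_conj hol A hN γ hX) hX
  refine SS_nil hA h2 fun φ => ?_
  have h3 : φ (cj hN γ ⟨X, hX⟩ - ⟨X, hX⟩) = φ (cj hN γ ⟨X, hX⟩) - φ ⟨X, hX⟩ := map_sub φ _ _
  exact h3.trans (sub_eq_zero.2 (h1 φ))

/-- unipotent involutions are trivial -/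
theorem inv_unip {c : AA E} (h1 : IsNilpotent (c - 1)) (h2 : c * c = 1) : c = 1 := by
  have h3 : IsUnit (c + 1) := by
    have h4 : c + 1 = (c - 1) + 2 := by
      rw [show (2 : AA E) = 1 + 1 from one_add_one_eq_two.symm]
      abel
    have h5 : IsUnit (2 : AA E) := by
      have h6 := (IsUnit.mk0 (2 : ℝ) two_ne_zero).map (algebraMap ℝ (AA E))
      rwa [map_ofNat] at h6
    rw [h4]
    exact h1.isUnit_add_right_of_commute h5 (Commute.ofNat_right (c - 1) 2)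
  have h4 : (c - 1) * (c + 1) = 0 := by
    rw [sub_mul, mul_add, mul_one, one_mul, h2]
    abel
  have h5 : c - 1 = 0 := by
    obtain ⟨u, hu⟩ := h3
    rw [← hu] at h4
    calc c - 1 = (c - 1) * u * (↑u⁻¹ : AA E) := by rw [mul_assoc, Units.mul_inv, mul_one]
      _ = 0 := by rw [h4, zero_mul]
  exact sub_eq_zero.1 h5

/-- the involutions in a commutative subgroup are finite in number -/
theorem two_finite (hinj : Function.Injective hol) (hA : ∀ a ∈ A, ∀ b ∈ A, a * b = b * a) :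
    {a | a ∈ A ∧ a * a = 1}.Finite := by
  have hf : Finite (SSa hol A →ₐ[ℝ] ℂ) := inferInstance
  let S : Set ℂ := {1, -1}
  have hS : Finite S := (Set.toFinite {1, -1})
  have hsq : ∀ a, a * a = 1 → hat (hol a) * hat (hol a) = 1 := fun a ha => by
    rw [← map_mul, ← map_mul, ha, map_one, map_one]
  have hval : ∀ a (ha : a ∈ A), a * a = 1 → ∀ φ : SSa hol A →ₐ[ℝ] ℂ,
      φ ⟨hat (hol a), SS_hat hol A ha⟩ * φ ⟨hat (hol a), SS_hat hol A ha⟩ = 1 := by
    intro a ha h2 φ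
    rw [← map_mul]
    have : (⟨hat (hol a), SS_hat hol A ha⟩ * ⟨hat (hol a), SS_hat hol A ha⟩ : SSa hol A) = 1 :=
      Subtype.ext (hsq a h2)
    rw [this, map_one]
  let f : {a | a ∈ A ∧ a * a = 1} → ((SSa hol A →ₐ[ℝ] ℂ) → S) := fun a φ =>
    ⟨φ ⟨hat (hol a), SS_hat hol A a.2.1⟩, by
      rcases mul_self_eq_one_iff.1 (hval a a.2.1 a.2.2 φ) with h | h
      · exact Or.inl h
      · exact Or.inr h⟩
  refine Set.finite_coe_iff.1 (Finite.of_injective f ?_)
  rintro ⟨a, ha, ha2⟩ ⟨b, hb, hb2⟩ hab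
  have h1 : ∀ φ : SSa hol A →ₐ[ℝ] ℂ, φ ⟨hat (hol a), SS_hat hol A ha⟩ =
      φ ⟨hat (hol b), SS_hat hol A hb⟩ := fun φ => congrArg Subtype.val (congrFun hab φ)
  set c : AA E := hat (hol a) * hat (hol b) with hc
  have hcS : c ∈ SS hol A := SS_mul hol A (SS_hat hol A ha) (SS_hat hol A hb)
  have hn : IsNilpotent (c - 1) := by
    refine SS_nil hA (Submodule.sub_mem _ hcS (SS_one hol A)) fun φ => ?_
    have h2 : φ ((⟨hat (hol a), SS_hat hol A ha⟩ : SSa hol A) * ⟨hat (hol b), SS_hat hol A hb⟩ - 1)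
        = φ ⟨hat (hol a), SS_hat hol A ha⟩ * φ ⟨hat (hol b), SS_hat hol A hb⟩ - 1 := by
      refine (map_sub φ _ _).trans ?_
      exact congrArg₂ (fun s t => s - t) (map_mul φ _ _) (map_one φ)
    refine h2.trans ?_
    rw [h1]
    exact sub_eq_zero.2 (hval b hb hb2 φ)
  have hcc : c * c = 1 := by
    have h3 := SS_comm hol A hA (SS_hat hol A ha) (SS_hat hol A hb)
    calc c * c = hat (hol a) * (hat (hol b) * hat (hol a)) * hat (hol b) := by
          rw [hc]; simp only [mul_assoc]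
      _ = (hat (hol a) * hat (hol a)) * (hat (hol b) * hat (hol b)) := by
          rw [← h3]; simp only [mul_assoc]
      _ = 1 := by rw [hsq a ha2, hsq b hb2, one_mul]
  have h4 := inv_unip hn hcc
  have h5 : a * b = 1 := by
    apply hinj
    apply hat_inj
    rw [map_mul, map_mul, map_one, map_one]
    exact h4
  refine Subtype.ext ?_
  change a = b
  calc a = a * (b * b) := by rw [hb2, mul_one]
    _ = b := by rw [← mul_assoc, h5, one_mul]

end Run7.h262.EC
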